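import Pool.Agent.Lib_helper68.Judicious

namespace Pool.Agent.Judicious

open Finset

section basic

variable {V : Type} [Fintype V] [DecidableEq V]

theorem card_eq_sum_outdeg (D : Finset (V × V)) : D.card = ∑ v, outdeg D v := by
  unfold outdeg
  rw [Finset.card_eq_sum_card_fiberwise (f := fun p : V × V => p.1) (t := Finset.univ)]
  intro p _; simp

theorem card_eq_sum_indeg (D : Finset (V × V)) : D.card = ∑ v, indeg D v := by
  unfold indeg
  rw [Finset.card_eq_sum_card_fiberwise (f := fun p : V × V => p.2) (t := Finset.univ)]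
  intro p _; simp

theorem outdeg_le (D : Finset (V × V)) (hD : ∀ p ∈ D, p.1 ≠ p.2) (v : V) :
    outdeg D v ≤ Fintype.card V - 1 := by
  unfold outdeg
  have : (D.filter (fun p => p.1 = v)).card ≤ (Finset.univ.erase v).card := by
    apply Finset.card_le_card_of_injOn (fun p => p.2)
    · intro p hp
      simp only [Finset.coe_filter, Set.mem_setOf_eq] at hp
      simp only [Finset.coe_erase, Finset.coe_univ, Set.mem_diff, Set.mem_univ, true_and,
        Set.mem_singleton_iff]
      intro h
      exact hD p hp.1 (hp.2.trans h.symm)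
    · intro p hp q hq h
      simp only [Finset.coe_filter, Set.mem_setOf_eq] at hp hq
      exact Prod.ext (hp.2.trans hq.2.symm) h
  rw [Finset.card_erase_of_mem (Finset.mem_univ v), Finset.card_univ] at this
  exact this

theorem indeg_le (D : Finset (V × V)) (hD : ∀ p ∈ D, p.1 ≠ p.2) (v : V) :
    indeg D v ≤ Fintype.card V - 1 := by
  unfold indeg
  have : (D.filter (fun p => p.2 = v)).card ≤ (Finset.univ.erase v).card := by
    apply Finset.card_le_card_of_injOn (fun p => p.1)
    · intro p hp
      simp only [Finset.coe_filter, Set.mem_setOf_eq] at hp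
      simp only [Finset.coe_erase, Finset.coe_univ, Set.mem_diff, Set.mem_univ, true_and,
        Set.mem_singleton_iff]
      intro h
      exact hD p hp.1 (h.trans hp.2.symm)
    · intro p hp q hq h
      simp only [Finset.coe_filter, Set.mem_setOf_eq] at hp hq
      exact Prod.ext h (hp.2.trans hq.2.symm)
  rw [Finset.card_erase_of_mem (Finset.mem_univ v), Finset.card_univ] at this
  exact this

theorem mul_card_le (D : Finset (V × V)) (k : ℕ) (hk : ∀ v, k ≤ outdeg D v) :
    k * Fintype.card V ≤ D.card := by
  rw [card_eq_sum_outdeg, ← Finset.card_univ, mul_comm]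
  exact Finset.card_nsmul_le_sum _ _ _ (fun v _ => hk v)

theorem lower_nat (D : Finset (V × V)) (hD : ∀ p ∈ D, p.1 ≠ p.2) (k : ℕ)
    (hk : ∀ v, k ≤ outdeg D v) : k * D.card ≤ 4 * k * best D + D.card := by
  have h1 := imb_bound D hD (Fintype.card V - 1) (by
    intro v
    have h2 := outdeg_le D hD v
    have h3 := indeg_le D hD v
    unfold imb
    rw [abs_le]; constructor <;> omega)
  have h4 := mul_card_le D k hk
  have h5 : k * D.card ≤ k * (4 * best D + (Fintype.card V - 1)) := Nat.mul_le_mul_left k h1
  have h6 : k * (Fintype.card V - 1) ≤ k * Fintype.card V := Nat.mul_le_mul_left k (Nat.sub_le _ _)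
  nlinarith

end basic

/-- The set of all ratios `max_{bipartitions} min(e(V₁,V₂), e(V₂,V₁)) / e(D)` for finite digraphs
`D` (without loops, with at most one edge in each direction between two vertices) whose minimum
outdegree is at least `k` and which have at least one edge. -/
def ratios (k : ℕ) : Set ℝ :=
  {r | ∃ (V : Type) (_ : Fintype V) (_ : DecidableEq V) (D : Finset (V × V)),
    (∀ p ∈ D, p.1 ≠ p.2) ∧ (∀ v, k ≤ outdeg D v) ∧ 1 ≤ D.card ∧ r = (best D : ℝ) / D.card}

/-- The constant `c(k)` of the problem. -/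
noncomputable def c (k : ℕ) : ℝ := sInf (ratios k)

theorem ratios_nonneg (k : ℕ) : ∀ r ∈ ratios k, 0 ≤ r := by
  rintro r ⟨V, _, _, D, _, _, _, rfl⟩
  positivity

theorem ratios_bddBelow (k : ℕ) : BddBelow (ratios k) := ⟨0, fun r hr => ratios_nonneg k r hr⟩

theorem ratios_lower (k : ℕ) (hk : 1 ≤ k) : ∀ r ∈ ratios k, ((k : ℝ) - 1) / (4 * k) ≤ r := by
  rintro r ⟨V, _, _, D, hD, hout, hcard, rfl⟩
  have h := lower_nat D hD k hout
  have h' : (k : ℝ) * D.card ≤ 4 * k * best D + D.card := by exact_mod_cast h
  have hk' : (0 : ℝ) < k := by exact_mod_cast hk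
  have hc' : (0 : ℝ) < D.card := by exact_mod_cast hcard
  rw [div_le_div_iff₀ (by positivity) hc']
  nlinarith

end Pool.Agent.Judicious
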