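import Mathlib

/-!
The probe game (distance queries against a moving robber) and the metric dimension.
-/

namespace Pool.Agent.ProbeGame

universe u

/-- A robber trajectory in `H`: `r t` is the robber's vertex in round `t + 1`, and between two
rounds he stays or moves to a neighbour. -/
def IsTrajectory {W : Type u} (H : SimpleGraph W) (r : ℕ → W) : Prop :=
  ∀ t, r (t + 1) = r t ∨ H.Adj (r t) (r (t + 1))

/-- The list of the first `t` answers when the cop uses the strategy `σ` (which maps the list of
the answers so far to the next probe) against the robber trajectory `r`: in round `t + 1` the cop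
probes `σ (answers so far)` and is told its distance to `r t`. -/
noncomputable def answers {W : Type u} (H : SimpleGraph W) (σ : List ℕ → W) (r : ℕ → W) :
    ℕ → List ℕ
  | 0 => []
  | t + 1 => answers H σ r t ++ [H.dist (σ (answers H σ r t)) (r t)]

/-- The cop, using `σ` against the trajectory `r`, wins in round `t + 1`: every robber trajectory
that gives the same answers in rounds `1, ..., t + 1` is at the vertex `r t` in round `t + 1`. -/
def CopWinsInRound {W : Type u} (H : SimpleGraph W) (σ : List ℕ → W) (r : ℕ → W) (t : ℕ) : Prop :=
  ∀ r' : ℕ → W, IsTrajectory H r' → answers H σ r' (t + 1) = answers H σ r (t + 1) → r' t = r t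

/-- `H` is cop-winnable: some strategy of the cop wins after finitely many rounds against every
robber trajectory. -/
def CopWinnable {W : Type u} (H : SimpleGraph W) : Prop :=
  ∃ σ : List ℕ → W, ∀ r : ℕ → W, IsTrajectory H r → ∃ t, CopWinsInRound H σ r t

/-- `S` is a resolving set of `G`: the distances to the members of `S` determine the vertex. -/
def IsResolving {V : Type u} (G : SimpleGraph V) (S : Finset V) : Prop :=
  ∀ u v : V, (∀ w ∈ S, G.dist u w = G.dist v w) → u = v

/-- The metric dimension of `G`: the least size of a resolving set. -/
noncomputable def metricDimension {V : Type u} (G : SimpleGraph V) : ℕ :=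
  sInf {k : ℕ | ∃ S : Finset V, IsResolving G S ∧ S.card = k}

end Pool.Agent.ProbeGame
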