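import Mathlib
import Pool.Agent.Lib_helper68.ProbeGame

/-!
The graph `bitGraph μ`: a clique on `{0,1}^μ` and, for every coordinate `i`, one more vertex that is
adjacent to the words whose `i`-th letter is `1`. Its metric dimension is `μ`.
-/

namespace Pool.Agent.ProbeGame

/-- The adjacency rule of `bitGraph`, before symmetrisation. -/
def bitRel (μ : ℕ) : (Fin μ → Bool) ⊕ Fin μ → (Fin μ → Bool) ⊕ Fin μ → Prop
  | Sum.inl _, Sum.inl _ => True
  | Sum.inl x, Sum.inr i => x i = true
  | Sum.inr _, _ => False

/-- A clique on the words of length `μ` over `{false, true}` together with a vertex for each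
coordinate `i`, adjacent exactly to the words whose `i`-th letter is `true`. -/
def bitGraph (μ : ℕ) : SimpleGraph ((Fin μ → Bool) ⊕ Fin μ) :=
  SimpleGraph.fromRel (bitRel μ)

variable {μ : ℕ}

theorem bit_adj_ll (x y : Fin μ → Bool) : (bitGraph μ).Adj (Sum.inl x) (Sum.inl y) ↔ x ≠ y := by
  simp [bitGraph, SimpleGraph.fromRel_adj, bitRel]

theorem bit_adj_lr (x : Fin μ → Bool) (i : Fin μ) :
    (bitGraph μ).Adj (Sum.inl x) (Sum.inr i) ↔ x i = true := by
  simp [bitGraph, SimpleGraph.fromRel_adj, bitRel]

theorem bit_adj_rl (x : Fin μ → Bool) (i : Fin μ) :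
    (bitGraph μ).Adj (Sum.inr i) (Sum.inl x) ↔ x i = true := by
  simp [bitGraph, SimpleGraph.fromRel_adj, bitRel]

theorem bit_adj_rr (i j : Fin μ) : ¬ (bitGraph μ).Adj (Sum.inr i) (Sum.inr j) := by
  simp [bitGraph, SimpleGraph.fromRel_adj, bitRel]

/-- The word with all letters `true`. -/
def ones (μ : ℕ) : Fin μ → Bool := fun _ => true

theorem bit_connected : (bitGraph μ).Connected := by
  have h : ∀ a : (Fin μ → Bool) ⊕ Fin μ, (bitGraph μ).Reachable a (Sum.inl (ones μ)) := by
    intro a
    rcases a with x | i
    · by_cases hx : x = ones μ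
      · rw [hx]
      · exact SimpleGraph.Adj.reachable ((bit_adj_ll _ _).mpr hx)
    · exact SimpleGraph.Adj.reachable ((bit_adj_rl _ _).mpr rfl)
  have hpre : (bitGraph μ).Preconnected := fun a b => (h a).trans (h b).symm
  exact { preconnected := hpre, nonempty := ⟨Sum.inl (ones μ)⟩ }

theorem bit_dist_ll {x y : Fin μ → Bool} (h : x ≠ y) :
    (bitGraph μ).dist (Sum.inl x) (Sum.inl y) = 1 :=
  SimpleGraph.dist_eq_one_iff_adj.mpr ((bit_adj_ll _ _).mpr h)

theorem bit_dist_lr_true {x : Fin μ → Bool} {i : Fin μ} (h : x i = true) :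
    (bitGraph μ).dist (Sum.inl x) (Sum.inr i) = 1 :=
  SimpleGraph.dist_eq_one_iff_adj.mpr ((bit_adj_lr _ _).mpr h)

theorem bit_dist_lr_false {x : Fin μ → Bool} {i : Fin μ} (h : x i = false) :
    (bitGraph μ).dist (Sum.inl x) (Sum.inr i) = 2 := by
  have h0 : (bitGraph μ).dist (Sum.inl x) (Sum.inr i) ≠ 0 := by
    rw [Ne, bit_connected.dist_eq_zero_iff]
    simp
  have h1 : (bitGraph μ).dist (Sum.inl x) (Sum.inr i) ≠ 1 := by
    rw [Ne, SimpleGraph.dist_eq_one_iff_adj, bit_adj_lr, h]
    simp
  have hne : x ≠ ones μ := by
    intro hx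
    rw [hx] at h
    simp [ones] at h
  have h2 : (bitGraph μ).dist (Sum.inl x) (Sum.inr i) ≤
      (bitGraph μ).dist (Sum.inl x) (Sum.inl (ones μ)) +
      (bitGraph μ).dist (Sum.inl (ones μ)) (Sum.inr i) := bit_connected.dist_triangle
  rw [bit_dist_ll hne, bit_dist_lr_true (x := ones μ) (i := i) rfl] at h2
  omega

theorem bit_metricDimension : metricDimension (bitGraph μ) = μ := by
  classical
  have hmem : μ ∈ {k : ℕ | ∃ S : Finset ((Fin μ → Bool) ⊕ Fin μ),
      IsResolving (bitGraph μ) S ∧ S.card = k} := by
    refine ⟨Finset.univ.map ⟨Sum.inr, Sum.inr_injective⟩, ?_, by simp⟩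
    intro u v huv
    have huv' : ∀ i : Fin μ, (bitGraph μ).dist u (Sum.inr i) = (bitGraph μ).dist v (Sum.inr i) := by
      intro i
      exact huv (Sum.inr i) (by simp)
    rcases u with x | i
    · rcases v with y | j
      · congr 1
        funext i
        have := huv' i
        rcases hx : x i with _ | _ <;> rcases hy : y i with _ | _
        · rfl
        · rw [bit_dist_lr_false hx, bit_dist_lr_true hy] at this
          omega
        · rw [bit_dist_lr_true hx, bit_dist_lr_false hy] at this
          omega
        · rfl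
      · have := huv' j
        rw [SimpleGraph.dist_self, bit_connected.dist_eq_zero_iff] at this
        exact this
    · have := huv' i
      rw [SimpleGraph.dist_self, eq_comm, bit_connected.dist_eq_zero_iff] at this
      exact this.symm
  apply le_antisymm
  · exact Nat.sInf_le hmem
  · apply le_csInf ⟨μ, hmem⟩
    rintro k ⟨S, hS, rfl⟩
    -- an injection from the words to functions on S
    let D : (Fin μ → Bool) → (Fin μ → Bool) ⊕ Fin μ → ℕ := fun x w => (bitGraph μ).dist (Sum.inl x) w
    have hlip : ∀ x y w, D x w ≤ D y w + 1 := by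
      intro x y w
      by_cases hxy : x = y
      · subst hxy; omega
      · have : (bitGraph μ).dist (Sum.inl x) w ≤
            (bitGraph μ).dist (Sum.inl x) (Sum.inl y) + (bitGraph μ).dist (Sum.inl y) w :=
          bit_connected.dist_triangle
        rw [bit_dist_ll hxy] at this
        show (bitGraph μ).dist (Sum.inl x) w ≤ (bitGraph μ).dist (Sum.inl y) w + 1
        omega
    let f : (Fin μ → Bool) → (S → Bool) := fun x w => decide (∀ y, D x w.1 ≤ D y w.1)
    have hf : Function.Injective f := by
      intro x y hxy
      have : (Sum.inl x : (Fin μ → Bool) ⊕ Fin μ) = Sum.inl y := by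
        apply hS
        intro w hw
        have hw' : f x ⟨w, hw⟩ = f y ⟨w, hw⟩ := by rw [hxy]
        simp only [f, decide_eq_decide] at hw'
        show D x w = D y w
        by_contra hne
        rcases Nat.lt_or_ge (D x w) (D y w) with hlt | hge
        · have hx : ∀ z, D x w ≤ D z w := by
            intro z
            have := hlip y z w
            omega
          have := hw'.mp hx x
          omega
        · have hy : ∀ z, D y w ≤ D z w := by
            intro z
            have := hlip x z w
            omega
          have := hw'.mpr hy y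
          omega
      exact Sum.inl.inj this
    have hcard := Fintype.card_le_of_injective f hf
    simp only [Fintype.card_fun, Fintype.card_bool, Fintype.card_fin, Fintype.card_coe] at hcard
    exact (Nat.pow_le_pow_iff_right (by norm_num)).mp hcard

end Pool.Agent.ProbeGame
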