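import Mathlib

/-!
Fractional powers `G^{1/k}` of a graph and distances in them.
-/

namespace Pool.Agent.ProbeGame

universe u

variable {V : Type u}

/-- The vertex set of `G^{1/k}`: the vertices of `G`, and for every edge `e` of `G` the `k - 1` new
vertices `(e, 0), ..., (e, k - 2)`. -/
abbrev FracVert (G : SimpleGraph V) (k : ℕ) : Type u := V ⊕ (G.edgeSet × Fin (k - 1))

/-- The `i`-th vertex (`0 ≤ i ≤ k`) of the path of length `k` that replaces the edge `e`:
it starts at one endpoint of `e`, runs through `(e, 0), ..., (e, k - 2)` and ends at the other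
endpoint of `e`. -/
noncomputable def pathVert (G : SimpleGraph V) (k : ℕ) (e : G.edgeSet) (i : ℕ) : FracVert G k :=
  if i = 0 then Sum.inl (Quot.out e.1).1
  else if h : i - 1 < k - 1 then Sum.inr (e, ⟨i - 1, h⟩)
  else Sum.inl (Quot.out e.1).2

/-- The graph `G^{1/k}`: every edge of `G` is replaced by a path of length `k`. -/
def fracPower (G : SimpleGraph V) (k : ℕ) : SimpleGraph (FracVert G k) :=
  SimpleGraph.fromRel fun a b =>
    ∃ e : G.edgeSet, ∃ i < k, a = pathVert G k e i ∧ b = pathVert G k e (i + 1)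

section basic

variable (G : SimpleGraph V) (m : ℕ)

theorem out_mk (e : G.edgeSet) : s((Quot.out e.1).1, (Quot.out e.1).2) = e.1 := by
  have h : Quot.mk _ (Quot.out e.1) = e.1 := Quot.out_eq e.1
  exact h

theorem out_adj (e : G.edgeSet) : G.Adj (Quot.out e.1).1 (Quot.out e.1).2 := by
  rw [← SimpleGraph.mem_edgeSet, out_mk]
  exact e.2

theorem pathVert_zero (e : G.edgeSet) : pathVert G m e 0 = Sum.inl (Quot.out e.1).1 := by
  simp [pathVert]

theorem pathVert_last (hm : 1 ≤ m) (e : G.edgeSet) :
    pathVert G m e m = Sum.inl (Quot.out e.1).2 := by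
  unfold pathVert
  rw [if_neg (by omega), dif_neg (by omega)]

theorem pathVert_mid (e : G.edgeSet) (i : ℕ) (h0 : 0 < i) (h1 : i < m) :
    pathVert G m e i = Sum.inr (e, ⟨i - 1, by omega⟩) := by
  unfold pathVert
  rw [if_neg (by omega), dif_pos (by omega)]

theorem pathVert_ne_succ (e : G.edgeSet) (i : ℕ) (hi : i < m) :
    pathVert G m e i ≠ pathVert G m e (i + 1) := by
  intro h
  rcases Nat.eq_zero_or_pos i with rfl | h0
  · rw [pathVert_zero] at h
    rcases Nat.lt_or_ge 1 m with h1 | h1
    · rw [pathVert_mid G m e (0 + 1) (by omega) (by omega)] at h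
      simp at h
    · have hm : m = 1 := by omega
      subst hm
      rw [pathVert_last G 1 (le_refl 1)] at h
      exact (out_adj G e).ne (Sum.inl.inj h)
  · rw [pathVert_mid G m e i h0 hi] at h
    rcases Nat.lt_or_ge (i + 1) m with h1 | h1
    · rw [pathVert_mid G m e (i + 1) (by omega) h1] at h
      simp at h
      omega
    · have : i + 1 = m := by omega
      rw [this, pathVert_last G m (by omega)] at h
      simp at h

theorem adj_pathVert (e : G.edgeSet) (i : ℕ) (hi : i < m) :
    (fracPower G m).Adj (pathVert G m e i) (pathVert G m e (i + 1)) := by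
  rw [fracPower, SimpleGraph.fromRel_adj]
  exact ⟨pathVert_ne_succ G m e i hi, Or.inl ⟨e, i, hi, rfl, rfl⟩⟩

/-- Walk along a path that replaces an edge. -/
theorem exists_walk_path (e : G.edgeSet) (i d : ℕ) (h : i + d ≤ m) :
    ∃ w : (fracPower G m).Walk (pathVert G m e i) (pathVert G m e (i + d)), w.length = d := by
  induction d with
  | zero => exact ⟨SimpleGraph.Walk.nil, rfl⟩
  | succ d ih =>
    obtain ⟨w, hw⟩ := ih (by omega)
    refine ⟨w.append (SimpleGraph.Walk.cons (adj_pathVert G m e (i + d) (by omega))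
      SimpleGraph.Walk.nil), ?_⟩
    simp [hw]

theorem exists_walk_branch_adj (hm : 1 ≤ m) {u v : V} (h : G.Adj u v) :
    ∃ w : (fracPower G m).Walk (Sum.inl u) (Sum.inl v), w.length = m := by
  have hs : s((Quot.out s(u, v)).1, (Quot.out s(u, v)).2) = s(u, v) := out_mk G ⟨s(u, v), h⟩
  have hw := exists_walk_path G m ⟨s(u, v), h⟩ 0 m (by omega)
  rw [pathVert_zero, Nat.zero_add, pathVert_last G m hm] at hw
  obtain ⟨w, hw⟩ := hw
  rw [Sym2.eq_iff] at hs
  rcases hs with ⟨h1, h2⟩ | ⟨h1, h2⟩
  · exact ⟨w.copy (congrArg Sum.inl h1) (congrArg Sum.inl h2), by simp [hw]⟩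
  · exact ⟨(w.copy (congrArg Sum.inl h1) (congrArg Sum.inl h2)).reverse, by simp [hw]⟩

theorem exists_walk_branch (hm : 1 ≤ m) {u v : V} (p : G.Walk u v) :
    ∃ w : (fracPower G m).Walk (Sum.inl u) (Sum.inl v), w.length = m * p.length := by
  induction p with
  | nil => exact ⟨SimpleGraph.Walk.nil, by simp⟩
  | cons h p ih =>
    obtain ⟨w, hw⟩ := ih
    obtain ⟨w', hw'⟩ := exists_walk_branch_adj G m hm h
    refine ⟨w'.append w, ?_⟩
    simp [hw, hw', Nat.mul_add, Nat.add_comm]

theorem inr_eq_pathVert (e : G.edgeSet) (i : Fin (m - 1)) :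
    (Sum.inr (e, i) : FracVert G m) = pathVert G m e (i.1 + 1) := by
  rw [pathVert_mid G m e (i.1 + 1) (by omega) (by omega)]
  simp

theorem reachable_branch (x : FracVert G m) :
    ∃ v : V, (fracPower G m).Reachable (Sum.inl v) x := by
  rcases x with v | ⟨e, i⟩
  · exact ⟨v, SimpleGraph.Reachable.refl _⟩
  · refine ⟨(Quot.out e.1).1, ?_⟩
    rw [inr_eq_pathVert, ← pathVert_zero G m e]
    obtain ⟨w, -⟩ := exists_walk_path G m e 0 (i.1 + 1) (by omega)
    rw [Nat.zero_add] at w
    exact ⟨w⟩

theorem fracPower_connected (hm : 1 ≤ m) (hG : G.Connected) : (fracPower G m).Connected := by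
  have hpre : (fracPower G m).Preconnected := by
    intro x y
    obtain ⟨u, hu⟩ := reachable_branch G m x
    obtain ⟨v, hv⟩ := reachable_branch G m y
    obtain ⟨p⟩ := hG.preconnected u v
    obtain ⟨w, -⟩ := exists_walk_branch G m hm p
    exact (hu.symm.trans ⟨w⟩).trans hv
  obtain ⟨v⟩ := hG.nonempty
  exact { preconnected := hpre, nonempty := ⟨Sum.inl v⟩ }

theorem dist_path_le (e : G.edgeSet) (i j : ℕ) (hij : i ≤ j) (hj : j ≤ m) :
    (fracPower G m).dist (pathVert G m e i) (pathVert G m e j) ≤ j - i := by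
  obtain ⟨d, rfl⟩ := Nat.exists_eq_add_of_le hij
  obtain ⟨w, hw⟩ := exists_walk_path G m e i d (by omega)
  have := SimpleGraph.dist_le w
  omega

theorem dist_branch_le (hm : 1 ≤ m) (hG : G.Connected) (u v : V) :
    (fracPower G m).dist (Sum.inl u) (Sum.inl v) ≤ m * G.dist u v := by
  obtain ⟨p, hp⟩ := hG.exists_walk_length_eq_dist u v
  obtain ⟨w, hw⟩ := exists_walk_branch G m hm p
  rw [← hp, ← hw]
  exact SimpleGraph.dist_le w

/-- Lower bound for distances by a function that changes by at most one along edges. -/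
theorem le_dist_of_lipschitz {W : Type u} {H : SimpleGraph W} (hc : H.Connected) (p : W)
    (ψ : W → ℕ) (h0 : ψ p = 0) (hL : ∀ a b, H.Adj a b → ψ b ≤ ψ a + 1) (x : W) :
    ψ x ≤ H.dist p x := by
  obtain ⟨w, hw⟩ := hc.exists_walk_length_eq_dist p x
  have key : ∀ {a b : W} (w : H.Walk a b), ψ b ≤ ψ a + w.length := by
    intro a b w
    induction w with
    | nil => simp
    | cons h w ih =>
      have := hL _ _ h
      simp only [SimpleGraph.Walk.length_cons]
      omega
  have := key w
  omega

/-- Distance in `G^{1/m}` from the point at position `s` on the path of `e` to a vertex of `G`. -/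
noncomputable def br (e : G.edgeSet) (s : ℕ) (v : V) : ℕ :=
  min (s + m * G.dist (Quot.out e.1).1 v) ((m - s) + m * G.dist (Quot.out e.1).2 v)

open scoped Classical in
/-- Distance in `G^{1/m}` from the point at position `s` on the path of `e`. -/
noncomputable def pot (e : G.edgeSet) (s : ℕ) : FracVert G m → ℕ
  | Sum.inl v => br G m e s v
  | Sum.inr (e', i) => if e' = e then (s - (i.1 + 1)) + ((i.1 + 1) - s) else
      min (br G m e s (Quot.out e'.1).1 + (i.1 + 1)) (br G m e s (Quot.out e'.1).2 + (m - (i.1 + 1)))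

theorem br_le_add (hG : G.Connected) (e : G.edgeSet) (s : ℕ) {u v : V} (h : G.Adj u v) :
    br G m e s v ≤ br G m e s u + m := by
  unfold br
  have h1 : ∀ a, m * G.dist a v ≤ m * G.dist a u + m := by
    intro a
    have h2 : G.dist a v ≤ G.dist a u + G.dist u v := hG.dist_triangle
    rw [SimpleGraph.dist_eq_one_iff_adj.mpr h] at h2
    calc m * G.dist a v ≤ m * (G.dist a u + 1) := Nat.mul_le_mul_left _ h2
      _ = m * G.dist a u + m := by ring
  have ha := h1 (Quot.out e.1).1
  have hb := h1 (Quot.out e.1).2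
  omega

open scoped Classical in
theorem pot_pathVert (hm : 1 ≤ m) (hG : G.Connected) (e : G.edgeSet) (s : ℕ) (hs : s ≤ m)
    (e' : G.edgeSet) (i : ℕ) (hi : i ≤ m) :
    pot G m e s (pathVert G m e' i) = if e' = e then (s - i) + (i - s) else
      min (br G m e s (Quot.out e'.1).1 + i) (br G m e s (Quot.out e'.1).2 + (m - i)) := by
  have hA := out_adj G e'
  have hl1 := br_le_add G m hG e s hA
  have hl2 := br_le_add G m hG e s hA.symm
  rcases Nat.eq_zero_or_pos i with rfl | h0
  · rw [pathVert_zero]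
    show br G m e s (Quot.out e'.1).1 = _
    split_ifs with he
    · subst he
      unfold br
      have hd1 : G.dist (Quot.out e'.1).1 (Quot.out e'.1).1 = 0 := SimpleGraph.dist_self
      have hd2 : G.dist (Quot.out e'.1).2 (Quot.out e'.1).1 = 1 :=
        SimpleGraph.dist_eq_one_iff_adj.mpr hA.symm
      rw [hd1, hd2]
      omega
    · omega
  · rcases Nat.lt_or_ge i m with h1 | h1
    · rw [pathVert_mid G m e' i h0 h1]
      show (if e' = e then _ else _) = _
      have : i - 1 + 1 = i := by omega
      simp only [this]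
    · have him : i = m := by omega
      subst him
      rw [pathVert_last G i hm]
      show br G i e s (Quot.out e'.1).2 = _
      split_ifs with he
      · subst he
        unfold br
        have hd1 : G.dist (Quot.out e'.1).2 (Quot.out e'.1).2 = 0 := SimpleGraph.dist_self
        have hd2 : G.dist (Quot.out e'.1).1 (Quot.out e'.1).2 = 1 :=
          SimpleGraph.dist_eq_one_iff_adj.mpr hA
        rw [hd1, hd2]
        omega
      · omega

theorem pot_lipschitz (hm : 1 ≤ m) (hG : G.Connected) (e : G.edgeSet) (s : ℕ) (hs : s ≤ m)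
    (a b : FracVert G m) (h : (fracPower G m).Adj a b) :
    pot G m e s b ≤ pot G m e s a + 1 := by
  classical
  rw [fracPower, SimpleGraph.fromRel_adj] at h
  rcases h.2 with ⟨e', i, hi, ha, hb⟩ | ⟨e', i, hi, ha, hb⟩
  · rw [ha, hb, pot_pathVert G m hm hG e s hs e' i (by omega),
      pot_pathVert G m hm hG e s hs e' (i + 1) (by omega)]
    split_ifs <;> omega
  · rw [ha, hb, pot_pathVert G m hm hG e s hs e' i (by omega),
      pot_pathVert G m hm hG e s hs e' (i + 1) (by omega)]
    split_ifs <;> omega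

theorem dist_inl_le (hm : 1 ≤ m) (hG : G.Connected) (e : G.edgeSet) (s : ℕ) (hs : s ≤ m) (v : V) :
    (fracPower G m).dist (pathVert G m e s) (Sum.inl v) ≤ br G m e s v := by
  have hc := fracPower_connected G m hm hG
  have h1 := dist_path_le G m e 0 s (Nat.zero_le _) hs
  have h2 := dist_path_le G m e s m hs (le_refl _)
  rw [pathVert_zero] at h1
  rw [pathVert_last G m hm] at h2
  have h3 := dist_branch_le G m hm hG (Quot.out e.1).1 v
  have h4 := dist_branch_le G m hm hG (Quot.out e.1).2 v
  have t1 : (fracPower G m).dist (pathVert G m e s) (Sum.inl v) ≤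
      (fracPower G m).dist (pathVert G m e s) (Sum.inl (Quot.out e.1).1) +
      (fracPower G m).dist (Sum.inl (Quot.out e.1).1) (Sum.inl v) := hc.dist_triangle
  have t2 : (fracPower G m).dist (pathVert G m e s) (Sum.inl v) ≤
      (fracPower G m).dist (pathVert G m e s) (Sum.inl (Quot.out e.1).2) +
      (fracPower G m).dist (Sum.inl (Quot.out e.1).2) (Sum.inl v) := hc.dist_triangle
  rw [SimpleGraph.dist_comm] at h1
  unfold br
  omega

/-- Distances between points on the paths replacing two different edges. -/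
theorem dist_formula (hm : 1 ≤ m) (hG : G.Connected) (e e' : G.edgeSet) (hne : e' ≠ e)
    (s j : ℕ) (hs : s ≤ m) (hj : j ≤ m) :
    (fracPower G m).dist (pathVert G m e s) (pathVert G m e' j) =
      min (br G m e s (Quot.out e'.1).1 + j) (br G m e s (Quot.out e'.1).2 + (m - j)) := by
  classical
  have hc := fracPower_connected G m hm hG
  apply le_antisymm
  · have h1 := dist_path_le G m e' 0 j (Nat.zero_le _) hj
    have h2 := dist_path_le G m e' j m hj (le_refl _)
    rw [pathVert_zero] at h1
    rw [pathVert_last G m hm] at h2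
    have h3 := dist_inl_le G m hm hG e s hs (Quot.out e'.1).1
    have h4 := dist_inl_le G m hm hG e s hs (Quot.out e'.1).2
    have t1 : (fracPower G m).dist (pathVert G m e s) (pathVert G m e' j) ≤
        (fracPower G m).dist (pathVert G m e s) (Sum.inl (Quot.out e'.1).1) +
        (fracPower G m).dist (Sum.inl (Quot.out e'.1).1) (pathVert G m e' j) := hc.dist_triangle
    have t2 : (fracPower G m).dist (pathVert G m e s) (pathVert G m e' j) ≤
        (fracPower G m).dist (pathVert G m e s) (Sum.inl (Quot.out e'.1).2) +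
        (fracPower G m).dist (Sum.inl (Quot.out e'.1).2) (pathVert G m e' j) := hc.dist_triangle
    rw [SimpleGraph.dist_comm] at h2
    omega
  · have h0 : pot G m e s (pathVert G m e s) = 0 := by
      rw [pot_pathVert G m hm hG e s hs e s hs, if_pos rfl]
      omega
    have := le_dist_of_lipschitz hc (pathVert G m e s) (pot G m e s) h0
      (pot_lipschitz G m hm hG e s hs) (pathVert G m e' j)
    rw [pot_pathVert G m hm hG e s hs e' j hj, if_neg hne] at this
    exact this

/-- The vertex of `G^{1/m}` at distance `j` from `u` on the path that replaces the edge `uv`. -/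
noncomputable def pos {u v : V} (h : G.Adj u v) (j : ℕ) : FracVert G m :=
  open scoped Classical in
  if (Quot.out s(u, v)).1 = u then pathVert G m ⟨s(u, v), h⟩ j
  else pathVert G m ⟨s(u, v), h⟩ (m - j)

theorem out_cases {u v : V} (h : G.Adj u v) :
    ((Quot.out s(u, v)).1 = u ∧ (Quot.out s(u, v)).2 = v) ∨
    ((Quot.out s(u, v)).1 = v ∧ (Quot.out s(u, v)).2 = u ∧ (Quot.out s(u, v)).1 ≠ u) := by
  have hs : s((Quot.out s(u, v)).1, (Quot.out s(u, v)).2) = s(u, v) := out_mk G ⟨s(u, v), h⟩
  rw [Sym2.eq_iff] at hs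
  rcases hs with h1 | h1
  · exact Or.inl h1
  · refine Or.inr ⟨h1.1, h1.2, ?_⟩
    rw [h1.1]
    exact h.ne'

theorem pos_zero (hm : 1 ≤ m) {u v : V} (h : G.Adj u v) : pos G m h 0 = Sum.inl u := by
  unfold pos
  rcases out_cases G h with ⟨h1, h2⟩ | ⟨h1, h2, h3⟩
  · rw [if_pos h1, pathVert_zero]
    exact congrArg Sum.inl h1
  · rw [if_neg h3, Nat.sub_zero, pathVert_last G m hm]
    exact congrArg Sum.inl h2

theorem pos_last (hm : 1 ≤ m) {u v : V} (h : G.Adj u v) : pos G m h m = Sum.inl v := by
  unfold pos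
  rcases out_cases G h with ⟨h1, h2⟩ | ⟨h1, h2, h3⟩
  · rw [if_pos h1, pathVert_last G m hm]
    exact congrArg Sum.inl h2
  · rw [if_neg h3, Nat.sub_self, pathVert_zero]
    exact congrArg Sum.inl h1

theorem pos_adj {u v : V} (h : G.Adj u v) (j : ℕ) (hj : j < m) :
    (fracPower G m).Adj (pos G m h j) (pos G m h (j + 1)) := by
  unfold pos
  split_ifs
  · exact adj_pathVert G m _ j hj
  · have := adj_pathVert G m ⟨s(u, v), h⟩ (m - (j + 1)) (by omega)
    have e : m - (j + 1) + 1 = m - j := by omega
    rw [e] at this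
    exact this.symm

theorem pos_ne {u v v' : V} (h : G.Adj u v) (h' : G.Adj u v') (hv : v ≠ v') (j : ℕ) (hj : 1 ≤ j)
    (hjm : j ≤ m) : pos G m h j ≠ pos G m h' j := by
  rcases Nat.lt_or_ge j m with hlt | hge
  · intro heq
    have key : ∀ {w : V} (hw : G.Adj u w), ∃ i, pos G m hw j = Sum.inr (⟨s(u, w), hw⟩, i) := by
      intro w hw
      unfold pos
      split_ifs
      · exact ⟨_, pathVert_mid G m _ j (by omega) hlt⟩
      · exact ⟨_, pathVert_mid G m _ (m - j) (by omega) (by omega)⟩
    obtain ⟨i, hi⟩ := key h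
    obtain ⟨i', hi'⟩ := key h'
    rw [hi, hi'] at heq
    have h1 := (Prod.mk.inj (Sum.inr.inj heq)).1
    have h2 : s(u, v) = s(u, v') := congrArg Subtype.val h1
    rw [Sym2.eq_iff] at h2
    rcases h2 with ⟨-, h3⟩ | ⟨h3, h4⟩
    · exact hv h3
    · exact hv (h4.trans h3)
  · have hjm' : j = m := by omega
    subst hjm'
    rw [pos_last G j (by omega) h, pos_last G j (by omega) h']
    intro heq
    exact hv (Sum.inl.inj heq)

/-- Distance from a point on the path of `e` to the point at distance `j` from `u` on the path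
of another edge `uv`. -/
theorem dist_pos (hm : 1 ≤ m) (hG : G.Connected) (e : G.edgeSet) (s : ℕ) (hs : s ≤ m) {u v : V}
    (h : G.Adj u v) (hne : s(u, v) ≠ e.1) (j : ℕ) (hj : j ≤ m) :
    (fracPower G m).dist (pathVert G m e s) (pos G m h j) =
      min (br G m e s u + j) (br G m e s v + (m - j)) := by
  have hne' : (⟨s(u, v), h⟩ : G.edgeSet) ≠ e := by
    intro he
    exact hne (congrArg Subtype.val he)
  unfold pos
  rcases out_cases G h with ⟨h1, h2⟩ | ⟨h1, h2, h3⟩
  · rw [if_pos h1, dist_formula G m hm hG e ⟨s(u, v), h⟩ hne' s j hs hj]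
    simp only [h1, h2]
  · rw [if_neg h3, dist_formula G m hm hG e ⟨s(u, v), h⟩ hne' s (m - j) hs (by omega)]
    simp only [h1, h2]
    have : m - (m - j) = j := by omega
    rw [this, min_comm]

/-- Every vertex of `G^{1/m}` lies on the path of some edge when every vertex has a neighbour. -/
theorem exists_pathVert (hm : 1 ≤ m) (hn : ∀ u : V, ∃ v, G.Adj u v) (x : FracVert G m) :
    ∃ (e : G.edgeSet) (s : ℕ), s ≤ m ∧ x = pathVert G m e s := by
  rcases x with v | ⟨e, i⟩
  · obtain ⟨w, hw⟩ := hn v
    refine ⟨⟨s(v, w), hw⟩, ?_⟩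
    rcases out_cases G hw with ⟨h1, h2⟩ | ⟨h1, h2, h3⟩
    · refine ⟨0, Nat.zero_le _, ?_⟩
      rw [pathVert_zero]
      exact congrArg Sum.inl h1.symm
    · refine ⟨m, le_refl _, ?_⟩
      rw [pathVert_last G m hm]
      exact congrArg Sum.inl h2.symm
  · exact ⟨e, i.1 + 1, by omega, inr_eq_pathVert G m e i⟩

end basic

end Pool.Agent.ProbeGame
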