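import Mathlib
import Pool.Agent.Lib_helper68.FracPower
import Pool.Agent.Lib_helper68.ProbeGame
import Pool.Agent.Lib_helper68.BitGraph

/-!
The robber evades on `(bitGraph μ)^{1/m}` for `m` up to about `2 μ`.
-/

namespace Pool.Agent.ProbeGame

open Finset

variable {μ : ℕ}

/-- The point at distance `j` from the word `y` on the path from `y` to `z`. -/
noncomputable def wpos (m : ℕ) {y z : Fin μ → Bool} (h : y ≠ z) (j : ℕ) :
    FracVert (bitGraph μ) m :=
  pos (bitGraph μ) m ((bit_adj_ll y z).mpr h) j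

theorem bit_dist_le_one (x v : Fin μ → Bool) :
    (bitGraph μ).dist (Sum.inl x) (Sum.inl v) = 0 ∨ (bitGraph μ).dist (Sum.inl x) (Sum.inl v) = 1 := by
  by_cases h : x = v
  · left; rw [h]; exact SimpleGraph.dist_self
  · right; exact bit_dist_ll h

theorem bit_dist_rl (x : Fin μ → Bool) (i : Fin μ) :
    (x i = true ∧ (bitGraph μ).dist (Sum.inr i) (Sum.inl x) = 1) ∨
    (x i = false ∧ (bitGraph μ).dist (Sum.inr i) (Sum.inl x) = 2) := by
  rcases h : x i with _ | _
  · right; rw [SimpleGraph.dist_comm]; exact ⟨rfl, bit_dist_lr_false h⟩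
  · left; rw [SimpleGraph.dist_comm]; exact ⟨rfl, bit_dist_lr_true h⟩

/-- One probe: up to one coordinate and up to two words, the answer does not depend on the
destination. -/
theorem probe_step (hμ : 1 ≤ μ) (m : ℕ) (hm : 1 ≤ m) (p : FracVert (bitGraph μ) m) :
    ∃ (P0 : Finset (Fin μ)) (K0 : Finset (Fin μ → Bool)), P0.card ≤ 1 ∧ K0.card ≤ 2 ∧
      ∀ (y z z' : Fin μ → Bool) (hz : y ≠ z) (hz' : y ≠ z'), z ∉ K0 → z' ∉ K0 →
      ∀ j, j ≤ m →
      ((2 * j ≤ m ∧ ∀ i ∈ P0, y i = true) ∨ (∀ i ∈ P0, z i = true ∧ z' i = true)) →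
      (fracPower (bitGraph μ) m).dist p (wpos m hz j) =
        (fracPower (bitGraph μ) m).dist p (wpos m hz' j) := by
  classical
  have hn : ∀ u : (Fin μ → Bool) ⊕ Fin μ, ∃ v, (bitGraph μ).Adj u v := by
    intro u
    rcases u with x | i
    · refine ⟨Sum.inl (fun i => !(x i)), (bit_adj_ll _ _).mpr ?_⟩
      intro h
      have := congrFun h ⟨0, hμ⟩
      simp at this
    · exact ⟨Sum.inl (ones μ), (bit_adj_rl _ _).mpr rfl⟩
  obtain ⟨e, s, hs, rfl⟩ := exists_pathVert (bitGraph μ) m hm hn p
  have hmk := out_mk (bitGraph μ) e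
  have hadj := out_adj (bitGraph μ) e
  rcases ha : (Quot.out e.1).1 with x1 | i1
  · rcases hb : (Quot.out e.1).2 with x2 | i2
    · -- clique edge
      rw [ha, hb] at hmk hadj
      refine ⟨∅, {x1, x2}, by simp, Finset.card_le_two, ?_⟩
      intro y z z' hz hz' hzK hz'K j hj _
      have hbr : ∀ w, w ∉ ({x1, x2} : Finset (Fin μ → Bool)) →
          br (bitGraph μ) m e s (Sum.inl w) = min (s + m) ((m - s) + m) := by
        intro w hw
        simp only [Finset.mem_insert, Finset.mem_singleton, not_or] at hw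
        unfold br
        rw [ha, hb, bit_dist_ll (Ne.symm hw.1), bit_dist_ll (Ne.symm hw.2), Nat.mul_one]
      have hne : ∀ w, w ∉ ({x1, x2} : Finset (Fin μ → Bool)) →
          s((Sum.inl y : (Fin μ → Bool) ⊕ Fin μ), Sum.inl w) ≠ e.1 := by
        intro w hw heq
        rw [← hmk, Sym2.eq_iff] at heq
        simp only [Finset.mem_insert, Finset.mem_singleton, not_or] at hw
        rcases heq with ⟨-, h⟩ | ⟨-, h⟩
        · exact hw.2 (Sum.inl.inj h)
        · exact hw.1 (Sum.inl.inj h)
      unfold wpos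
      rw [dist_pos (bitGraph μ) m hm bit_connected e s hs _ (hne z hzK) j hj,
        dist_pos (bitGraph μ) m hm bit_connected e s hs _ (hne z' hz'K) j hj,
        hbr z hzK, hbr z' hz'K]
    · -- edge x1 - coordinate i2
      rw [ha, hb] at hmk hadj
      refine ⟨{i2}, {x1}, by simp, by simp, ?_⟩
      intro y z z' hz hz' hzK hz'K j hj hcond
      rw [Finset.mem_singleton] at hzK hz'K
      have hne : ∀ w, s((Sum.inl y : (Fin μ → Bool) ⊕ Fin μ), Sum.inl w) ≠ e.1 := by
        intro w heq
        rw [← hmk, Sym2.eq_iff] at heq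
        rcases heq with ⟨-, h⟩ | ⟨h, -⟩
        · simp at h
        · simp at h
      have hbr : ∀ w, br (bitGraph μ) m e s (Sum.inl w) =
          min (s + m * (bitGraph μ).dist (Sum.inl x1) (Sum.inl w))
            ((m - s) + m * (bitGraph μ).dist (Sum.inr i2) (Sum.inl w)) := by
        intro w
        unfold br
        rw [ha, hb]
      unfold wpos
      rw [dist_pos (bitGraph μ) m hm bit_connected e s hs _ (hne z) j hj,
        dist_pos (bitGraph μ) m hm bit_connected e s hs _ (hne z') j hj,
        hbr z, hbr z', hbr y, bit_dist_ll (Ne.symm hzK), bit_dist_ll (Ne.symm hz'K)]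
      rcases hcond with ⟨h2j, hy⟩ | hzz
      · have hyi : y i2 = true := hy i2 (by simp)
        rcases bit_dist_rl y i2 with ⟨-, hdy⟩ | ⟨h, -⟩
        · rw [hdy]
          rcases bit_dist_le_one x1 y with h0 | h0 <;> rw [h0] <;>
          rcases bit_dist_rl z i2 with ⟨-, hdz⟩ | ⟨-, hdz⟩ <;> rw [hdz] <;>
          rcases bit_dist_rl z' i2 with ⟨-, hdz'⟩ | ⟨-, hdz'⟩ <;> rw [hdz'] <;> omega
        · rw [hyi] at h; simp at h
      · have hzi := hzz i2 (by simp)
        rcases bit_dist_rl z i2 with ⟨-, hdz⟩ | ⟨h, -⟩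
        · rcases bit_dist_rl z' i2 with ⟨-, hdz'⟩ | ⟨h, -⟩
          · rw [hdz, hdz']
          · rw [hzi.2] at h; simp at h
        · rw [hzi.1] at h; simp at h
  · rcases hb : (Quot.out e.1).2 with x2 | i2
    · -- edge coordinate i1 - x2
      rw [ha, hb] at hmk hadj
      refine ⟨{i1}, {x2}, by simp, by simp, ?_⟩
      intro y z z' hz hz' hzK hz'K j hj hcond
      rw [Finset.mem_singleton] at hzK hz'K
      have hne : ∀ w, s((Sum.inl y : (Fin μ → Bool) ⊕ Fin μ), Sum.inl w) ≠ e.1 := by
        intro w heq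
        rw [← hmk, Sym2.eq_iff] at heq
        rcases heq with ⟨h, -⟩ | ⟨-, h⟩
        · simp at h
        · simp at h
      have hbr : ∀ w, br (bitGraph μ) m e s (Sum.inl w) =
          min (s + m * (bitGraph μ).dist (Sum.inr i1) (Sum.inl w))
            ((m - s) + m * (bitGraph μ).dist (Sum.inl x2) (Sum.inl w)) := by
        intro w
        unfold br
        rw [ha, hb]
      unfold wpos
      rw [dist_pos (bitGraph μ) m hm bit_connected e s hs _ (hne z) j hj,
        dist_pos (bitGraph μ) m hm bit_connected e s hs _ (hne z') j hj,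
        hbr z, hbr z', hbr y, bit_dist_ll (Ne.symm hzK), bit_dist_ll (Ne.symm hz'K)]
      rcases hcond with ⟨h2j, hy⟩ | hzz
      · have hyi : y i1 = true := hy i1 (by simp)
        rcases bit_dist_rl y i1 with ⟨-, hdy⟩ | ⟨h, -⟩
        · rw [hdy]
          rcases bit_dist_le_one x2 y with h0 | h0 <;> rw [h0] <;>
          rcases bit_dist_rl z i1 with ⟨-, hdz⟩ | ⟨-, hdz⟩ <;> rw [hdz] <;>
          rcases bit_dist_rl z' i1 with ⟨-, hdz'⟩ | ⟨-, hdz'⟩ <;> rw [hdz'] <;> omega
        · rw [hyi] at h; simp at h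
      · have hzi := hzz i1 (by simp)
        rcases bit_dist_rl z i1 with ⟨-, hdz⟩ | ⟨h, -⟩
        · rcases bit_dist_rl z' i1 with ⟨-, hdz'⟩ | ⟨h, -⟩
          · rw [hdz, hdz']
          · rw [hzi.2] at h; simp at h
        · rw [hzi.1] at h; simp at h
    · rw [ha, hb] at hadj
      exact absurd hadj (bit_adj_rr _ _)

/-- The set of coordinates at which a word is `false`. -/
def zeros (y : Fin μ → Bool) : Finset (Fin μ) := univ.filter fun i => y i = false

/-- Knowledge of the cop after `n` probes during one passage: only few coordinates and few words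
are excluded for the destination. -/
theorem block_aux (hμ : 1 ≤ μ) (m : ℕ) (hm : 1 ≤ m) (y : Fin μ → Bool)
    (τ : List ℕ → FracVert (bitGraph μ) m) (n : ℕ) (hn : n ≤ m) :
    ∃ (L : List ℕ) (P R : Finset (Fin μ)) (K : Finset (Fin μ → Bool)),
      P ⊆ zeros y ∪ R ∧ R.card ≤ n - m / 2 ∧ K.card ≤ 2 * n ∧
      ∀ (z : Fin μ → Bool) (hz : y ≠ z), z ∉ K → (∀ i ∈ P, z i = true) →
        answers (fracPower (bitGraph μ) m) τ (fun t => wpos m hz (t + 1)) n = L := by
  classical
  induction n with
  | zero =>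
    exact ⟨[], ∅, ∅, ∅, by simp, by simp, by simp, fun z hz _ _ => rfl⟩
  | succ n ih =>
    obtain ⟨L, P, R, K, hP, hR, hK, hL⟩ := ih (by omega)
    obtain ⟨P0, K0, hP0, hK0, hstep⟩ := probe_step hμ m hm (τ L)
    -- new sets
    have hnew : ∃ (P' R' : Finset (Fin μ)), P ⊆ P' ∧ P' ⊆ zeros y ∪ R' ∧
        R'.card ≤ (n + 1) - m / 2 ∧
        ((2 * (n + 1) ≤ m ∧ ∀ i ∈ P0, y i = true) ∨ P0 ⊆ P') := by
      by_cases h1 : 2 * (n + 1) ≤ m
      · by_cases h2 : ∀ i ∈ P0, y i = true
        · exact ⟨P, R, Finset.Subset.refl _, hP, by omega, Or.inl ⟨h1, h2⟩⟩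
        · refine ⟨P ∪ P0, R, Finset.subset_union_left, ?_, by omega, Or.inr Finset.subset_union_right⟩
          apply Finset.union_subset hP
          intro i hi
          rw [Finset.mem_union]
          left
          push Not at h2
          obtain ⟨i', hi', hy'⟩ := h2
          have : i = i' := Finset.card_le_one.mp hP0 i hi i' hi'
          subst this
          simp only [zeros, Finset.mem_filter, Finset.mem_univ, true_and]
          simpa using hy'
      · refine ⟨P ∪ P0, R ∪ P0, Finset.subset_union_left, ?_, ?_, Or.inr Finset.subset_union_right⟩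
        · apply Finset.union_subset
          · refine hP.trans ?_
            exact Finset.union_subset_union_right Finset.subset_union_left
          · exact Finset.subset_union_right.trans Finset.subset_union_right
        · have := Finset.card_union_le R P0
          omega
    obtain ⟨P', R', hPP', hP', hR', hcase⟩ := hnew
    have hKcard : (K ∪ K0).card ≤ 2 * (n + 1) := by
      have := Finset.card_union_le K K0
      omega
    by_cases hex : ∃ z0 : Fin μ → Bool, y ≠ z0 ∧ z0 ∉ K ∪ K0 ∧ ∀ i ∈ P', z0 i = true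
    · obtain ⟨z0, hz0, hz0K, hz0P⟩ := hex
      refine ⟨L ++ [(fracPower (bitGraph μ) m).dist (τ L) (wpos m hz0 (n + 1))], P', R', K ∪ K0,
        hP', hR', hKcard, ?_⟩
      intro z hz hzK hzP
      rw [Finset.mem_union, not_or] at hzK hz0K
      have hLz := hL z hz hzK.1 (fun i hi => hzP i (hPP' hi))
      show answers _ τ _ n ++ [_] = _
      rw [hLz]
      congr 2
      apply hstep y z z0 hz hz0 hzK.2 hz0K.2 (n + 1) hn
      rcases hcase with h | h
      · exact Or.inl h
      · exact Or.inr (fun i hi => ⟨hzP i (h hi), hz0P i (h hi)⟩)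
    · refine ⟨[], P', R', K ∪ K0, hP', hR', hKcard, ?_⟩
      intro z hz hzK hzP
      exact absurd ⟨z, hz, hzK, hzP⟩ hex

/-- One passage: from a word with exactly two `false` letters the robber has two different
destinations, both with exactly two `false` letters, that the cop cannot tell apart. -/
theorem block (m : ℕ) (hm : 1 ≤ m) (hμm : 2 * m + 3 ≤ (μ - 2 - (m - m / 2)).choose 2)
    (y : Fin μ → Bool) (hy : (zeros y).card = 2) (τ : List ℕ → FracVert (bitGraph μ) m) :
    ∃ (z z' : Fin μ → Bool) (hz : y ≠ z) (hz' : y ≠ z'), z ≠ z' ∧ (zeros z).card = 2 ∧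
      ∀ n ≤ m,
        answers (fracPower (bitGraph μ) m) τ (fun t => wpos m hz (t + 1)) n =
        answers (fracPower (bitGraph μ) m) τ (fun t => wpos m hz' (t + 1)) n := by
  classical
  have hμ : 1 ≤ μ := by
    rcases Nat.eq_zero_or_pos μ with h | h
    · subst h
      simp at hμm
    · exact h
  obtain ⟨L, P, R, K, hP, hR, hK, hL⟩ := block_aux hμ m hm y τ m (le_refl m)
  have hPcard : P.card ≤ 2 + (m - m / 2) := by
    calc P.card ≤ (zeros y ∪ R).card := Finset.card_le_card hP
      _ ≤ (zeros y).card + R.card := Finset.card_union_le _ _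
      _ ≤ 2 + (m - m / 2) := by omega
  have hUcard : μ - 2 - (m - m / 2) ≤ (Pᶜ : Finset (Fin μ)).card := by
    rw [Finset.card_compl, Fintype.card_fin]
    omega
  let wf : Finset (Fin μ) → (Fin μ → Bool) := fun T i => decide (i ∉ T)
  have hzw : ∀ T, zeros (wf T) = T := by
    intro T
    ext i
    simp [zeros, wf]
  have hwinj : Function.Injective wf := by
    intro T T' h
    rw [← hzw T, ← hzw T', h]
  let Z : Finset (Fin μ → Bool) := (Finset.powersetCard 2 (Pᶜ : Finset (Fin μ))).image wf
  have hZcard : 2 * m + 3 ≤ Z.card := by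
    rw [Finset.card_image_of_injective _ hwinj, Finset.card_powersetCard]
    exact hμm.trans (Nat.choose_le_choose 2 hUcard)
  have hS : 1 < (Z \ insert y K).card := by
    have h1 := Finset.le_card_sdiff (insert y K) Z
    have h2 := Finset.card_insert_le y K
    omega
  obtain ⟨z, hz, z', hz', hne⟩ := Finset.one_lt_card.mp hS
  have hprop : ∀ w ∈ Z \ insert y K, y ≠ w ∧ w ∉ K ∧ (∀ i ∈ P, w i = true) ∧ (zeros w).card = 2 := by
    intro w hw
    rw [Finset.mem_sdiff, Finset.mem_insert, not_or, Finset.mem_image] at hw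
    obtain ⟨⟨T, hT, rfl⟩, hyw, hwK⟩ := hw
    rw [Finset.mem_powersetCard] at hT
    refine ⟨fun h => hyw h.symm, hwK, ?_, ?_⟩
    · intro i hi
      show decide (i ∉ T) = true
      rw [decide_eq_true_eq]
      intro hiT
      have := hT.1 hiT
      rw [Finset.mem_compl] at this
      exact this hi
    · rw [hzw]
      exact hT.2
  obtain ⟨hyz, hzK, hzP, hzc⟩ := hprop z hz
  obtain ⟨hyz', hzK', hzP', hzc'⟩ := hprop z' hz'
  refine ⟨z, z', hyz, hyz', hne, hzc, ?_⟩
  -- equality of the answers up to n follows from equality up to m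
  have hm' := (hL z hyz hzK hzP).trans (hL z' hyz' hzK' hzP').symm
  have hlen : ∀ (q : ℕ → FracVert (bitGraph μ) m) (n : ℕ),
      (answers (fracPower (bitGraph μ) m) τ q n).length = n := by
    intro q n
    induction n with
    | zero => rfl
    | succ n ih => simp [answers, ih]
  have hdown : ∀ (d n : ℕ), n + d = m →
      answers (fracPower (bitGraph μ) m) τ (fun t => wpos m hyz (t + 1)) n =
      answers (fracPower (bitGraph μ) m) τ (fun t => wpos m hyz' (t + 1)) n := by
    intro d
    induction d with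
    | zero => intro n hn; rw [Nat.add_zero] at hn; rw [hn]; exact hm'
    | succ d ih =>
      intro n hn
      have h1 := ih (n + 1) (by omega)
      simp only [answers] at h1
      exact List.append_inj_left h1 (by rw [hlen, hlen])
  intro n hn
  exact hdown (m - n) n (by omega)

end Pool.Agent.ProbeGame
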