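import Mathlib
import Pool.Agent.Lib_helper68.BitGame

/-!
Assembly of the passages: the robber is never located on `(bitGraph μ)^{1/m}`.
-/

namespace Pool.Agent.ProbeGame

open Finset

theorem answers_congr {W : Type*} (H : SimpleGraph W) (σ : List ℕ → W) (q q' : ℕ → W) (t : ℕ)
    (h : ∀ s < t, q s = q' s) : answers H σ q t = answers H σ q' t := by
  induction t with
  | zero => rfl
  | succ t ih =>
    simp only [answers]
    rw [ih (fun s hs => h s (by omega)), h t (by omega)]

theorem answers_block {W : Type*} (H : SimpleGraph W) (σ : List ℕ → W) (q b : ℕ → W) (T : ℕ)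
    (L : List ℕ) (hL : answers H σ q T = L) (m : ℕ) (hq : ∀ n < m, q (T + n) = b n) (n : ℕ)
    (hn : n ≤ m) :
    answers H σ q (T + n) = L ++ answers H (fun l => σ (L ++ l)) b n := by
  induction n with
  | zero => simp [answers, hL]
  | succ n ih =>
    have ih' := ih (by omega)
    rw [← Nat.add_assoc]
    simp only [answers]
    rw [ih', hq n (by omega), List.append_assoc]

variable {μ : ℕ}

theorem not_copWinnable (m : ℕ) (hm : 1 ≤ m)
    (hμm : 2 * m + 3 ≤ (μ - 2 - (m - m / 2)).choose 2) :
    ¬ CopWinnable (fracPower (bitGraph μ) m) := by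
  classical
  rintro ⟨σ, hσ⟩
  -- heavy words
  let Hv : Type := {y : Fin μ → Bool // (zeros y).card = 2}
  have hblock := fun (y : Hv) (τ : List ℕ → FracVert (bitGraph μ) m) =>
    block m hm hμm y.1 y.2 τ
  choose nz nz' hnz hnz' hne hcard hans using hblock
  -- a starting word
  have hstart : ∃ y : Fin μ → Bool, (zeros y).card = 2 := by
    have h2 : 2 ≤ (univ : Finset (Fin μ)).card := by
      rw [Finset.card_univ, Fintype.card_fin]
      by_contra hlt
      have : (μ - 2 - (m - m / 2)) = 0 := by omega
      rw [this] at hμm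
      simp at hμm
    obtain ⟨T, hT⟩ := Finset.powersetCard_nonempty.mpr h2
    refine ⟨fun i => decide (i ∉ T), ?_⟩
    have : zeros (fun i => decide (i ∉ T)) = T := by
      ext i
      simp [zeros]
    rw [this]
    exact (Finset.mem_powersetCard.mp hT).2
  obtain ⟨y0, hy0⟩ := hstart
  -- the sequence of words and histories
  let next : Hv × List ℕ → Hv × List ℕ := fun s =>
    (⟨nz s.1 (fun l => σ (s.2 ++ l)), hcard s.1 (fun l => σ (s.2 ++ l))⟩,
      s.2 ++ answers (fracPower (bitGraph μ) m) (fun l => σ (s.2 ++ l))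
        (fun t => wpos m (hnz s.1 (fun l => σ (s.2 ++ l))) (t + 1)) m)
  let st : ℕ → Hv × List ℕ := fun k => Nat.rec (⟨y0, hy0⟩, []) (fun _ s => next s) k
  have hst : ∀ k, st (k + 1) = next (st k) := fun k => rfl
  let τ : ℕ → List ℕ → FracVert (bitGraph μ) m := fun k l => σ ((st k).2 ++ l)
  let b : ℕ → ℕ → FracVert (bitGraph μ) m := fun k t => wpos m (hnz (st k).1 (τ k)) (t + 1)
  let b' : ℕ → ℕ → FracVert (bitGraph μ) m := fun k t => wpos m (hnz' (st k).1 (τ k)) (t + 1)
  have hb_last : ∀ k, b k (m - 1) = Sum.inl (Sum.inl ((st (k + 1)).1.1)) := by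
    intro k
    show pos (bitGraph μ) m _ (m - 1 + 1) = _
    have : m - 1 + 1 = m := by omega
    rw [this]
    exact pos_last (bitGraph μ) m hm _
  have hb_adj : ∀ k t, t + 1 < m → (fracPower (bitGraph μ) m).Adj (b k t) (b k (t + 1)) := by
    intro k t ht
    exact pos_adj (bitGraph μ) m _ (t + 1) (by omega)
  have hb'_adj : ∀ k t, t + 1 < m → (fracPower (bitGraph μ) m).Adj (b' k t) (b' k (t + 1)) := by
    intro k t ht
    exact pos_adj (bitGraph μ) m _ (t + 1) (by omega)
  have hb_zero : ∀ k, (fracPower (bitGraph μ) m).Adj (Sum.inl (Sum.inl ((st k).1.1))) (b k 0) := by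
    intro k
    have := pos_adj (bitGraph μ) m ((bit_adj_ll _ _).mpr (hnz (st k).1 (τ k))) 0 (by omega)
    rw [pos_zero (bitGraph μ) m hm] at this
    exact this
  have hb'_zero : ∀ k, (fracPower (bitGraph μ) m).Adj (Sum.inl (Sum.inl ((st k).1.1))) (b' k 0) := by
    intro k
    have := pos_adj (bitGraph μ) m ((bit_adj_ll _ _).mpr (hnz' (st k).1 (τ k))) 0 (by omega)
    rw [pos_zero (bitGraph μ) m hm] at this
    exact this
  have hb_ne : ∀ k t, t < m → b' k t ≠ b k t := by
    intro k t ht
    exact pos_ne (bitGraph μ) m _ _ (fun h => hne (st k).1 (τ k) (Sum.inl.inj h).symm) (t + 1)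
      (by omega) (by omega)
  -- the trajectory
  let r : ℕ → FracVert (bitGraph μ) m := fun t => b (t / m) (t % m)
  have hr : ∀ k n, n < m → r (m * k + n) = b k n := by
    intro k n hn
    show b ((m * k + n) / m) ((m * k + n) % m) = b k n
    rw [Nat.mul_add_div (by omega), Nat.mul_add_mod, Nat.div_eq_of_lt hn, Nat.mod_eq_of_lt hn,
      Nat.add_zero]
  have hdecomp : ∀ t, ∃ k n, n < m ∧ t = m * k + n :=
    fun t => ⟨t / m, t % m, Nat.mod_lt _ (by omega), (Nat.div_add_mod t m).symm⟩
  have htraj : IsTrajectory (fracPower (bitGraph μ) m) r := by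
    intro t
    right
    obtain ⟨k, n, hn, rfl⟩ := hdecomp t
    rcases Nat.lt_or_ge (n + 1) m with h | h
    · rw [Nat.add_assoc, hr k n hn, hr k (n + 1) h]
      exact hb_adj k n h
    · have hnm : n = m - 1 := by omega
      have e1 : m * k + n + 1 = m * (k + 1) + 0 := by
        rw [Nat.mul_add]
        omega
      rw [e1, hr k n hn, hr (k + 1) 0 (by omega), hnm, hb_last k]
      exact hb_zero (k + 1)
  have hans_r : ∀ k, answers (fracPower (bitGraph μ) m) σ r (m * k) = (st k).2 := by
    intro k
    induction k with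
    | zero => rfl
    | succ k ih =>
      have := answers_block (fracPower (bitGraph μ) m) σ r (b k) (m * k) _ ih m (hr k) m (le_refl m)
      rw [Nat.mul_add, Nat.mul_one, this]
  obtain ⟨t, ht⟩ := hσ r htraj
  obtain ⟨k, n, hn, rfl⟩ := hdecomp t
  -- the alternative trajectory
  let r' : ℕ → FracVert (bitGraph μ) m := fun s =>
    if s < m * k then r s else b' k (min (s - m * k) (m - 1))
  have hr'1 : ∀ s, s < m * k → r' s = r s := fun s hs => if_pos hs
  have hr'2 : ∀ j, j < m → r' (m * k + j) = b' k j := by
    intro j hj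
    show (if m * k + j < m * k then _ else _) = _
    rw [if_neg (by omega)]
    congr 1
    omega
  have htraj' : IsTrajectory (fracPower (bitGraph μ) m) r' := by
    intro s
    rcases Nat.lt_or_ge (s + 1) (m * k) with h1 | h1
    · rw [hr'1 s (by omega), hr'1 (s + 1) h1]
      exact htraj s
    · rcases Nat.lt_or_ge s (m * k) with h2 | h2
      · -- s + 1 = m * k
        right
        have hs : s + 1 = m * k + 0 := by omega
        rw [hs, hr'2 0 (by omega), hr'1 s h2]
        have hk : 0 < k := by
          rcases Nat.eq_zero_or_pos k with h | h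
          · subst h; omega
          · exact h
        obtain ⟨k', rfl⟩ := Nat.exists_eq_succ_of_ne_zero (by omega : k ≠ 0)
        have hs' : s = m * k' + (m - 1) := by
          rw [Nat.succ_eq_add_one, Nat.mul_add] at hs
          omega
        rw [hs', hr k' (m - 1) (by omega), hb_last k']
        exact hb'_zero (k' + 1)
      · obtain ⟨j, rfl⟩ := Nat.exists_eq_add_of_le h2
        rcases Nat.lt_or_ge (j + 1) m with h3 | h3
        · right
          rw [Nat.add_assoc, hr'2 j (by omega), hr'2 (j + 1) h3]
          exact hb'_adj k j h3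
        · left
          show (if m * k + j + 1 < m * k then _ else _) = (if m * k + j < m * k then _ else _)
          rw [if_neg (by omega), if_neg (by omega)]
          congr 1
          omega
  have hbase : answers (fracPower (bitGraph μ) m) σ r' (m * k) = (st k).2 := by
    rw [← hans_r k]
    exact answers_congr _ σ r' r (m * k) hr'1
  have e1 := answers_block (fracPower (bitGraph μ) m) σ r (b k) (m * k) _ (hans_r k) m (hr k)
    (n + 1) (by omega)
  have e2 := answers_block (fracPower (bitGraph μ) m) σ r' (b' k) (m * k) _ hbase m hr'2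
    (n + 1) (by omega)
  have e3 : answers (fracPower (bitGraph μ) m) (fun l => σ ((st k).2 ++ l)) (b k) (n + 1) =
      answers (fracPower (bitGraph μ) m) (fun l => σ ((st k).2 ++ l)) (b' k) (n + 1) :=
    hans (st k).1 (τ k) (n + 1) (by omega)
  have hfin := ht r' htraj' (by
    rw [Nat.add_assoc, e1, e2, e3])
  rw [hr'2 n hn, hr k n hn] at hfin
  exact hb_ne k n hn hfin

end Pool.Agent.ProbeGame
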