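import Mathlib
import Pool.Agent.Lib_helper91.Final

set_option autoImplicit false

namespace Pool.Agent.Lib_helper91

open Finset Filter Topology ArithmeticFunction

/-- The value of the twisted limit as the sum of the (conditionally convergent) series. -/
lemma twisted_value (z : ℕ → ℝ) (b : ℝ) (hb : ∀ N, |∑ m ∈ Ioc 0 N, z m| ≤ b)
    (Φ : ℕ → ℝ) (hmono : Monotone Φ) (h0 : ∀ u, 0 ≤ Φ u) (hle : ∀ u, Φ u ≤ u) {κ : ℝ}
    (hκ : Tendsto (fun N : ℕ => Φ N / N) atTop (𝓝 κ)) {A : ℝ}
    (hA : Tendsto (fun N : ℕ => (∑ d ∈ Ioc 0 N, z d * Φ (N / d)) / N) atTop (𝓝 A)) :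
    Tendsto (fun D : ℕ => ∑ d ∈ Ioc 0 D, z d * (κ / d)) atTop (𝓝 A) := by
  have hb0 : 0 ≤ b := (abs_nonneg _).trans (hb 0)
  -- for fixed D the truncated sums converge
  have htrunc : ∀ D : ℕ, Tendsto (fun N : ℕ => (∑ d ∈ Ioc 0 D, z d * Φ (N / d)) / N) atTop
      (𝓝 (∑ d ∈ Ioc 0 D, z d * (κ / d))) := by
    intro D
    have : (fun N : ℕ => (∑ d ∈ Ioc 0 D, z d * Φ (N / d)) / (N : ℝ))
        = fun N : ℕ => ∑ d ∈ Ioc 0 D, z d * (Φ (N / d) / N) := by
      ext N
      rw [Finset.sum_div]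
      apply Finset.sum_congr rfl
      intro d _; ring
    rw [this]
    apply tendsto_finsetSum
    intro d hd
    rw [mem_Ioc] at hd
    apply Tendsto.const_mul
    have h1 : Tendsto (fun N : ℕ => N / d) atTop atTop := Nat.tendsto_div_const_atTop hd.1.ne'
    have h2 : Tendsto (fun N : ℕ => Φ (N / d) / ((N / d : ℕ) : ℝ)) atTop (𝓝 κ) := hκ.comp h1
    have hd' : (0 : ℝ) < d := by exact_mod_cast hd.1
    have h3 : Tendsto (fun N : ℕ => ((N / d : ℕ) : ℝ) / (N : ℝ)) atTop (𝓝 (1 / (d : ℝ))) := by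
      have hlow : Tendsto (fun N : ℕ => 1 / (d : ℝ) - 1 / (N : ℝ)) atTop (𝓝 (1 / (d : ℝ) - 0)) :=
        tendsto_const_nhds.sub tendsto_one_div_atTop_nhds_zero_nat
      rw [sub_zero] at hlow
      refine tendsto_of_tendsto_of_tendsto_of_le_of_le' hlow tendsto_const_nhds ?_ ?_
      · filter_upwards [eventually_ge_atTop 1] with N hN
        have hN' : (0 : ℝ) < N := by exact_mod_cast hN
        have h1 : (N : ℝ) / d - 1 ≤ ((N / d : ℕ) : ℝ) := by
          have := Nat.lt_mul_div_succ N hd.1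
          have h2 : (N : ℝ) < d * (((N / d : ℕ) : ℝ) + 1) := by exact_mod_cast this
          have : (N : ℝ) / d < ((N / d : ℕ) : ℝ) + 1 := by
            rw [div_lt_iff₀ hd']; linarith
          linarith
        calc 1 / (d : ℝ) - 1 / (N : ℝ) = ((N : ℝ) / d - 1) / N := by field_simp
          _ ≤ ((N / d : ℕ) : ℝ) / (N : ℝ) := by gcongr
      · filter_upwards [eventually_ge_atTop 1] with N hN
        have hN' : (0 : ℝ) < N := by exact_mod_cast hN
        rw [div_le_div_iff₀ hN' hd']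
        have : ((N / d : ℕ) : ℝ) * d ≤ N := by exact_mod_cast Nat.div_mul_le_self N d
        linarith
    have h4 := h2.mul h3
    have e : κ * (1 / (d : ℝ)) = κ / d := by ring
    rw [e] at h4
    refine h4.congr' ?_
    filter_upwards [eventually_ge_atTop d] with N hN
    have : (0 : ℝ) < ((N / d : ℕ) : ℝ) := by exact_mod_cast Nat.div_pos hN hd.1
    field_simp
  -- tail estimate
  have htail : ∀ D N : ℕ, D ≤ N → 1 ≤ N →
      |(∑ d ∈ Ioc 0 N, z d * Φ (N / d)) / N - (∑ d ∈ Ioc 0 D, z d * Φ (N / d)) / N|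
        ≤ 2 * b / (D + 1) := by
    intro D N hDN hN
    have hN' : (0 : ℝ) < N := by exact_mod_cast hN
    have hsplit : ∑ d ∈ Ioc 0 N, z d * Φ (N / d) - ∑ d ∈ Ioc 0 D, z d * Φ (N / d)
        = ∑ d ∈ Ioc D N, Φ (N / d) * z d := by
      rw [← Finset.sum_Ioc_consecutive (fun d => z d * Φ (N / d)) (Nat.zero_le D) hDN]
      simp only [add_sub_cancel_left]
      apply Finset.sum_congr rfl
      intro d _; ring
    rw [← sub_div, hsplit, abs_div, abs_of_pos hN', div_le_div_iff₀ hN' (by positivity)]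
    have h1 := abel_bound z (fun d => Φ (N / d)) b hb D
      (fun m hm => hmono (Nat.div_le_div_left (Nat.le_succ m) (by omega)))
      (fun m _ => h0 _) N hDN
    have h2 : Φ (N / (D + 1)) ≤ (N : ℝ) / (D + 1) := by
      calc Φ (N / (D + 1)) ≤ ((N / (D + 1) : ℕ) : ℝ) := hle _
        _ ≤ (N : ℝ) / ((D + 1 : ℕ) : ℝ) := Nat.cast_div_le
        _ = (N : ℝ) / (D + 1) := by push_cast; ring
    have hD' : (0 : ℝ) < (D : ℝ) + 1 := by positivity
    calc |∑ d ∈ Ioc D N, Φ (N / d) * z d| * (D + 1)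
        ≤ (2 * b * Φ (N / (D + 1))) * (D + 1) := by gcongr
      _ ≤ (2 * b * ((N : ℝ) / (D + 1))) * (D + 1) := by gcongr
      _ = 2 * b * N := by field_simp
  have hlim : ∀ D : ℕ, |A - ∑ d ∈ Ioc 0 D, z d * (κ / d)| ≤ 2 * b / (D + 1) := by
    intro D
    have h1 := (hA.sub (htrunc D)).abs
    refine le_of_tendsto h1 ?_
    filter_upwards [eventually_ge_atTop (max D 1)] with N hN
    exact htail D N (le_trans (le_max_left _ _) hN) (le_trans (le_max_right _ _) hN)
  rw [tendsto_iff_norm_sub_tendsto_zero]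
  have hz : Tendsto (fun D : ℕ => 2 * b / ((D : ℝ) + 1)) atTop (𝓝 0) := by
    have := tendsto_one_div_add_atTop_nhds_zero_nat (𝕜 := ℝ)
    have h2 := this.const_mul (2 * b)
    rw [mul_zero] at h2
    refine h2.congr ?_
    intro D; ring
  refine squeeze_zero (fun _ => norm_nonneg _) ?_ hz
  intro D
  rw [Real.norm_eq_abs, abs_sub_comm]
  exact hlim D

theorem principal_value {n : ℤ} (hn0 : n ≠ 0) (hn : IsSquare n) :
      Tendsto (fun N : ℕ => (∑ m ∈ Ioc 0 N, (chiA n * chi0A n) m) /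
        ((N : ℝ) * (1 + Real.log N))) atTop (𝓝 (kap n * kap n)) := by
  obtain ⟨K, hK0, hK⟩ := Phi_bound hn0
  have hκ := kap_pos hn0
  have hchi : ∀ d, (chi n d : ℝ) = chi0A n d := by
    intro d; rw [← chiA_apply, chiA_eq_chi0A hn]
  -- the logarithmic sum
  have hlog : ∀ N : ℕ, 1 ≤ N → |∑ d ∈ Ioc 0 N, chi0A n d / d - kap n * Real.log N|
      ≤ 2 * K + kap n := by
    intro N hN
    have h1 := abel_bound (fun d => chi0A n d - kap n) (fun d => 1 / (d : ℝ)) K
      (by
        intro N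
        rw [Finset.sum_sub_distrib]
        simp only [Finset.sum_const, Nat.card_Ioc, Nat.sub_zero, nsmul_eq_mul]
        exact hK N) 0
      (by
        intro m hm
        have : (0 : ℝ) < m := by exact_mod_cast hm
        push_cast
        apply one_div_le_one_div_of_le this
        linarith)
      (by intro m _; positivity) N (Nat.zero_le N)
    have h2 : ∑ d ∈ Ioc 0 N, 1 / (d : ℝ) * (chi0A n d - kap n)
        = ∑ d ∈ Ioc 0 N, chi0A n d / d - kap n * ∑ d ∈ Ioc 0 N, 1 / (d : ℝ) := by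
      rw [Finset.mul_sum, ← Finset.sum_sub_distrib]
      apply Finset.sum_congr rfl
      intro d _; ring
    rw [h2] at h1
    have hH : ∑ d ∈ Ioc 0 N, 1 / (d : ℝ) = ((harmonic N : ℚ) : ℝ) := by
      rw [harmonic_eq_sum_Icc]
      push_cast
      have : Icc 1 N = Ioc 0 N := by ext x; simp only [mem_Icc, mem_Ioc]; omega
      rw [this]
      apply Finset.sum_congr rfl
      intro d _; rw [one_div]
    have hH1 : |((harmonic N : ℚ) : ℝ) - Real.log N| ≤ 1 := by
      have a1 := harmonic_le_one_add_log N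
      have a2 := log_add_one_le_harmonic N
      have a3 : Real.log N ≤ Real.log ((N + 1 : ℕ) : ℝ) := by
        apply Real.log_le_log (by exact_mod_cast hN)
        push_cast; linarith
      rw [abs_le]; constructor <;> linarith
    rw [hH] at h1
    have h3 : ∑ d ∈ Ioc 0 N, chi0A n d / d - kap n * Real.log N
        = (∑ d ∈ Ioc 0 N, chi0A n d / d - kap n * ((harmonic N : ℚ) : ℝ))
          + kap n * (((harmonic N : ℚ) : ℝ) - Real.log N) := by ring
    rw [h3]
    calc _ ≤ |∑ d ∈ Ioc 0 N, chi0A n d / d - kap n * ((harmonic N : ℚ) : ℝ)|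
          + |kap n * (((harmonic N : ℚ) : ℝ) - Real.log N)| := abs_add_le _ _
      _ ≤ 2 * K + kap n := by
          apply add_le_add
          · simpa using h1
          · rw [abs_mul, abs_of_pos hκ]
            calc kap n * |((harmonic N : ℚ) : ℝ) - Real.log N| ≤ kap n * 1 := by gcongr
              _ = kap n := mul_one _
  -- the main estimate
  have hmain : ∀ N : ℕ, 1 ≤ N →
      |∑ m ∈ Ioc 0 N, (chiA n * chi0A n) m - kap n * kap n * (N * Real.log N)|
        ≤ (K + kap n + kap n * (2 * K + kap n)) * N := by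
    intro N hN
    have hN' : (0 : ℝ) < N := by exact_mod_cast hN
    rw [sum_chi_mul]
    have e1 : ∑ d ∈ Ioc 0 N, (chi n d : ℝ) * Phi n (N / d) - kap n * kap n * (N * Real.log N)
        = ∑ d ∈ Ioc 0 N, chi0A n d * (Phi n (N / d) - (N / d : ℝ) * kap n)
          + kap n * N * (∑ d ∈ Ioc 0 N, chi0A n d / d - kap n * Real.log N) := by
      rw [mul_sub, Finset.mul_sum]
      have : ∑ d ∈ Ioc 0 N, (chi n d : ℝ) * Phi n (N / d)
          = ∑ d ∈ Ioc 0 N, chi0A n d * (Phi n (N / d) - (N / d : ℝ) * kap n)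
            + ∑ d ∈ Ioc 0 N, kap n * N * (chi0A n d / d) := by
        rw [← Finset.sum_add_distrib]
        apply Finset.sum_congr rfl
        intro d _
        rw [hchi]; ring
      rw [this]; ring
    rw [e1]
    have e2 : |∑ d ∈ Ioc 0 N, chi0A n d * (Phi n (N / d) - (N / d : ℝ) * kap n)|
        ≤ (K + kap n) * N := by
      calc _ ≤ ∑ d ∈ Ioc 0 N, |chi0A n d * (Phi n (N / d) - (N / d : ℝ) * kap n)| :=
            Finset.abs_sum_le_sum_abs _ _
        _ ≤ ∑ d ∈ Ioc 0 N, (K + kap n) := by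
            apply Finset.sum_le_sum
            intro d hd
            rw [mem_Ioc] at hd
            have hd' : (0 : ℝ) < d := by exact_mod_cast hd.1
            rw [abs_mul, abs_of_nonneg (chi0A_nonneg n d)]
            have c1 : |Phi n (N / d) - (N / d : ℝ) * kap n| ≤ K + kap n := by
              have c2 := hK (N / d)
              have c3 : |((N / d : ℕ) : ℝ) * kap n - (N / d : ℝ) * kap n| ≤ kap n := by
                rw [← sub_mul, abs_mul, abs_of_pos hκ]
                have c4 : |((N / d : ℕ) : ℝ) - (N / d : ℝ)| ≤ 1 := by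
                  have c5 : ((N / d : ℕ) : ℝ) ≤ (N / d : ℝ) := Nat.cast_div_le
                  have c6 : (N / d : ℝ) ≤ ((N / d : ℕ) : ℝ) + 1 := by
                    have := Nat.lt_mul_div_succ N hd.1
                    have h2 : (N : ℝ) < d * (((N / d : ℕ) : ℝ) + 1) := by exact_mod_cast this
                    rw [div_le_iff₀ hd']; linarith
                  rw [abs_le]; constructor <;> linarith
                calc _ ≤ 1 * kap n := by gcongr
                  _ = kap n := one_mul _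
              calc _ ≤ |Phi n (N / d) - ((N / d : ℕ) : ℝ) * kap n|
                    + |((N / d : ℕ) : ℝ) * kap n - (N / d : ℝ) * kap n| := abs_sub_le _ _ _
                _ ≤ K + kap n := add_le_add c2 c3
            calc _ ≤ 1 * (K + kap n) :=
                  mul_le_mul (chi0A_le_one n d) c1 (abs_nonneg _) zero_le_one
              _ = K + kap n := one_mul _
        _ = (K + kap n) * N := by simp; ring
    calc _ ≤ |∑ d ∈ Ioc 0 N, chi0A n d * (Phi n (N / d) - (N / d : ℝ) * kap n)|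
          + |kap n * N * (∑ d ∈ Ioc 0 N, chi0A n d / d - kap n * Real.log N)| := abs_add_le _ _
      _ ≤ (K + kap n) * N + kap n * N * (2 * K + kap n) := by
          apply add_le_add e2
          rw [abs_mul, abs_of_pos (by positivity)]
          gcongr
          exact hlog N hN
      _ = _ := by ring
  rw [tendsto_iff_dist_tendsto_zero]
  have hlogtop : Tendsto (fun N : ℕ => 1 + Real.log (N : ℝ)) atTop atTop :=
    tendsto_atTop_add_const_left _ _ (Real.tendsto_log_atTop.comp tendsto_natCast_atTop_atTop)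
  have h1 : Tendsto (fun N : ℕ => ((K + kap n + kap n * (2 * K + kap n)) + kap n * kap n)
      / (1 + Real.log (N : ℝ))) atTop (𝓝 0) := hlogtop.const_div_atTop _
  refine squeeze_zero' (Eventually.of_forall fun _ => dist_nonneg) ?_ h1
  filter_upwards [eventually_ge_atTop 1] with N hN
  have hN' : (0 : ℝ) < N := by exact_mod_cast hN
  have hlogN : 0 ≤ Real.log N := Real.log_natCast_nonneg N
  rw [Real.dist_eq]
  have e : (∑ m ∈ Ioc 0 N, (chiA n * chi0A n) m) / ((N : ℝ) * (1 + Real.log N)) - kap n * kap n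
      = ((∑ m ∈ Ioc 0 N, (chiA n * chi0A n) m - kap n * kap n * (N * Real.log N))
          - kap n * kap n * N) / ((N : ℝ) * (1 + Real.log N)) := by
    field_simp
    ring
  rw [e, abs_div, abs_of_pos (by positivity : 0 < (N : ℝ) * (1 + Real.log N)),
    div_le_div_iff₀ (by positivity) (by positivity)]
  have h2 := hmain N hN
  have h3 : |(∑ m ∈ Ioc 0 N, (chiA n * chi0A n) m - kap n * kap n * (N * Real.log N))
          - kap n * kap n * N| ≤ ((K + kap n + kap n * (2 * K + kap n)) + kap n * kap n) * N := by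
    calc _ ≤ |∑ m ∈ Ioc 0 N, (chiA n * chi0A n) m - kap n * kap n * (N * Real.log N)|
          + |kap n * kap n * N| := abs_sub _ _
      _ ≤ (K + kap n + kap n * (2 * K + kap n)) * N + kap n * kap n * N := by
          apply add_le_add h2
          rw [abs_of_pos (by positivity)]
      _ = _ := by ring
  calc _ ≤ (((K + kap n + kap n * (2 * K + kap n)) + kap n * kap n) * N) * (1 + Real.log N) := by
        gcongr
    _ = _ := by ring


/-- `L(1, χ)` as a conditionally convergent series, and the mean value of `χ * χ₀`. -/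
theorem nonprincipal_value {n : ℤ} (hn0 : n ≠ 0) (hn : ¬ IsSquare n) :
    ∃ L : ℝ, L ≠ 0 ∧ Tendsto (fun M : ℕ => ∑ m ∈ Ioc 0 M, (chi n m : ℝ) / m) atTop (𝓝 L) ∧
      Tendsto (fun N : ℕ => (∑ m ∈ Ioc 0 N, (chiA n * chi0A n) m) / (N : ℝ)) atTop
        (𝓝 (kap n * L)) := by
  obtain ⟨A, hA0, hA⟩ := nonprincipal_limit hn0 hn
  obtain ⟨b, hb⟩ := chi_bound hn0 hn
  have hA' := hA
  simp_rw [sum_chi_mul] at hA'
  have h1 := twisted_value (fun m => (chi n m : ℝ)) b hb (Phi n) (Phi_mono n)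
    (Phi_nonneg n) (Phi_le n) (Phi_tendsto hn0) hA'
  have hκ := kap_pos hn0
  refine ⟨A / kap n, div_ne_zero hA0 hκ.ne', ?_, ?_⟩
  · refine (h1.div_const (kap n)).congr ?_
    intro D
    rw [Finset.sum_div]
    apply Finset.sum_congr rfl
    intro d _
    field_simp
  · rw [mul_div_cancel₀ _ hκ.ne']
    exact hA

/-- The transfer with the value of the limit. -/
theorem rho_sum_value {w : ℕ → ℝ} (hw : GoodWeight w) {n : ℤ} (hn : n ≠ 0) {A : ℝ} (hA0 : A ≠ 0)
    (h : Tendsto (fun N : ℕ => (∑ m ∈ Ioc 0 N, (chiA n * chi0A n) m) / w N) atTop (𝓝 A)) :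
    0 < (∑' k : ℕ, rhoBadA n k / (k : ℝ)) * ((∑' k : ℕ, hA n k / (k : ℝ)) * A) ∧
    Tendsto (fun N : ℕ => (∑ m ∈ Ioc 0 N, (rho n m : ℝ)) / w N) atTop
      (𝓝 ((∑' k : ℕ, rhoBadA n k / (k : ℝ)) * ((∑' k : ℕ, hA n k / (k : ℝ)) * A))) := by
  have h1 := tannery_conv hw (hA n) (chiA n * chi0A n) (hA_summable n) h
  rw [← GA_eq hn, tsum_mul_right] at h1
  have h2 := tannery_conv hw (rhoBadA n) (GA n) (rhoBadA_summable hn) h1
  rw [← rhoA_eq hn, tsum_mul_right] at h2
  refine ⟨?_, h2⟩
  have hne : (∑' k : ℕ, rhoBadA n k / (k : ℝ)) * ((∑' k : ℕ, hA n k / (k : ℝ)) * A) ≠ 0 :=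
    mul_ne_zero (rhoBadA_tsum_pos hn).ne' (mul_ne_zero (hA_tsum_pos n).ne' hA0)
  refine lt_of_le_of_ne ?_ (Ne.symm hne)
  apply ge_of_tendsto' h2
  intro N
  apply div_nonneg
  · exact Finset.sum_nonneg fun m _ => by rw [rhoA_apply]; positivity
  · rcases Nat.eq_zero_or_pos N with h0 | h0
    · subst h0; rw [hw.zero]
    · exact (hw.pos N h0).le

end Pool.Agent.Lib_helper91
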