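import Mathlib
import Pool.Agent.Lib_helper68.DTConst

set_option autoImplicit false

namespace Pool.Agent.Lib_helper91

open Finset Filter Topology ArithmeticFunction

lemma kap_eq {n : ℤ} (hn : n ≠ 0) :
    kap n = ∏ p ∈ (2 * n.natAbs).primeFactors, (1 - (p : ℝ)⁻¹) := by
  set M := 2 * n.natAbs with hM
  have hM0 : 0 < M := by
    have := Int.natAbs_pos.mpr hn; omega
  have h4 : 4 * n.natAbs = M + M := by omega
  have h1 : ∑ m ∈ range M, chi0A n m = (M.totient : ℝ) := by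
    rw [Nat.totient_eq_card_coprime, Finset.card_filter]
    push_cast
    apply Finset.sum_congr rfl
    intro m _
    rw [chi0A_apply, ← hM]
    simp only [Nat.coprime_comm]
  have h2 : ∑ m ∈ range M, chi0A n (M + m) = (M.totient : ℝ) := by
    rw [← h1]
    apply Finset.sum_congr rfl
    intro m _
    rw [chi0A_apply, chi0A_apply, ← hM]
    simp
  have h3 : ∑ m ∈ range (4 * n.natAbs), chi0A n m = (M.totient : ℝ) + M.totient := by
    rw [h4, Finset.sum_range_add, h1, h2]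
  have h5 : (M.totient : ℝ) = (M : ℝ) * ∏ p ∈ M.primeFactors, (1 - (p : ℝ)⁻¹) := by
    have h := Nat.totient_eq_mul_prod_factors M
    have h' := congrArg (fun q : ℚ => (q : ℝ)) h
    push_cast at h'
    exact h'
  have hMr : (0 : ℝ) < M := by exact_mod_cast hM0
  rw [kap, h3, h4, h5]
  push_cast
  field_simp

/-- `j ↦ 1/j²` as a homomorphism -/
noncomputable def invSqHom : ℕ →*₀ ℝ where
  toFun := fun j => ((j : ℝ) ^ 2)⁻¹
  map_zero' := by simp
  map_one' := by simp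
  map_mul' := fun a b => by push_cast; rw [mul_pow, mul_inv]

lemma hasProd_inv_zeta_two :
    HasProd (fun p : Nat.Primes => 1 - (((p : ℕ) : ℝ) ^ 2)⁻¹) (6 / Real.pi ^ 2) := by
  have hs : HasSum (fun j : ℕ => ((j : ℝ) ^ 2)⁻¹) (Real.pi ^ 2 / 6) := by
    have := hasSum_zeta_two
    simpa only [one_div] using this
  have h := EulerProduct.eulerProduct_completely_multiplicative_hasProd (f := invSqHom) (by
    refine hs.summable.congr ?_
    intro j
    change _ = ‖((j : ℝ) ^ 2)⁻¹‖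
    rw [Real.norm_of_nonneg (by positivity)])
  have h2 : ∑' j : ℕ, invSqHom j = Real.pi ^ 2 / 6 := hs.tsum_eq
  rw [h2] at h
  have h3 := h.inv₀ (by positivity)
  have e : (Real.pi ^ 2 / 6)⁻¹ = 6 / Real.pi ^ 2 := by rw [inv_div]
  rw [e] at h3
  have e2 : (fun p : Nat.Primes => ((1 - invSqHom (p : ℕ))⁻¹)⁻¹)
      = fun p : Nat.Primes => 1 - (((p : ℕ) : ℝ) ^ 2)⁻¹ := by
    funext p
    rw [inv_inv]
    rfl
  rw [e2] at h3
  exact h3

/-- the Moebius function restricted to integers coprime to `2n`, over squares -/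
lemma hA_tsum_eq_sq (n : ℤ) : ∑' k : ℕ, hA n k / (k : ℝ)
    = ∑' j : ℕ, ((moebius j : ℤ) : ℝ) * chi0A n j / ((j : ℝ) ^ 2) := by
  have h0 : ∀ x : ℕ, x ∉ Set.range (fun j : ℕ => j * j) → hA n x / (x : ℝ) = 0 := by
    intro x hx
    rw [hA_support n x hx, zero_div]
  have h1 : ∑' j : ℕ, hA n (j * j) / ((j * j : ℕ) : ℝ) = ∑' k : ℕ, hA n k / (k : ℝ) := by
    apply mul_self_injective.tsum_eq (f := fun k : ℕ => hA n k / (k : ℝ))
    intro x hx
    by_contra hne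
    exact hx (h0 x hne)
  rw [← h1]
  apply tsum_congr
  intro j
  rw [hA_sq]
  congr 1
  push_cast; ring

lemma moebius_sq_summable (n : ℤ) :
    Summable (fun j : ℕ => ‖((moebius j : ℤ) : ℝ) * chi0A n j / ((j : ℝ) ^ 2)‖) := by
  have hs := hasSum_zeta_two.summable
  refine Summable.of_nonneg_of_le (fun _ => norm_nonneg _) (fun j => ?_) hs
  rw [norm_div, norm_mul, Real.norm_of_nonneg (by positivity : (0 : ℝ) ≤ (j : ℝ) ^ 2)]
  apply div_le_div_of_nonneg_right _ (by positivity)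
  have h1 : ‖((moebius j : ℤ) : ℝ)‖ ≤ 1 := by
    rw [Real.norm_eq_abs, ← Int.cast_abs]
    exact_mod_cast abs_moebius_le_one
  have h2 : ‖chi0A n j‖ ≤ 1 := by
    rw [Real.norm_of_nonneg (chi0A_nonneg n j)]; exact chi0A_le_one n j
  calc ‖((moebius j : ℤ) : ℝ)‖ * ‖chi0A n j‖ ≤ 1 * 1 := by gcongr
    _ = 1 := one_mul 1

theorem hA_tsum_value {n : ℤ} (hn : n ≠ 0) : ∑' k : ℕ, hA n k / (k : ℝ)
    = 6 / Real.pi ^ 2 * ∏ p ∈ (2 * n.natAbs).primeFactors, (1 - ((p : ℝ) ^ 2)⁻¹)⁻¹ := by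
  classical
  set M := 2 * n.natAbs with hM
  have hM0 : M ≠ 0 := by
    have := Int.natAbs_pos.mpr hn; omega
  rw [hA_tsum_eq_sq]
  have hE := EulerProduct.eulerProduct_hasProd
    (f := fun j : ℕ => ((moebius j : ℤ) : ℝ) * chi0A n j / ((j : ℝ) ^ 2))
    (by simp [(chi0A_mult n).map_one])
    (by
      intro a b hab
      rw [isMultiplicative_moebius.map_mul_of_coprime hab, (chi0A_mult n).map_mul_of_coprime hab]
      push_cast
      by_cases ha : (a : ℝ) = 0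
      · simp [ha]
      by_cases hb : (b : ℝ) = 0
      · simp [hb]
      field_simp) (moebius_sq_summable n) (by simp)
  have hloc : ∀ p : Nat.Primes,
      ∑' e : ℕ, ((moebius ((p : ℕ) ^ e) : ℤ) : ℝ) * chi0A n ((p : ℕ) ^ e)
        / ((((p : ℕ) ^ e : ℕ) : ℝ) ^ 2)
      = (1 - (((p : ℕ) : ℝ) ^ 2)⁻¹) * (if (p : ℕ) ∣ M then (1 - (((p : ℕ) : ℝ) ^ 2)⁻¹)⁻¹ else 1) := by
    intro p
    have hp := p.2
    have hp2 : (2 : ℝ) ≤ ((p : ℕ) : ℝ) := by exact_mod_cast hp.two_le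
    rw [tsum_eq_sum (s := range 2)]
    · rw [Finset.sum_range_succ, Finset.sum_range_one]
      rw [pow_zero, pow_one, moebius_apply_prime hp, (chi0A_mult n).map_one, moebius_apply_one]
      rw [chi0A_apply, ← hM]
      have hc : (p : ℕ).Coprime M ↔ ¬ (p : ℕ) ∣ M := hp.coprime_iff_not_dvd
      by_cases h : (p : ℕ) ∣ M
      · rw [if_neg (fun h' => hc.mp h' h), if_pos h]
        have : (1 : ℝ) - (((p : ℕ) : ℝ) ^ 2)⁻¹ ≠ 0 := by
          have : (((p : ℕ) : ℝ) ^ 2)⁻¹ < 1 := by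
            apply inv_lt_one_of_one_lt₀; nlinarith
          linarith
        rw [mul_inv_cancel₀ this]
        simp
      · rw [if_pos (hc.mpr h), if_neg h]
        push_cast
        ring
    · intro e he
      rw [Finset.mem_range, not_lt] at he
      rw [moebius_apply_prime_pow hp (by omega), if_neg (by omega)]
      simp
  have hfin : HasProd (fun p : Nat.Primes =>
      (if (p : ℕ) ∣ M then (1 - (((p : ℕ) : ℝ) ^ 2)⁻¹)⁻¹ else 1))
      (∏ p ∈ M.primeFactors, (1 - ((p : ℝ) ^ 2)⁻¹)⁻¹) := by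
    have h1 := hasProd_prod_of_ne_finset_one (L := SummationFilter.unconditional Nat.Primes)
      (f := fun p : Nat.Primes => (if (p : ℕ) ∣ M then (1 - (((p : ℕ) : ℝ) ^ 2)⁻¹)⁻¹ else (1 : ℝ)))
      (s := M.primeFactors.subtype Nat.Prime) (by
        intro p hp
        rw [if_neg]
        intro hd
        apply hp
        have h9 : (p : ℕ) ∈ M.primeFactors := Nat.mem_primeFactors.mpr ⟨p.2, hd, hM0⟩
        exact Finset.mem_subtype.mpr h9)
    have h2 := Finset.prod_subtype_eq_prod_filter (s := M.primeFactors) (p := Nat.Prime)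
      (fun p : ℕ => (if p ∣ M then (1 - ((p : ℝ) ^ 2)⁻¹)⁻¹ else (1 : ℝ)))
    rw [Finset.filter_true_of_mem (fun p hp => Nat.prime_of_mem_primeFactors hp)] at h2
    have h3 : ∏ p ∈ M.primeFactors, (if p ∣ M then (1 - ((p : ℝ) ^ 2)⁻¹)⁻¹ else (1 : ℝ))
        = ∏ p ∈ M.primeFactors, (1 - ((p : ℝ) ^ 2)⁻¹)⁻¹ := by
      apply Finset.prod_congr rfl
      intro p hp
      rw [if_pos (Nat.dvd_of_mem_primeFactors hp)]
    rw [← h3, ← h2]
    exact h1
  have hprod := hasProd_inv_zeta_two.mul hfin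
  have hE' : HasProd (fun p : Nat.Primes =>
      (1 - (((p : ℕ) : ℝ) ^ 2)⁻¹) * (if (p : ℕ) ∣ M then (1 - (((p : ℕ) : ℝ) ^ 2)⁻¹)⁻¹ else 1))
      (∑' j : ℕ, ((moebius j : ℤ) : ℝ) * chi0A n j / ((j : ℝ) ^ 2)) := by
    have hfun : (fun p : Nat.Primes => ∑' e : ℕ, ((moebius ((p : ℕ) ^ e) : ℤ) : ℝ)
        * chi0A n ((p : ℕ) ^ e) / ((((p : ℕ) ^ e : ℕ) : ℝ) ^ 2))
        = fun p : Nat.Primes => (1 - (((p : ℕ) : ℝ) ^ 2)⁻¹)
          * (if (p : ℕ) ∣ M then (1 - (((p : ℕ) : ℝ) ^ 2)⁻¹)⁻¹ else 1) := funext hloc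
    rw [← hfun]
    exact hE
  exact hE'.unique hprod

lemma rho_div_bound {n : ℤ} (hn : n ≠ 0) : ∃ K : ℝ, 0 ≤ K ∧ ∀ k : ℕ, k ≠ 0 →
    (rho n k : ℝ) / k ≤ K * (k : ℝ) ^ (-(1 : ℝ) / 2) := by
  obtain ⟨C, hC1, hC⟩ := exists_divisor_bound 2 (by norm_num)
  refine ⟨2 * n.natAbs * C, by positivity, fun k hk0 => ?_⟩
  have hkpos : (0 : ℝ) < k := by exact_mod_cast Nat.pos_of_ne_zero hk0
  have h1 : (rho n k : ℝ) ≤ 2 * n.natAbs * (C * (k : ℝ) ^ ((1 : ℝ) / (2 : ℕ))) := by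
    calc (rho n k : ℝ) ≤ ((2 * n.natAbs * k.divisors.card : ℕ) : ℝ) := by
          exact_mod_cast rho_le n hn k hk0
      _ = 2 * n.natAbs * (k.divisors.card : ℝ) := by push_cast; ring
      _ ≤ _ := by
          apply mul_le_mul_of_nonneg_left (hC k hk0) (by positivity)
  rw [div_le_iff₀ hkpos]
  calc (rho n k : ℝ) ≤ 2 * n.natAbs * (C * (k : ℝ) ^ ((1 : ℝ) / (2 : ℕ))) := h1
    _ = 2 * n.natAbs * C * ((k : ℝ) ^ (-(1 : ℝ) / 2) * k) := by
        have : (k : ℝ) ^ (-(1 : ℝ) / 2) * k = (k : ℝ) ^ ((1 : ℝ) / (2 : ℕ)) := by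
          nth_rewrite 2 [← Real.rpow_one (k : ℝ)]
          rw [← Real.rpow_add hkpos]
          congr 1
          norm_num
        rw [this]; ring
    _ = _ := by ring

/-- The local series converge. -/
theorem loc_summable {n : ℤ} (hn : n ≠ 0) {p : ℕ} (hp : p.Prime) :
    Summable (fun e : ℕ => (rho n (p ^ e) : ℝ) / ((p : ℝ) ^ e)) := by
  obtain ⟨K, hK0, hK⟩ := rho_div_bound hn
  have hp2 : (2 : ℝ) ≤ p := by exact_mod_cast hp.two_le
  set r : ℝ := (p : ℝ) ^ (-(1 : ℝ) / 2) with hr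
  have hr0 : 0 ≤ r := by positivity
  have hr1 : r < 1 := Real.rpow_lt_one_of_one_lt_of_neg (by linarith) (by norm_num)
  refine Summable.of_nonneg_of_le (fun e => by positivity) (fun e => ?_)
    ((summable_geometric_of_lt_one hr0 hr1).mul_left K)
  have h1 := hK (p ^ e) (pow_pos hp.pos e).ne'
  push_cast at h1
  refine h1.trans (le_of_eq ?_)
  congr 1
  rw [hr, ← Real.rpow_natCast, ← Real.rpow_natCast, ← Real.rpow_mul (by positivity),
    ← Real.rpow_mul (by positivity)]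
  congr 1; ring

theorem rhoBadA_tsum_value {n : ℤ} (hn : n ≠ 0) : ∑' k : ℕ, rhoBadA n k / (k : ℝ)
    = ∏ p ∈ (2 * n.natAbs).primeFactors, ∑' e : ℕ, (rho n (p ^ e) : ℝ) / ((p : ℝ) ^ e) := by
  classical
  have h := (EulerProduct.summable_and_hasSum_factoredNumbers_prod_filter_prime_tsum
    (f := fun k : ℕ => (rho n k : ℝ) / (k : ℝ)) (by simp [rho_one])
    (by
      intro a b hab
      rw [rho_mul n hab]
      push_cast
      by_cases ha : (a : ℝ) = 0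
      · simp [ha]
      by_cases hb : (b : ℝ) = 0
      · simp [hb]
      field_simp)
    (by
      intro p hp
      refine (loc_summable hn hp).congr ?_
      intro e
      rw [Real.norm_of_nonneg (by positivity)]
      push_cast
      rfl) (2 * n.natAbs).primeFactors).2
  rw [Finset.filter_true_of_mem (fun p hp => Nat.prime_of_mem_primeFactors hp)] at h
  have h1 := h.tsum_eq
  have h2 : ∏ p ∈ (2 * n.natAbs).primeFactors, ∑' e : ℕ, (rho n (p ^ e) : ℝ) / ((p : ℝ) ^ e)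
      = ∏ p ∈ (2 * n.natAbs).primeFactors, ∑' e : ℕ, (rho n (p ^ e) : ℝ) / ((p ^ e : ℕ) : ℝ) := by
    apply Finset.prod_congr rfl
    intro p _
    apply tsum_congr
    intro e
    push_cast
    rfl
  rw [h2, ← h1, tsum_subtype (Nat.factoredNumbers (2 * n.natAbs).primeFactors)
    (fun k : ℕ => (rho n k : ℝ) / (k : ℝ))]
  apply tsum_congr
  intro k
  rw [rhoBadA_apply, Set.indicator_apply]
  split_ifs <;> simp

/-- The product of the correction factors, `n` not a square. -/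
lemma factor_nonsquare {n : ℤ} (hn : n ≠ 0) (L : ℝ) :
    (∑' k : ℕ, rhoBadA n k / (k : ℝ)) * ((∑' k : ℕ, hA n k / (k : ℝ)) * (kap n * L)) / 2
    = 3 / Real.pi ^ 2 * L * ∏ p ∈ (2 * n.natAbs).primeFactors,
      ((p : ℝ) / (p + 1) * ∑' e : ℕ, (rho n (p ^ e) : ℝ) / ((p : ℝ) ^ e)) := by
  rw [rhoBadA_tsum_value hn, hA_tsum_value hn, kap_eq hn]
  have h1 : ∏ p ∈ (2 * n.natAbs).primeFactors,
      ((p : ℝ) / (p + 1) * ∑' e : ℕ, (rho n (p ^ e) : ℝ) / ((p : ℝ) ^ e))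
      = (∏ p ∈ (2 * n.natAbs).primeFactors, ∑' e : ℕ, (rho n (p ^ e) : ℝ) / ((p : ℝ) ^ e))
        * ((∏ p ∈ (2 * n.natAbs).primeFactors, (1 - ((p : ℝ) ^ 2)⁻¹)⁻¹)
          * ∏ p ∈ (2 * n.natAbs).primeFactors, (1 - (p : ℝ)⁻¹)) := by
    rw [← Finset.prod_mul_distrib, ← Finset.prod_mul_distrib]
    apply Finset.prod_congr rfl
    intro p hp
    have hp2 : (2 : ℝ) ≤ p := by exact_mod_cast (Nat.prime_of_mem_primeFactors hp).two_le
    rw [mul_comm]
    congr 1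
    have h3 : (1 : ℝ) - ((p : ℝ) ^ 2)⁻¹ = (1 - (p : ℝ)⁻¹) * (1 + (p : ℝ)⁻¹) := by
      rw [← inv_pow]; ring
    have h4 : (1 : ℝ) - (p : ℝ)⁻¹ ≠ 0 := by
      have : (p : ℝ)⁻¹ < 1 := by apply inv_lt_one_of_one_lt₀; linarith
      linarith
    have h5 : (1 : ℝ) + (p : ℝ)⁻¹ ≠ 0 := by positivity
    rw [h3, mul_inv, mul_comm (1 - (p : ℝ)⁻¹)⁻¹, mul_assoc, inv_mul_cancel₀ h4, mul_one]
    field_simp
  rw [h1]
  ring

lemma factor_square {n : ℤ} (hn : n ≠ 0) :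
    (∑' k : ℕ, rhoBadA n k / (k : ℝ)) * ((∑' k : ℕ, hA n k / (k : ℝ)) * (kap n * kap n)) / 2
    = 3 / Real.pi ^ 2 * ∏ p ∈ (2 * n.natAbs).primeFactors,
      (((p : ℝ) - 1) / (p + 1) * ∑' e : ℕ, (rho n (p ^ e) : ℝ) / ((p : ℝ) ^ e)) := by
  rw [factor_nonsquare hn, kap_eq hn, mul_assoc, ← Finset.prod_mul_distrib]
  congr 1
  apply Finset.prod_congr rfl
  intro p hp
  have hp2 : (2 : ℝ) ≤ p := by exact_mod_cast (Nat.prime_of_mem_primeFactors hp).two_le
  rw [← mul_assoc]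
  congr 1
  field_simp

end Pool.Agent.Lib_helper91
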