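import Mathlib

/-!
The domatic number game on a simple graph `H` with palette `Fin k`.
-/

namespace Pool.Agent.DomaticGame

universe u

/-- `D` is a dominating set of `H`: every vertex lies in `D` or has a neighbour in `D`. -/
def Dominating {V : Type u} (H : SimpleGraph V) (D : Set V) : Prop :=
  ∀ x : V, x ∈ D ∨ ∃ y ∈ D, H.Adj x y

/-- A position of the game with palette `Fin k`: each vertex is uncoloured (`none`) or has a
colour `c` (`some c`). -/
abbrev Position (V : Type u) (k : ℕ) : Type u := V → Option (Fin k)

/-- The position reached from `f` by giving the vertex `v` the colour `c`. -/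
noncomputable def colour {V : Type u} {k : ℕ} (f : Position V k) (v : V) (c : Fin k) :
    Position V k :=
  open scoped Classical in Function.update f v (some c)

/-- Who is to move. -/
inductive Player
  | alice
  | bob

/-- `AliceWinsFrom H k p f`: in the domatic number game on `H` with palette `Fin k`, Alice has a
winning strategy from the position `f` when it is the turn of player `p`.
* If every vertex is coloured, the game is over, and Alice wins when every colour class
  dominates `H`.
* If Alice is to move, she needs one move (an uncoloured vertex and a colour) to a position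
  from which she wins with Bob to move.
* If Bob is to move and some vertex is uncoloured, every move of Bob must lead to a position
  from which Alice wins with Alice to move. -/
inductive AliceWinsFrom {V : Type u} (H : SimpleGraph V) (k : ℕ) : Player → Position V k → Prop
  | gameOver (p : Player) (f : Position V k) (hfull : ∀ v, f v ≠ none)
      (hdom : ∀ c : Fin k, Dominating H {v | f v = some c}) : AliceWinsFrom H k p f
  | aliceMove (f : Position V k) (v : V) (hv : f v = none) (c : Fin k)
      (h : AliceWinsFrom H k Player.bob (colour f v c)) : AliceWinsFrom H k Player.alice f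
  | bobMove (f : Position V k) (hne : ∃ v, f v = none)
      (h : ∀ v, f v = none → ∀ c : Fin k, AliceWinsFrom H k Player.alice (colour f v c)) :
      AliceWinsFrom H k Player.bob f

/-- Alice has a winning strategy in the A-game (Alice moves first) on `H` with palette `Fin k`. -/
def AliceWinsAGame {V : Type u} (H : SimpleGraph V) (k : ℕ) : Prop :=
  AliceWinsFrom H k Player.alice (fun _ => none)

/-- Alice has a winning strategy in the B-game (Bob moves first) on `H` with palette `Fin k`. -/
def AliceWinsBGame {V : Type u} (H : SimpleGraph V) (k : ℕ) : Prop :=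
  AliceWinsFrom H k Player.bob (fun _ => none)

/-- The colour merge: `Fin (k+1) → Fin k` (with `1 ≤ k`) fixing every colour `< k`, sending the last
colour to colour `0`. -/
def merge {k : ℕ} (hk : 1 ≤ k) (c : Fin (k + 1)) : Fin k :=
  if h : (c : ℕ) < k then ⟨c, h⟩ else ⟨0, hk⟩

theorem merge_castSucc {k : ℕ} (hk : 1 ≤ k) (c : Fin k) : merge hk c.castSucc = c := by
  unfold merge
  simp

theorem Dominating.mono {V : Type u} {H : SimpleGraph V} {D E : Set V} (h : Dominating H D)
    (hDE : D ⊆ E) : Dominating H E := by
  intro x
  rcases h x with hx | ⟨y, hy, hxy⟩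
  · exact Or.inl (hDE hx)
  · exact Or.inr ⟨y, hDE hy, hxy⟩

/-- Simulation: if Alice wins with palette `k+1` from `f`, she wins with palette `k` from the
merged position. -/
theorem simulate {V : Type u} {H : SimpleGraph V} {k : ℕ} (hk : 1 ≤ k) {p : Player}
    {f : Position V (k + 1)} (h : AliceWinsFrom H (k + 1) p f) :
    AliceWinsFrom H k p (fun v => (f v).map (merge hk)) := by
  classical
  induction h with
  | gameOver p f hfull hdom =>
    refine AliceWinsFrom.gameOver p _ ?_ ?_
    · intro v hv
      exact hfull v (by simpa using hv)
    · intro c
      refine (hdom c.castSucc).mono ?_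
      intro v hv
      have hv' : f v = some c.castSucc := hv
      show (f v).map (merge hk) = some c
      rw [hv']
      simp [merge_castSucc]
  | aliceMove f v hv c h ih =>
    refine AliceWinsFrom.aliceMove _ v (by simp [hv]) (merge hk c) ?_
    have : colour (fun w => (f w).map (merge hk)) v (merge hk c)
        = fun w => (colour f v c w).map (merge hk) := by
      funext w
      unfold colour
      by_cases hw : w = v
      · subst hw; simp
      · simp [Function.update_of_ne hw]
    rw [this]
    exact ih
  | bobMove f hne h ih =>
    obtain ⟨v₀, hv₀⟩ := hne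
    refine AliceWinsFrom.bobMove _ ⟨v₀, by simp [hv₀]⟩ ?_
    intro v hv c
    have hv' : f v = none := by simpa using hv
    have := ih v hv' c.castSucc
    have e : colour (fun w => (f w).map (merge hk)) v c
        = fun w => (colour f v c.castSucc w).map (merge hk) := by
      funext w
      unfold colour
      by_cases hw : w = v
      · subst hw; simp [merge_castSucc]
      · simp [Function.update_of_ne hw]
    rw [e]
    exact this

theorem aGame_succ {V : Type u} {H : SimpleGraph V} {k : ℕ} (hk : 1 ≤ k)
    (h : AliceWinsAGame H (k + 1)) : AliceWinsAGame H k := by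
  have := simulate hk h
  simpa [AliceWinsAGame] using this

theorem bGame_succ {V : Type u} {H : SimpleGraph V} {k : ℕ} (hk : 1 ≤ k)
    (h : AliceWinsBGame H (k + 1)) : AliceWinsBGame H k := by
  have := simulate hk h
  simpa [AliceWinsBGame] using this

/-- From a winning position some play ends in a position in which every colour class dominates. -/
theorem exists_final {V : Type u} {H : SimpleGraph V} {k : ℕ} (hk : 1 ≤ k) {p : Player}
    {f : Position V k} (h : AliceWinsFrom H k p f) :
    ∃ g : Position V k, ∀ c : Fin k, Dominating H {v | g v = some c} := by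
  induction h with
  | gameOver p f hfull hdom => exact ⟨f, hdom⟩
  | aliceMove f v hv c h ih => exact ih
  | bobMove f hne h ih =>
    obtain ⟨v₀, hv₀⟩ := hne
    exact ih v₀ hv₀ ⟨0, hk⟩

theorem le_card {V : Type u} [Fintype V] [Nonempty V] {H : SimpleGraph V} {k : ℕ}
    {p : Player} {f : Position V k} (h : AliceWinsFrom H k p f) : k ≤ Fintype.card V := by
  classical
  rcases Nat.eq_zero_or_pos k with rfl | hk
  · exact Nat.zero_le _
  obtain ⟨g, hg⟩ := exists_final hk h
  have hne : ∀ c : Fin k, ∃ v, g v = some c := by
    intro c
    rcases hg c (Classical.arbitrary V) with hx | ⟨y, hy, -⟩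
    · exact ⟨_, hx⟩
    · exact ⟨y, hy⟩
  choose w hw using hne
  have hinj : Function.Injective w := by
    intro a b hab
    have := hw a
    rw [hab, hw b] at this
    exact (Option.some.inj this).symm
  simpa using Fintype.card_le_of_injective w hinj

/-- Alice wins every game with a one-colour palette. -/
theorem wins_one {V : Type u} [Fintype V] (H : SimpleGraph V) (n : ℕ) :
    ∀ (p : Player) (f : Position V 1),
      (open scoped Classical in (Finset.univ.filter fun v => f v = none).card = n) →
      AliceWinsFrom H 1 p f := by
  classical
  induction n with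
  | zero =>
    intro p f hf
    have hf' : ∀ v, f v ≠ none := by
      intro v hv
      have hmem : v ∈ Finset.univ.filter fun v => f v = none := by simp [hv]
      have h0 := Finset.card_eq_zero.mp (by convert hf)
      rw [h0] at hmem
      simp at hmem
    refine AliceWinsFrom.gameOver p f hf' ?_
    intro c x
    left
    obtain ⟨d, hd⟩ := Option.ne_none_iff_exists'.mp (hf' x)
    show f x = some c
    rw [hd, Subsingleton.elim d c]
  | succ n ih =>
    intro p f hf
    have hf0 : (Finset.univ.filter fun v => f v = none).card = n + 1 := by convert hf
    have key : ∀ (q : Player) (v : V), f v = none → ∀ c : Fin 1, AliceWinsFrom H 1 q (colour f v c) := by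
      intro q v hv c
      refine ih q _ ?_
      have : (Finset.univ.filter fun w => colour f v c w = none)
          = (Finset.univ.filter fun w => f w = none).erase v := by
        ext w
        unfold colour
        by_cases hw : w = v
        · subst hw; simp
        · simp [hw]
      have hmem : v ∈ Finset.univ.filter fun v => f v = none := by simp [hv]
      have hc := Finset.card_erase_of_mem hmem
      rw [hf0, ← this, Nat.add_sub_cancel] at hc
      convert hc
    have hne : ∃ v, f v = none := by
      have : (Finset.univ.filter fun v => f v = none).Nonempty := by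
        rw [← Finset.card_pos, hf0]; omega
      obtain ⟨v, hv⟩ := this
      exact ⟨v, by simpa using hv⟩
    obtain ⟨v, hv⟩ := hne
    cases p with
    | alice => exact AliceWinsFrom.aliceMove f v hv 0 (key _ v hv 0)
    | bob => exact AliceWinsFrom.bobMove f ⟨v, hv⟩ (fun v hv c => key _ v hv c)

theorem wins_one' {V : Type u} [Fintype V] (H : SimpleGraph V) (p : Player) (f : Position V 1) :
    AliceWinsFrom H 1 p f := by
  classical
  exact wins_one H _ p f rfl

/-- A down-closed, bounded property of positive integers that holds at 1 is described by its
largest element. -/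
theorem threshold (P : ℕ → Prop) (h1 : P 1) (hstep : ∀ k, 1 ≤ k → P (k + 1) → P k) (N : ℕ)
    (hN : ∀ k, P k → k ≤ N) :
    IsGreatest {k : ℕ | 1 ≤ k ∧ P k} (sSup {k : ℕ | 1 ≤ k ∧ P k}) ∧
      ∀ k, 1 ≤ k → (P k ↔ k ≤ sSup {k : ℕ | 1 ≤ k ∧ P k}) := by
  have hne : {k : ℕ | 1 ≤ k ∧ P k}.Nonempty := ⟨1, le_refl 1, h1⟩
  have hbdd : BddAbove {k : ℕ | 1 ≤ k ∧ P k} := ⟨N, fun k hk => hN k hk.2⟩
  have hmem := Nat.sSup_mem hne hbdd
  have hdown : ∀ m, 1 ≤ m → P m → ∀ k, 1 ≤ k → k ≤ m → P k := by
    intro m
    induction m with
    | zero => intro h; omega
    | succ m ih =>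
      intro _ hm k hk hkm
      rcases Nat.lt_or_ge m k with h | h
      · have : k = m + 1 := by omega
        rwa [this]
      · have hm1 : 1 ≤ m := le_trans hk h
        exact ih hm1 (hstep m hm1 hm) k hk h
  refine ⟨⟨hmem, fun k hk => le_csSup hbdd hk⟩, fun k hk => ⟨fun h => le_csSup hbdd ⟨hk, h⟩, ?_⟩⟩
  intro h
  exact hdown _ hmem.1 hmem.2 k hk h

end Pool.Agent.DomaticGame
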