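import Mathlib

namespace Pool.Agent.Judicious

open Finset

variable {V : Type} [Fintype V] [DecidableEq V]

/-- The number of edges of `D` going from `X` to `Y`. -/
def cut (D : Finset (V × V)) (X Y : Finset V) : ℕ :=
  (D.filter (fun p => p.1 ∈ X ∧ p.2 ∈ Y)).card

/-- The outdegree of `v` in `D`. -/
def outdeg (D : Finset (V × V)) (v : V) : ℕ := (D.filter (fun p => p.1 = v)).card

/-- The indegree of `v` in `D`. -/
def indeg (D : Finset (V × V)) (v : V) : ℕ := (D.filter (fun p => p.2 = v)).card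

/-- The largest value of `min (e(V₁,V₂)) (e(V₂,V₁))` over all bipartitions `(V₁,V₂)` of `V`. -/
def best (D : Finset (V × V)) : ℕ :=
  Finset.univ.sup (fun X : Finset V => min (cut D X Xᶜ) (cut D Xᶜ X))

omit [Fintype V] in
/-- sign sum on a finset with quadratic form coming from an edge set. -/
theorem sign_lemma (E : Finset (V × V)) (hE : ∀ p ∈ E, p.1 ≠ p.2) (b : V → ℤ) :
    ∀ (m : ℕ) (P : Finset V) (c : ℤ), P.card = m → 0 ≤ c → (∀ v ∈ P, 0 ≤ b v ∧ b v ≤ c) →
      ∃ s : V → ℤ, (∀ v, s v = 1 ∨ s v = -1) ∧ |∑ v ∈ P, s v * b v| ≤ c ∧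
        ∑ p ∈ E.filter (fun p => p.1 ∈ P ∧ p.2 ∈ P), s p.1 * s p.2 ≤ 0 := by
  intro m
  induction m using Nat.strong_induction_on with
  | _ m ih =>
    intro P c hm hc hb
    rcases Nat.lt_or_ge m 2 with h2 | h2
    · -- card ≤ 1
      refine ⟨fun _ => 1, fun _ => Or.inl rfl, ?_, ?_⟩
      · rcases Nat.lt_or_ge m 1 with h1 | h1
        · have : P = ∅ := Finset.card_eq_zero.mp (by omega)
          subst this
          simpa using hc
        · obtain ⟨u, hu⟩ := Finset.card_eq_one.mp (show P.card = 1 by omega)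
          subst hu
          have := hb u (by simp)
          simp only [sum_singleton, one_mul]
          rw [abs_of_nonneg this.1]
          exact this.2
      · have hem : E.filter (fun p => p.1 ∈ P ∧ p.2 ∈ P) = ∅ := by
          apply Finset.filter_eq_empty_iff.mpr
          rintro p hp ⟨h1, h2'⟩
          exact hE p hp (Finset.card_le_one.mp (by omega) _ h1 _ h2')
        rw [hem]; simp
    · -- remove the two largest
      have hne : P.Nonempty := Finset.card_pos.mp (by omega)
      obtain ⟨u, huP, humax⟩ := Finset.exists_max_image P b hne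
      have hne' : (P.erase u).Nonempty := by
        apply Finset.card_pos.mp
        rw [Finset.card_erase_of_mem huP]; omega
      obtain ⟨v, hvP, hvmax⟩ := Finset.exists_max_image (P.erase u) b hne'
      have hvu : v ≠ u := (Finset.mem_erase.mp hvP).1
      have hvP' : v ∈ P := (Finset.mem_erase.mp hvP).2
      set Q := (P.erase u).erase v with hQ
      have hQcard : Q.card = m - 2 := by
        rw [hQ, Finset.card_erase_of_mem hvP, Finset.card_erase_of_mem huP]; omega
      have hQsub : ∀ w ∈ Q, w ∈ P ∧ w ≠ u ∧ w ≠ v := by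
        intro w hw
        simp only [hQ, Finset.mem_erase] at hw
        exact ⟨hw.2.2, hw.2.1, hw.1⟩
      obtain ⟨s, hs, hs1, hs2⟩ := ih (m - 2) (by omega) Q (b v) hQcard (hb v hvP').1 (by
        intro w hw
        obtain ⟨h1, h2', h3⟩ := hQsub w hw
        exact ⟨(hb w h1).1, hvmax w (Finset.mem_erase.mpr ⟨h2', h1⟩)⟩)
      -- the two candidates
      set t : ℤ → V → ℤ := fun ε w => if w = u then ε else if w = v then -ε else s w with ht
      have htu : ∀ ε, t ε u = ε := by intro ε; simp [ht]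
      have htv : ∀ ε, t ε v = -ε := by intro ε; simp [ht, hvu]
      have htw : ∀ ε, ∀ w ∈ Q, t ε w = s w := by
        intro ε w hw
        obtain ⟨_, h2', h3⟩ := hQsub w hw
        simp [ht, h2', h3]
      have hPins : P = insert u (insert v Q) := by
        rw [hQ, Finset.insert_erase hvP, Finset.insert_erase huP]
      have huQ : u ∉ insert v Q := by
        rw [Finset.mem_insert]; push Not
        exact ⟨hvu.symm, fun h => (hQsub u h).2.1 rfl⟩
      have hvQ : v ∉ Q := fun h => (hQsub v h).2.2 rfl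
      have hsum : ∀ ε, ∑ w ∈ P, t ε w * b w = ∑ w ∈ Q, s w * b w + ε * (b u - b v) := by
        intro ε
        rw [hPins, Finset.sum_insert huQ, Finset.sum_insert hvQ, htu, htv]
        have : ∑ w ∈ Q, t ε w * b w = ∑ w ∈ Q, s w * b w :=
          Finset.sum_congr rfl (fun w hw => by rw [htw ε w hw])
        rw [this]; ring
      have hab : ∀ ε, (ε = 1 ∨ ε = -1) → |∑ w ∈ P, t ε w * b w| ≤ c := by
        intro ε hε
        rw [hsum ε]
        have h1 : b v ≤ b u := humax v hvP'
        have h2' : b u ≤ c := (hb u huP).2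
        have h3 := abs_le.mp hs1
        rw [abs_le]
        rcases hε with h | h <;> subst h <;> constructor <;> linarith [h3.1, h3.2]
      -- the quadratic form
      set F := E.filter (fun p => p.1 ∈ P ∧ p.2 ∈ P) with hF
      have hval : ∀ p ∈ F, t 1 p.1 * t 1 p.2 + t (-1) p.1 * t (-1) p.2 ≤
          2 * (if p.1 ∈ Q ∧ p.2 ∈ Q then s p.1 * s p.2 else 0) := by
        intro p hp
        rw [hF, Finset.mem_filter] at hp
        obtain ⟨hpE, hp1, hp2⟩ := hp
        have hne12 := hE p hpE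
        rw [hPins] at hp1 hp2
        rw [Finset.mem_insert, Finset.mem_insert] at hp1 hp2
        rcases hp1 with h1 | h1 | h1 <;> rcases hp2 with h2' | h2' | h2'
        · exact absurd (h1.trans h2'.symm) hne12
        · have hu' : ¬ (p.1 ∈ Q ∧ p.2 ∈ Q) := by
            rintro ⟨h, _⟩; rw [h1] at h; exact (hQsub u h).2.1 rfl
          rw [if_neg hu', h1, h2', htu, htu, htv, htv]; norm_num
        · have hu' : ¬ (p.1 ∈ Q ∧ p.2 ∈ Q) := by
            rintro ⟨h, _⟩; rw [h1] at h; exact (hQsub u h).2.1 rfl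
          rw [if_neg hu', h1, htu, htu, htw _ _ h2', htw _ _ h2']
          ring_nf; exact le_refl _
        · have hu' : ¬ (p.1 ∈ Q ∧ p.2 ∈ Q) := by
            rintro ⟨h, _⟩; rw [h1] at h; exact (hQsub v h).2.2 rfl
          rw [if_neg hu', h1, h2', htu, htu, htv, htv]; norm_num
        · exact absurd (h1.trans h2'.symm) hne12
        · have hu' : ¬ (p.1 ∈ Q ∧ p.2 ∈ Q) := by
            rintro ⟨h, _⟩; rw [h1] at h; exact (hQsub v h).2.2 rfl
          rw [if_neg hu', h1, htv, htv, htw _ _ h2', htw _ _ h2']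
          ring_nf; exact le_refl _
        · have hu' : ¬ (p.1 ∈ Q ∧ p.2 ∈ Q) := by
            rintro ⟨_, h⟩; rw [h2'] at h; exact (hQsub u h).2.1 rfl
          rw [if_neg hu', h2', htu, htu, htw _ _ h1, htw _ _ h1]
          ring_nf; exact le_refl _
        · have hu' : ¬ (p.1 ∈ Q ∧ p.2 ∈ Q) := by
            rintro ⟨_, h⟩; rw [h2'] at h; exact (hQsub v h).2.2 rfl
          rw [if_neg hu', h2', htv, htv, htw _ _ h1, htw _ _ h1]
          ring_nf; exact le_refl _
        · rw [if_pos ⟨h1, h2'⟩, htw _ _ h1, htw _ _ h1, htw _ _ h2', htw _ _ h2']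
          linarith
      have hsumF : ∑ p ∈ F, t 1 p.1 * t 1 p.2 + ∑ p ∈ F, t (-1) p.1 * t (-1) p.2 ≤ 0 := by
        rw [← Finset.sum_add_distrib]
        refine (Finset.sum_le_sum hval).trans ?_
        rw [← Finset.mul_sum, ← Finset.sum_filter]
        have : F.filter (fun p => p.1 ∈ Q ∧ p.2 ∈ Q) = E.filter (fun p => p.1 ∈ Q ∧ p.2 ∈ Q) := by
          ext p
          simp only [hF, Finset.mem_filter]
          constructor
          · rintro ⟨⟨h1, _⟩, h2'⟩; exact ⟨h1, h2'⟩
          · rintro ⟨h1, h2'⟩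
            exact ⟨⟨h1, (hQsub _ h2'.1).1, (hQsub _ h2'.2).1⟩, h2'⟩
        rw [this]
        linarith
      have htsign : ∀ ε, (ε = 1 ∨ ε = -1) → ∀ w, t ε w = 1 ∨ t ε w = -1 := by
        intro ε hε w
        simp only [ht]
        split_ifs
        · exact hε
        · rcases hε with h | h <;> subst h <;> norm_num
        · exact hs w
      rcases le_or_gt (∑ p ∈ F, t 1 p.1 * t 1 p.2) 0 with h | h
      · exact ⟨t 1, htsign 1 (Or.inl rfl), hab 1 (Or.inl rfl), h⟩
      · exact ⟨t (-1), htsign (-1) (Or.inr rfl), hab (-1) (Or.inr rfl), by linarith⟩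

/-- out-degree minus in-degree. -/
def imb (D : Finset (V × V)) (v : V) : ℤ := (outdeg D v : ℤ) - indeg D v

/-- the set of `+` vertices of a sign vector. -/
def plusSet (s : V → ℤ) : Finset V := Finset.univ.filter (fun v => s v = 1)

theorem cut_plus (D : Finset (V × V)) (s : V → ℤ) (hs : ∀ v, s v = 1 ∨ s v = -1) :
    4 * (cut D (plusSet s) (plusSet s)ᶜ : ℤ) =
      D.card + ∑ v, s v * imb D v - ∑ p ∈ D, s p.1 * s p.2 := by
  have h1 : ∑ v, s v * imb D v = ∑ p ∈ D, (s p.1 - s p.2) := by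
    unfold imb outdeg indeg
    rw [Finset.sum_sub_distrib]
    simp only [mul_sub, Finset.sum_sub_distrib, Finset.card_filter, Nat.cast_sum, Nat.cast_ite,
      Nat.cast_one, Nat.cast_zero, Finset.mul_sum, mul_ite, mul_one, mul_zero]
    congr 1
    · rw [Finset.sum_comm]
      refine Finset.sum_congr rfl (fun p _ => ?_)
      simp
    · rw [Finset.sum_comm]
      refine Finset.sum_congr rfl (fun p _ => ?_)
      simp
  have h2 : (cut D (plusSet s) (plusSet s)ᶜ : ℤ) =
      ∑ p ∈ D, (if p.1 ∈ plusSet s ∧ p.2 ∈ (plusSet s)ᶜ then (1 : ℤ) else 0) := by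
    unfold cut
    rw [Finset.card_filter]; push_cast; rfl
  rw [h1, h2, Finset.mul_sum, Finset.card_eq_sum_ones]
  push_cast
  rw [← Finset.sum_add_distrib, ← Finset.sum_sub_distrib]
  refine Finset.sum_congr rfl (fun p _ => ?_)
  simp only [plusSet, Finset.mem_compl, Finset.mem_filter, Finset.mem_univ, true_and]
  rcases hs p.1 with h | h <;> rcases hs p.2 with h' | h' <;> rw [h, h'] <;> norm_num

theorem cut_minus (D : Finset (V × V)) (s : V → ℤ) (hs : ∀ v, s v = 1 ∨ s v = -1) :
    4 * (cut D (plusSet s)ᶜ (plusSet s) : ℤ) =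
      D.card - ∑ v, s v * imb D v - ∑ p ∈ D, s p.1 * s p.2 := by
  have hc : (plusSet s)ᶜ = plusSet (fun v => - s v) := by
    ext v
    simp only [plusSet, Finset.mem_compl, Finset.mem_filter, Finset.mem_univ, true_and]
    rcases hs v with h | h <;> rw [h] <;> norm_num
  have h := cut_plus D (fun v => - s v) (by
    intro v; rcases hs v with h | h <;> rw [h] <;> norm_num)
  have hcc : (plusSet (fun v => - s v))ᶜ = plusSet s := by rw [← hc, compl_compl]
  rw [hcc, ← hc] at h
  rw [h]
  simp only [neg_mul, Finset.sum_neg_distrib, mul_neg, neg_neg]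
  ring

theorem le_best (D : Finset (V × V)) (X : Finset V) :
    min (cut D X Xᶜ) (cut D Xᶜ X) ≤ best D :=
  Finset.le_sup (f := fun X : Finset V => min (cut D X Xᶜ) (cut D Xᶜ X)) (Finset.mem_univ X)

/-- Every finite digraph has a bipartition both of whose directed cuts contain at least
`(e - M)/4` edges, when every vertex has `|outdegree - indegree| ≤ M`. -/
theorem imb_bound (D : Finset (V × V)) (hD : ∀ p ∈ D, p.1 ≠ p.2) (M : ℕ)
    (hM : ∀ v, |imb D v| ≤ M) : D.card ≤ 4 * best D + M := by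
  set P : Finset V := Finset.univ.filter (fun v => 0 ≤ imb D v) with hP
  set Q : Finset V := Finset.univ.filter (fun v => ¬ 0 ≤ imb D v) with hQ
  have hPM : ∀ v, v ∈ P → 0 ≤ imb D v := by intro v hv; simpa [hP] using hv
  have hQM : ∀ v, v ∈ Q → imb D v < 0 := by intro v hv; simpa [hQ] using hv
  obtain ⟨s, hs, hs1, hs2⟩ := sign_lemma D hD (imb D) P.card P M rfl (by positivity) (by
    intro v hv; exact ⟨hPM v hv, (le_abs_self _).trans (hM v)⟩)
  obtain ⟨r, hr, hr1, hr2⟩ := sign_lemma D hD (fun v => - imb D v) Q.card Q M rfl (by positivity) (by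
    intro v hv; exact ⟨by have := hQM v hv; omega, (neg_le_abs _).trans (hM v)⟩)
  set t : ℤ → V → ℤ := fun ε v => if 0 ≤ imb D v then s v else ε * r v with ht
  have htP : ∀ ε, ∀ v ∈ P, t ε v = s v := by
    intro ε v hv; simp only [ht]; rw [if_pos (hPM v hv)]
  have htQ : ∀ ε, ∀ v ∈ Q, t ε v = ε * r v := by
    intro ε v hv; simp only [ht]; rw [if_neg (not_le.mpr (hQM v hv))]
  have htsign : ∀ ε, (ε = 1 ∨ ε = -1) → ∀ v, t ε v = 1 ∨ t ε v = -1 := by
    intro ε hε v
    simp only [ht]
    split_ifs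
    · exact hs v
    · rcases hε with h | h <;> rcases hr v with h' | h' <;> rw [h, h'] <;> norm_num
  have hB : ∀ ε, ∑ v, t ε v * imb D v = ∑ v ∈ P, s v * imb D v + ε * ∑ v ∈ Q, r v * imb D v := by
    intro ε
    rw [← Finset.sum_filter_add_sum_filter_not Finset.univ (fun v => 0 ≤ imb D v)]
    rw [Finset.mul_sum]
    congr 1
    · exact Finset.sum_congr rfl (fun v hv => by rw [htP ε v hv])
    · exact Finset.sum_congr rfl (fun v hv => by rw [htQ ε v hv]; ring)
  have hQabs : |∑ v ∈ Q, r v * imb D v| ≤ M := by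
    have : ∑ v ∈ Q, r v * imb D v = - ∑ v ∈ Q, r v * (- imb D v) := by
      rw [← Finset.sum_neg_distrib]
      exact Finset.sum_congr rfl (fun v _ => by ring)
    rw [this, abs_neg]; exact hr1
  have hA : ∑ p ∈ D, t 1 p.1 * t 1 p.2 + ∑ p ∈ D, t (-1) p.1 * t (-1) p.2 ≤ 0 := by
    rw [← Finset.sum_add_distrib]
    have hval : ∀ p ∈ D, t 1 p.1 * t 1 p.2 + t (-1) p.1 * t (-1) p.2 =
        2 * (if p.1 ∈ P ∧ p.2 ∈ P then s p.1 * s p.2 else 0) +
        2 * (if p.1 ∈ Q ∧ p.2 ∈ Q then r p.1 * r p.2 else 0) := by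
      intro p _
      have hmP : ∀ v, v ∈ P ↔ 0 ≤ imb D v := by intro v; simp [hP]
      have hmQ : ∀ v, v ∈ Q ↔ ¬ 0 ≤ imb D v := by intro v; simp [hQ]
      by_cases h1 : 0 ≤ imb D p.1 <;> by_cases h2 : 0 ≤ imb D p.2 <;>
        simp only [ht, hmP, hmQ, h1, h2, if_true, if_false, and_true, and_false,
          not_true, not_false_iff, and_self] <;> ring
    rw [Finset.sum_congr rfl hval, Finset.sum_add_distrib, ← Finset.mul_sum, ← Finset.mul_sum,
      ← Finset.sum_filter, ← Finset.sum_filter]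
    linarith
  have key : ∀ ε, (ε = 1 ∨ ε = -1) →
      (D.card : ℤ) - ∑ p ∈ D, t ε p.1 * t ε p.2 - |∑ v, t ε v * imb D v| ≤ 4 * best D := by
    intro ε hε
    have h1 := cut_plus D (t ε) (htsign ε hε)
    have h2 := cut_minus D (t ε) (htsign ε hε)
    have h3 : (min (cut D (plusSet (t ε)) (plusSet (t ε))ᶜ)
        (cut D (plusSet (t ε))ᶜ (plusSet (t ε))) : ℕ) ≤ best D := le_best D _
    have h4 : ((min (cut D (plusSet (t ε)) (plusSet (t ε))ᶜ)
        (cut D (plusSet (t ε))ᶜ (plusSet (t ε))) : ℕ) : ℤ) ≤ (best D : ℤ) := by exact_mod_cast h3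
    rcases le_total (cut D (plusSet (t ε)) (plusSet (t ε))ᶜ)
        (cut D (plusSet (t ε))ᶜ (plusSet (t ε))) with h | h
    · rw [min_eq_left h] at h4
      linarith [neg_abs_le (∑ v, t ε v * imb D v)]
    · rw [min_eq_right h] at h4
      linarith [le_abs_self (∑ v, t ε v * imb D v)]
  have k1 := key 1 (Or.inl rfl)
  have k2 := key (-1) (Or.inr rfl)
  rw [hB] at k1 k2
  set A := ∑ v ∈ P, s v * imb D v
  set B := ∑ v ∈ Q, r v * imb D v
  have habs : |A + 1 * B| + |A + -1 * B| ≤ 2 * M := by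
    have hA' := abs_le.mp hs1
    have hB' := abs_le.mp hQabs
    rcases abs_cases (A + 1 * B) with h | h <;> rcases abs_cases (A + -1 * B) with h' | h' <;>
      linarith [h.1, h'.1, hA'.1, hA'.2, hB'.1, hB'.2]
  have : (D.card : ℤ) ≤ 4 * best D + M := by linarith
  exact_mod_cast this

end Pool.Agent.Judicious
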