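import Pool.Agent.Lib_helper68.JudiciousTwo

namespace Pool.Agent.Judicious

open Finset

section tournament

variable (j : ℕ)

/-- the circulant tournament on `ZMod (2j+1)` -/
def TT (a b : ZMod (2 * j + 1)) : ℕ := if 1 ≤ (b - a).val ∧ (b - a).val ≤ j then 1 else 0

theorem TT_tour (a b : ZMod (2 * j + 1)) :
    TT j a b + TT j b a = if a = b then 0 else 1 := by
  unfold TT
  by_cases h : a = b
  · subst h; simp
  · have h1 : b - a ≠ 0 := fun h' => h (sub_eq_zero.mp h').symm
    have h2 : (a - b).val = (2 * j + 1) - (b - a).val := by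
      have : a - b = -(b - a) := by ring
      rw [this, ZMod.neg_val, if_neg h1]
    have h3 : (b - a).val < 2 * j + 1 := ZMod.val_lt _
    have h4 : (b - a).val ≠ 0 := by rw [Ne, ZMod.val_eq_zero]; exact h1
    rw [h2, if_neg h]
    by_cases h5 : (b - a).val ≤ j
    · rw [if_pos ⟨by omega, h5⟩, if_neg (by omega)]
    · rw [if_neg (by omega), if_pos (by omega)]

theorem card_val_lt (m i : ℕ) [NeZero m] (hj : i ≤ m) :
    ∑ b : ZMod m, (if b.val < i then 1 else 0) = i := by
  rw [← Finset.card_filter]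
  have : (Finset.univ.filter (fun b : ZMod m => b.val < i)).card = (Finset.range i).card := by
    apply Finset.card_bij (fun b _ => b.val)
    · intro b hb
      simpa using hb
    · intro b _ b' _ h
      exact ZMod.val_injective m h
    · intro x hx
      rw [Finset.mem_range] at hx
      refine ⟨(x : ZMod m), ?_, ?_⟩
      · simp only [Finset.mem_filter, Finset.mem_univ, true_and]
        rw [ZMod.val_cast_of_lt (by omega)]; exact hx
      · rw [ZMod.val_cast_of_lt (by omega)]
  rw [this, Finset.card_range]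

theorem TT_out (a : ZMod (2 * j + 1)) : ∑ b, TT j a b = j := by
  have h1 : ∑ b, TT j a b =
      ∑ b : ZMod (2 * j + 1), (if 1 ≤ b.val ∧ b.val ≤ j then 1 else 0) := by
    apply Fintype.sum_equiv (Equiv.subRight a)
    intro b
    rfl
  rw [h1]
  have h2 : ∑ b : ZMod (2 * j + 1), (if 1 ≤ b.val ∧ b.val ≤ j then 1 else 0) +
      ∑ b : ZMod (2 * j + 1), (if b.val < 1 then 1 else 0) =
      ∑ b : ZMod (2 * j + 1), (if b.val < j + 1 then 1 else 0) := by
    rw [← Finset.sum_add_distrib]
    refine Finset.sum_congr rfl (fun b _ => ?_)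
    by_cases h3 : b.val < 1
    · rw [if_neg (by omega), if_pos h3, if_pos (by omega)]
    · by_cases h4 : b.val < j + 1
      · rw [if_pos (by omega), if_neg h3, if_pos h4]
      · rw [if_neg (by omega), if_neg h3, if_neg h4]
  rw [card_val_lt _ 1 (by omega), card_val_lt _ (j + 1) (by omega)] at h2
  omega

theorem TT_cut (S : Finset (ZMod (2 * j + 1))) :
    2 * ∑ a ∈ S, ∑ b ∈ Sᶜ, TT j a b ≤ (j + 1) * j := by
  have h1 : ∑ a ∈ S, ∑ b ∈ S, TT j a b + ∑ a ∈ S, ∑ b ∈ Sᶜ, TT j a b = j * S.card := by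
    rw [← Finset.sum_add_distrib]
    have : ∀ a ∈ S, ∑ b ∈ S, TT j a b + ∑ b ∈ Sᶜ, TT j a b = j := by
      intro a _
      rw [Finset.sum_add_sum_compl, TT_out j a]
    rw [Finset.sum_congr rfl this, Finset.sum_const, smul_eq_mul, mul_comm]
  have h2 : 2 * ∑ a ∈ S, ∑ b ∈ S, TT j a b + S.card = S.card * S.card := by
    have h3 : ∑ a ∈ S, (∑ b ∈ S, TT j a b + ∑ b ∈ S, TT j b a + 1) = ∑ a ∈ S, S.card := by
      refine Finset.sum_congr rfl (fun a ha => ?_)
      rw [← Finset.sum_add_distrib]
      rw [Finset.sum_congr rfl (fun b _ => TT_tour j a b)]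
      have h4 : ∑ b ∈ S, (if a = b then 1 else 0) = 1 := by
        rw [Finset.sum_ite_eq, if_pos ha]
      have h5 : ∑ b ∈ S, (if a = b then 0 else 1) + ∑ b ∈ S, (if a = b then 1 else 0) =
          ∑ b ∈ S, 1 := by
        rw [← Finset.sum_add_distrib]
        refine Finset.sum_congr rfl (fun b _ => ?_)
        split_ifs <;> rfl
      rw [h4] at h5
      rw [h5, ← Finset.card_eq_sum_ones]
    rw [Finset.sum_add_distrib, Finset.sum_add_distrib, ← Finset.card_eq_sum_ones,
      Finset.sum_comm (s := S) (t := S) (f := fun a b => TT j b a), Finset.sum_const,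
      smul_eq_mul] at h3
    omega
  have h6 : S.card ≤ 2 * j + 1 := by
    have := Finset.card_le_univ S
    rwa [ZMod.card] at this
  set s := S.card
  set A := ∑ a ∈ S, ∑ b ∈ S, TT j a b
  set B := ∑ a ∈ S, ∑ b ∈ Sᶜ, TT j a b
  have h7 : 2 * B + s * s = (2 * j + 1) * s := by nlinarith
  rcases Nat.lt_or_ge s (j + 1) with h | h
  · obtain ⟨t, ht⟩ : ∃ t, j = s + t := ⟨j - s, by omega⟩
    rw [ht] at h7 ⊢
    nlinarith
  · obtain ⟨t, ht⟩ : ∃ t, s = j + 1 + t := ⟨s - (j + 1), by omega⟩
    rw [ht] at h7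
    nlinarith

end tournament

section example_digraph

variable (j q : ℕ)

/-- adjacency of the extremal digraph: `q + 1` circulant tournaments on `2j+1` vertices, each
vertex sending one further edge to the apex `none`, and the apex sending `j + 1` edges. -/
def adj : Option (Fin (q + 1) × ZMod (2 * j + 1)) → Option (Fin (q + 1) × ZMod (2 * j + 1)) → Prop
  | some x, some y => x.1 = y.1 ∧ (1 ≤ (y.2 - x.2).val ∧ (y.2 - x.2).val ≤ j)
  | some _, none => True
  | none, some y => y.1 = 0 ∧ y.2.val < j + 1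
  | none, none => False

instance : DecidableRel (adj j q)
  | some x, some y => by unfold adj; infer_instance
  | some _, none => by unfold adj; infer_instance
  | none, some y => by unfold adj; infer_instance
  | none, none => by unfold adj; infer_instance

/-- the extremal digraph -/
def exD : Finset (Option (Fin (q + 1) × ZMod (2 * j + 1)) × Option (Fin (q + 1) × ZMod (2 * j + 1))) :=
  Finset.univ.filter (fun p => adj j q p.1 p.2)

theorem mem_exD (x y : Option (Fin (q + 1) × ZMod (2 * j + 1))) :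
    (x, y) ∈ exD j q ↔ adj j q x y := by
  simp [exD]

theorem exD_loopless : ∀ p ∈ exD j q, p.1 ≠ p.2 := by
  rintro ⟨x, y⟩ h
  rw [mem_exD] at h
  intro hxy
  simp only at hxy
  subst hxy
  rcases x with _ | x
  · exact h
  · have := h.2.1
    simp at this

theorem dd_ss (x y : Fin (q + 1) × ZMod (2 * j + 1)) :
    dd (exD j q) (some x) (some y) = if x.1 = y.1 then TT j x.2 y.2 else 0 := by
  unfold dd TT
  have : ((some x, some y) ∈ exD j q) ↔
      (x.1 = y.1 ∧ (1 ≤ (y.2 - x.2).val ∧ (y.2 - x.2).val ≤ j)) := by rw [mem_exD]; rfl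
  by_cases h : x.1 = y.1
  · rw [if_pos h]
    by_cases h' : 1 ≤ (y.2 - x.2).val ∧ (y.2 - x.2).val ≤ j
    · rw [if_pos (this.mpr ⟨h, h'⟩), if_pos h']
    · rw [if_neg (fun h'' => h' (this.mp h'').2), if_neg h']
  · rw [if_neg h, if_neg (fun h'' => h (this.mp h'').1)]

theorem dd_sn (x : Fin (q + 1) × ZMod (2 * j + 1)) : dd (exD j q) (some x) none = 1 := by
  unfold dd; rw [if_pos]; rw [mem_exD]; trivial

theorem dd_nn : dd (exD j q) none none = 0 := by
  unfold dd; rw [if_neg]; rw [mem_exD]; exact fun h => h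

theorem outdeg_none : outdeg (exD j q) none = j + 1 := by
  rw [outdeg_eq_sum, Fintype.sum_option, dd_nn, zero_add, Fintype.sum_prod_type,
    Fin.sum_univ_succ]
  have h1 : ∑ b, dd (exD j q) none (some ((0 : Fin (q + 1)), b)) = j + 1 := by
    rw [← card_val_lt (2 * j + 1) (j + 1) (by omega)]
    refine Finset.sum_congr rfl (fun b _ => ?_)
    unfold dd
    have : ((none, some ((0 : Fin (q + 1)), b)) ∈ exD j q) ↔ b.val < j + 1 := by
      rw [mem_exD]
      exact ⟨fun h => h.2, fun h => ⟨rfl, h⟩⟩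
    by_cases h : b.val < j + 1
    · rw [if_pos (this.mpr h), if_pos h]
    · rw [if_neg (fun h' => h (this.mp h')), if_neg h]
  have h2 : ∑ i : Fin q, ∑ b, dd (exD j q) none (some (i.succ, b)) = 0 := by
    refine Finset.sum_eq_zero (fun i _ => Finset.sum_eq_zero (fun b _ => ?_))
    unfold dd
    rw [if_neg]
    rw [mem_exD]
    exact fun h => Fin.succ_ne_zero i h.1
  rw [h1, h2, add_zero]

theorem outdeg_some (x : Fin (q + 1) × ZMod (2 * j + 1)) : outdeg (exD j q) (some x) = j + 1 := by
  rw [outdeg_eq_sum, Fintype.sum_option, dd_sn, Fintype.sum_prod_type]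
  have : ∑ i, ∑ b, dd (exD j q) (some x) (some (i, b)) = j := by
    rw [Finset.sum_eq_single x.1]
    · refine (Finset.sum_congr rfl (fun b _ => ?_)).trans (TT_out j x.2)
      rw [dd_ss, if_pos rfl]
    · intro i _ hi
      refine Finset.sum_eq_zero (fun b _ => ?_)
      rw [dd_ss, if_neg (fun h => hi h.symm)]
    · intro h; exact absurd (Finset.mem_univ _) h
  rw [this]; ring

theorem outdeg_exD (x : Option (Fin (q + 1) × ZMod (2 * j + 1))) : outdeg (exD j q) x = j + 1 := by
  rcases x with _ | x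
  · exact outdeg_none j q
  · exact outdeg_some j q x

theorem card_exD : (exD j q).card = (j + 1) * ((q + 1) * (2 * j + 1) + 1) := by
  rw [card_eq_sum_outdeg, Finset.sum_congr rfl (fun x _ => outdeg_exD j q x), Finset.sum_const,
    smul_eq_mul, Finset.card_univ, Fintype.card_option, Fintype.card_prod, Fintype.card_fin,
    ZMod.card, mul_comm]

theorem cut_exD (X : Finset (Option (Fin (q + 1) × ZMod (2 * j + 1)))) (hX : none ∈ X) :
    2 * cut (exD j q) X Xᶜ ≤ 2 * (j + 1) + (q + 1) * ((j + 1) * j) := by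
  have h0 : cut (exD j q) X Xᶜ = ∑ x, ∑ y, (if x ∈ X ∧ y ∉ X then dd (exD j q) x y else 0) := by
    rw [cut_eq_sum]
    rw [← Finset.sum_filter_add_sum_filter_not Finset.univ (fun x => x ∈ X)]
    have e1 : Finset.univ.filter (fun x => x ∈ X) = X := by ext x; simp
    rw [e1]
    have e2 : ∑ x ∈ Finset.univ.filter (fun x => ¬ x ∈ X),
        ∑ y, (if x ∈ X ∧ y ∉ X then dd (exD j q) x y else 0) = 0 := by
      refine Finset.sum_eq_zero (fun x hx => Finset.sum_eq_zero (fun y _ => ?_))
      rw [if_neg]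
      intro h
      exact (Finset.mem_filter.mp hx).2 h.1
    rw [e2, add_zero]
    refine Finset.sum_congr rfl (fun x hx => ?_)
    rw [← Finset.sum_filter]
    apply Finset.sum_congr _ (fun _ _ => rfl)
    ext y
    simp [hx]
  rw [h0, Fintype.sum_option]
  have h1 : ∑ y, (if (none : Option (Fin (q + 1) × ZMod (2 * j + 1))) ∈ X ∧ y ∉ X then
      dd (exD j q) none y else 0) ≤ j + 1 := by
    rw [← outdeg_none j q, outdeg_eq_sum]
    refine Finset.sum_le_sum (fun y _ => ?_)
    split_ifs <;> omega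
  have h2 : 2 * ∑ x : Fin (q + 1) × ZMod (2 * j + 1),
      ∑ y, (if some x ∈ X ∧ y ∉ X then dd (exD j q) (some x) y else 0) ≤
      (q + 1) * ((j + 1) * j) := by
    have h3 : ∀ i : Fin (q + 1), 2 * ∑ a : ZMod (2 * j + 1),
        ∑ y, (if some (i, a) ∈ X ∧ y ∉ X then dd (exD j q) (some (i, a)) y else 0) ≤
        (j + 1) * j := by
      intro i
      set S : Finset (ZMod (2 * j + 1)) := Finset.univ.filter (fun a => some (i, a) ∈ X) with hS
      have h4 : ∀ a : ZMod (2 * j + 1),
          ∑ y, (if some (i, a) ∈ X ∧ y ∉ X then dd (exD j q) (some (i, a)) y else 0) =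
          if a ∈ S then ∑ b ∈ Sᶜ, TT j a b else 0 := by
        intro a
        rw [Fintype.sum_option, if_neg (by rintro ⟨_, h⟩; exact h hX), zero_add,
          Fintype.sum_prod_type, Finset.sum_eq_single i]
        · by_cases ha : a ∈ S
          · rw [if_pos ha]
            have ha' : some (i, a) ∈ X := by simpa [hS] using ha
            have : Sᶜ = Finset.univ.filter (fun b => some (i, b) ∉ X) := by
              ext b; simp [hS]
            rw [this, Finset.sum_filter]
            refine Finset.sum_congr rfl (fun b _ => ?_)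
            rw [dd_ss]
            by_cases hb : some (i, b) ∉ X
            · rw [if_pos ⟨ha', hb⟩, if_pos rfl, if_pos hb]
            · rw [if_neg (fun h => hb h.2), if_neg hb]
          · rw [if_neg ha]
            have ha' : some (i, a) ∉ X := by simpa [hS] using ha
            refine Finset.sum_eq_zero (fun b _ => ?_)
            rw [if_neg (fun h => ha' h.1)]
        · intro i' _ hi'
          refine Finset.sum_eq_zero (fun b _ => ?_)
          rw [dd_ss, if_neg (fun h : i = i' => hi' h.symm), ite_self]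
        · intro h; exact absurd (Finset.mem_univ _) h
      rw [Finset.sum_congr rfl (fun a _ => h4 a), ← Finset.sum_filter]
      have : Finset.univ.filter (fun a => a ∈ S) = S := by ext; simp
      rw [this]
      exact TT_cut j S
    rw [Fintype.sum_prod_type, Finset.mul_sum]
    refine (Finset.sum_le_sum (fun i _ => h3 i)).trans ?_
    rw [Finset.sum_const, smul_eq_mul, Finset.card_univ, Fintype.card_fin]
  omega

theorem best_exD : 2 * best (exD j q) ≤ 2 * (j + 1) + (q + 1) * ((j + 1) * j) := by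
  have : best (exD j q) ≤ (2 * (j + 1) + (q + 1) * ((j + 1) * j)) / 2 := by
    unfold best
    refine Finset.sup_le (fun X _ => ?_)
    by_cases hX : none ∈ X
    · have := cut_exD j q X hX
      exact (min_le_left _ _).trans (by omega)
    · have h1 : none ∈ Xᶜ := Finset.mem_compl.mpr hX
      have h2 := cut_exD j q Xᶜ h1
      rw [compl_compl] at h2
      exact (min_le_right _ _).trans (by omega)
  omega

theorem mem_ratios : (best (exD j q) : ℝ) / (exD j q).card ∈ ratios (j + 1) :=
  ⟨_, inferInstance, inferInstance, exD j q, exD_loopless j q, fun v => (outdeg_exD j q v).ge, by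
    rw [card_exD]; exact Nat.succ_le_of_lt (by positivity), rfl⟩

end example_digraph

theorem c_upper (k : ℕ) (hk : 1 ≤ k) : c k ≤ ((k : ℝ) - 1) / (2 * (2 * k - 1)) := by
  obtain ⟨j, rfl⟩ : ∃ j, k = j + 1 := ⟨k - 1, by omega⟩
  have hc : ∀ q : ℕ, c (j + 1) * (2 * ((q + 1) * (2 * j + 1) + 1)) ≤ 2 + (q + 1) * j := by
    intro q
    have h1 : c (j + 1) ≤ (best (exD j q) : ℝ) / (exD j q).card :=
      csInf_le (ratios_bddBelow _) (mem_ratios j q)
    have h2 : (2 * best (exD j q) : ℝ) ≤ 2 * (j + 1) + (q + 1) * ((j + 1) * j) := by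
      exact_mod_cast best_exD j q
    have h3 : ((exD j q).card : ℝ) = (j + 1) * ((q + 1) * (2 * j + 1) + 1) := by
      exact_mod_cast card_exD j q
    rw [h3] at h1
    have hpos : (0 : ℝ) < (j + 1) * ((q + 1) * (2 * j + 1) + 1) := by positivity
    rw [le_div_iff₀ hpos] at h1
    have hj : (0 : ℝ) < j + 1 := by positivity
    have h4 : (j + 1 : ℝ) * (c (j + 1) * (2 * ((q + 1) * (2 * j + 1) + 1))) ≤
        (j + 1 : ℝ) * (2 + (q + 1) * j) := by nlinarith
    exact le_of_mul_le_mul_left h4 hj
  have hc0 : 0 ≤ c (j + 1) := Real.sInf_nonneg (ratios_nonneg _)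
  push_cast
  have hden : (0 : ℝ) < 2 * (2 * ((j : ℝ) + 1) - 1) := by
    have : (0 : ℝ) ≤ j := by positivity
    linarith
  rw [le_div_iff₀ hden]
  by_contra hcon
  push Not at hcon
  set δ := c (j + 1) * (2 * (2 * ((j : ℝ) + 1) - 1)) - ((j : ℝ) + 1 - 1) with hδ
  have hδpos : 0 < δ := by rw [hδ]; linarith
  obtain ⟨q, hq⟩ := exists_nat_gt (2 / δ)
  rw [div_lt_iff₀ hδpos] at hq
  have h5 := hc q
  nlinarith

theorem ratios_nonempty (k : ℕ) (hk : 1 ≤ k) : (ratios k).Nonempty := by
  obtain ⟨j, rfl⟩ : ∃ j, k = j + 1 := ⟨k - 1, by omega⟩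
  exact ⟨_, mem_ratios j 0⟩

theorem c_lower (k : ℕ) (hk : 1 ≤ k) : ((k : ℝ) - 1) / (4 * k) ≤ c k :=
  le_csInf (ratios_nonempty k hk) (ratios_lower k hk)

theorem c_two : c 2 = 1 / 6 := by
  apply le_antisymm
  · have := c_upper 2 (by norm_num)
    norm_num at this ⊢
    exact this
  · refine le_csInf (ratios_nonempty 2 (by norm_num)) ?_
    rintro r ⟨V, _, _, D, hD, hout, hcard, rfl⟩
    have h := two_bound D hD hout
    have h' : (D.card : ℝ) ≤ 6 * best D := by exact_mod_cast h
    have hc' : (0 : ℝ) < D.card := by exact_mod_cast hcard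
    rw [div_le_div_iff₀ (by norm_num) hc']
    linarith

end Pool.Agent.Judicious
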