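import Pool.Agent.Lib_helper68.LlsHas

namespace Pool.Agent.Judicious

open Finset

theorem perm_sum_one {N : ℕ} (g : Fin N → ℝ) (i : Fin N) :
    (N : ℝ) * ∑ π : Equiv.Perm (Fin N), g (π i) =
      Fintype.card (Equiv.Perm (Fin N)) * ∑ j, g j := by
  have h : ∀ j, ∑ π : Equiv.Perm (Fin N), g (π j) = ∑ π : Equiv.Perm (Fin N), g (π i) := by
    intro j
    refine Fintype.sum_equiv (Equiv.mulRight (Equiv.swap i j)) _ _ ?_
    intro π
    simp [Equiv.Perm.mul_apply]
  calc (N : ℝ) * ∑ π : Equiv.Perm (Fin N), g (π i)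
      = ∑ j : Fin N, ∑ π : Equiv.Perm (Fin N), g (π j) := by
        rw [Finset.sum_congr rfl (fun j _ => h j)]; simp
    _ = ∑ π : Equiv.Perm (Fin N), ∑ j, g (π j) := Finset.sum_comm
    _ = ∑ π : Equiv.Perm (Fin N), ∑ j, g j := by
        refine Finset.sum_congr rfl (fun π _ => ?_)
        exact Equiv.sum_comp π g
    _ = _ := by simp

theorem perm_sum_two {N : ℕ} (t : Fin N → ℝ) (ht : ∀ i, t i * t i = 1) (hs : ∑ j, t j = -1)
    (i j : Fin N) (hij : i ≠ j) :
    (N : ℝ) * ∑ π : Equiv.Perm (Fin N), t (π i) * t (π j) =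
      - (Fintype.card (Equiv.Perm (Fin N)) : ℝ) := by
  set c : ℝ := (Fintype.card (Equiv.Perm (Fin N)) : ℝ) with hc
  set S : ℝ := ∑ π : Equiv.Perm (Fin N), t (π i) * t (π j) with hS
  have h : ∀ l, l ≠ i → ∑ π : Equiv.Perm (Fin N), t (π i) * t (π l) = S := by
    intro l hl
    refine Fintype.sum_equiv (Equiv.mulRight (Equiv.swap j l)) _ _ ?_
    intro π
    simp [Equiv.Perm.mul_apply, Equiv.swap_apply_of_ne_of_ne hij hl.symm]
  have h1 : (N : ℝ) * ∑ π : Equiv.Perm (Fin N), t (π i) = - c := by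
    rw [perm_sum_one t i, hs]; ring
  have hN : 2 ≤ N := by
    have := i.isLt; have := j.isLt
    have : (i : ℕ) ≠ j := fun h => hij (Fin.ext h)
    omega
  have h2 : ((N : ℝ) - 1) * S = - (∑ π : Equiv.Perm (Fin N), t (π i)) - c := by
    calc ((N : ℝ) - 1) * S
        = ∑ l ∈ univ.erase i, ∑ π : Equiv.Perm (Fin N), t (π i) * t (π l) := by
          rw [Finset.sum_congr rfl (fun l hl => h l (Finset.ne_of_mem_erase hl))]
          rw [Finset.sum_const, Finset.card_erase_of_mem (Finset.mem_univ i), nsmul_eq_mul,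
            Finset.card_univ, Fintype.card_fin, Nat.cast_sub (by omega)]
          push_cast; ring
      _ = ∑ π : Equiv.Perm (Fin N), ∑ l ∈ univ.erase i, t (π i) * t (π l) := Finset.sum_comm
      _ = ∑ π : Equiv.Perm (Fin N), (- t (π i) - 1) := by
          refine Finset.sum_congr rfl (fun π _ => ?_)
          rw [← Finset.mul_sum, Finset.sum_erase_eq_sub (Finset.mem_univ i),
            Equiv.sum_comp π t, hs]
          have := ht (π i)
          linarith
      _ = - (∑ π : Equiv.Perm (Fin N), t (π i)) - c := by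
          rw [Finset.sum_sub_distrib, Finset.sum_neg_distrib]
          simp [hc]
  have hN' : (2 : ℝ) ≤ N := by exact_mod_cast hN
  have h3 : ((N : ℝ) - 1) * ((N : ℝ) * S) = ((N : ℝ) - 1) * (- c) := by
    calc ((N : ℝ) - 1) * ((N : ℝ) * S) = (N : ℝ) * (((N : ℝ) - 1) * S) := by ring
      _ = (N : ℝ) * (- (∑ π : Equiv.Perm (Fin N), t (π i)) - c) := by rw [h2]
      _ = - ((N : ℝ) * ∑ π : Equiv.Perm (Fin N), t (π i)) - N * c := by ring
      _ = c - N * c := by rw [h1]; ring
      _ = _ := by ring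
  exact mul_left_cancel₀ (by linarith) h3

/-- signs with `k - 1` pluses and `k` minuses -/
def slotSign (k N : ℕ) (i : Fin N) : ℝ := if i.val < k - 1 then 1 else -1

theorem slotSign_sq (k N : ℕ) (i : Fin N) : slotSign k N i * slotSign k N i = 1 := by
  unfold slotSign; split_ifs <;> norm_num

theorem slotSign_or (k N : ℕ) (i : Fin N) : slotSign k N i = 1 ∨ slotSign k N i = -1 := by
  unfold slotSign; split_ifs <;> simp

theorem slotSign_sum (k : ℕ) (hk : 1 ≤ k) : ∑ i, slotSign k (2 * k - 1) i = -1 := by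
  unfold slotSign
  have : ∀ i : Fin (2 * k - 1), (if i.val < k - 1 then (1 : ℝ) else -1) =
      2 * (if i.val < k - 1 then (1 : ℝ) else 0) - 1 := by
    intro i; split_ifs <;> norm_num
  rw [Finset.sum_congr rfl (fun i _ => this i), Finset.sum_sub_distrib, ← Finset.mul_sum]
  rw [Fin.sum_univ_eq_sum_range (fun i => if i < k - 1 then (1 : ℝ) else 0) (2 * k - 1)]
  rw [← Finset.sum_filter]
  have e : (Finset.range (2 * k - 1)).filter (fun i => i < k - 1) = Finset.range (k - 1) := by
    ext i; simp only [Finset.mem_filter, Finset.mem_range]; omega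
  rw [e]
  simp only [Finset.sum_const, Finset.card_range, nsmul_eq_mul, mul_one, Finset.card_univ,
    Fintype.card_fin]
  rw [Nat.cast_sub hk, Nat.cast_sub (by omega)]
  push_cast; ring

variable {V : Type} [DecidableEq V]

/-- the slot distribution on a small set -/
theorem Has.slots (a : V → V → ℝ) (b : V → ℝ) (H : Finset V) (k : ℕ) (hk : 1 ≤ k)
    (hH : H.card ≤ 2 * k - 1) (ha : ∀ v, a v v = 0) (Δ : ℝ) (hΔ : ∑ v ∈ H, |b v| ≤ Δ) :
    Has a b H (fun _ => -1 / (2 * (k : ℝ) - 1))
      ((∑ u ∈ H, ∑ v ∈ H, a u v) / (2 * (k : ℝ) - 1)) ((2 * Δ) ^ 2) := by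
  have hNpos : 0 < 2 * k - 1 := by omega
  have hNr : ((2 * k - 1 : ℕ) : ℝ) = 2 * (k : ℝ) - 1 := by
    rw [Nat.cast_sub (by omega)]; push_cast; ring
  have hk1 : (1 : ℝ) ≤ k := by exact_mod_cast hk
  have hN1 : (1 : ℝ) ≤ 2 * (k : ℝ) - 1 := by linarith
  obtain ⟨f, hf⟩ : ∃ f : V → Fin (2 * k - 1), ∀ u ∈ H, ∀ v ∈ H, f u = f v → u = v := by
    refine ⟨fun v => if h : v ∈ H then Fin.castLE hH (H.equivFin ⟨v, h⟩) else ⟨0, hNpos⟩, ?_⟩
    intro u hu v hv huv
    simp only [hu, hv, dif_pos] at huv
    have := (Fin.castLE_injective hH) huv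
    have := H.equivFin.injective this
    exact congrArg Subtype.val this
  set c : ℝ := (Fintype.card (Equiv.Perm (Fin (2 * k - 1))) : ℝ) with hc
  have hcpos : 0 ≤ c := by positivity
  have hmean : ∀ i : Fin (2 * k - 1), ∑ π : Equiv.Perm (Fin (2 * k - 1)),
      slotSign k (2 * k - 1) (π i) = c * (-1 / (2 * (k : ℝ) - 1)) := by
    intro i
    have := perm_sum_one (slotSign k (2 * k - 1)) i
    rw [slotSign_sum k hk, hNr] at this
    field_simp
    linarith
  have hpair : ∀ i j : Fin (2 * k - 1), i ≠ j → ∑ π : Equiv.Perm (Fin (2 * k - 1)),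
      slotSign k (2 * k - 1) (π i) * slotSign k (2 * k - 1) (π j) =
        c * (-1 / (2 * (k : ℝ) - 1)) := by
    intro i j hij
    have := perm_sum_two (slotSign k (2 * k - 1)) (slotSign_sq k _) (slotSign_sum k hk) i j hij
    rw [hNr] at this
    field_simp
    linarith
  refine ⟨Equiv.Perm (Fin (2 * k - 1)), inferInstance, inferInstance,
    fun π v => slotSign k (2 * k - 1) (π (f v)), ?_, ?_, ?_, ?_⟩
  · intro π v; exact slotSign_or _ _ _
  · intro v _; exact hmean (f v)
  · have e : ∑ π : Equiv.Perm (Fin (2 * k - 1)),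
        QF a H (fun v => slotSign k (2 * k - 1) (π (f v))) =
        ∑ u ∈ H, ∑ v ∈ H, a u v * (c * (-1 / (2 * (k : ℝ) - 1))) := by
      unfold QF
      rw [Finset.sum_comm]
      refine Finset.sum_congr rfl (fun u hu => ?_)
      rw [Finset.sum_comm]
      refine Finset.sum_congr rfl (fun v hv => ?_)
      rw [← Finset.mul_sum]
      by_cases huv : u = v
      · subst huv; rw [ha u]; simp
      · rw [hpair (f u) (f v) (fun h => huv (hf u hu v hv h))]
    rw [e]
    apply le_of_eq
    simp_rw [← Finset.sum_mul]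
    ring
  · have hb : ∀ π : Equiv.Perm (Fin (2 * k - 1)),
        (∑ v ∈ H, b v * (slotSign k (2 * k - 1) (π (f v)) - -1 / (2 * (k : ℝ) - 1))) ^ 2 ≤
        (2 * Δ) ^ 2 := by
      intro π
      apply sq_le_sq'
      · have h1 : |∑ v ∈ H, b v * (slotSign k (2 * k - 1) (π (f v)) - -1 / (2 * (k : ℝ) - 1))| ≤
            2 * Δ := by
          refine (Finset.abs_sum_le_sum_abs _ _).trans ?_
          calc ∑ v ∈ H, |b v * (slotSign k (2 * k - 1) (π (f v)) - -1 / (2 * (k : ℝ) - 1))|
              ≤ ∑ v ∈ H, |b v| * 2 := by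
                refine Finset.sum_le_sum (fun v _ => ?_)
                rw [abs_mul]
                refine mul_le_mul_of_nonneg_left ?_ (abs_nonneg _)
                have h2 : 0 ≤ 1 / (2 * (k : ℝ) - 1) := by positivity
                have h3 : 1 / (2 * (k : ℝ) - 1) ≤ 1 := by
                  rw [div_le_one (by linarith)]; exact hN1
                have h4 : -1 / (2 * (k : ℝ) - 1) = - (1 / (2 * (k : ℝ) - 1)) := by ring
                rw [h4, abs_le]
                rcases slotSign_or k (2 * k - 1) (π (f v)) with h | h <;> rw [h] <;>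
                  constructor <;> linarith
            _ = (∑ v ∈ H, |b v|) * 2 := by rw [Finset.sum_mul]
            _ ≤ 2 * Δ := by linarith
        linarith [(abs_le.mp h1).1]
      · have h1 : |∑ v ∈ H, b v * (slotSign k (2 * k - 1) (π (f v)) - -1 / (2 * (k : ℝ) - 1))| ≤
            2 * Δ := by
          refine (Finset.abs_sum_le_sum_abs _ _).trans ?_
          calc ∑ v ∈ H, |b v * (slotSign k (2 * k - 1) (π (f v)) - -1 / (2 * (k : ℝ) - 1))|
              ≤ ∑ v ∈ H, |b v| * 2 := by
                refine Finset.sum_le_sum (fun v _ => ?_)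
                rw [abs_mul]
                refine mul_le_mul_of_nonneg_left ?_ (abs_nonneg _)
                have h2 : 0 ≤ 1 / (2 * (k : ℝ) - 1) := by positivity
                have h3 : 1 / (2 * (k : ℝ) - 1) ≤ 1 := by
                  rw [div_le_one (by linarith)]; exact hN1
                have h4 : -1 / (2 * (k : ℝ) - 1) = - (1 / (2 * (k : ℝ) - 1)) := by ring
                rw [h4, abs_le]
                rcases slotSign_or k (2 * k - 1) (π (f v)) with h | h <;> rw [h] <;>
                  constructor <;> linarith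
            _ = (∑ v ∈ H, |b v|) * 2 := by rw [Finset.sum_mul]
            _ ≤ 2 * Δ := by linarith
        linarith [(abs_le.mp h1).2]
    refine (Finset.sum_le_sum (fun π _ => hb π)).trans ?_
    rw [Finset.sum_const, Finset.card_univ, nsmul_eq_mul]

end Pool.Agent.Judicious
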