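import Pool.Agent.Lib_helper68.LlsStar
import Pool.Agent.Lib_helper68.LlsSlots

namespace Pool.Agent.Judicious

open Finset

variable {V : Type} [DecidableEq V]

theorem Cl.trans {a : V → V → ℝ} {T T1 T2 : Finset V} (h : Cl a T T1) (h' : Cl a T1 T2) :
    Cl a T T2 := by
  refine ⟨h'.1.trans h.1, ?_⟩
  intro u hu v hv
  rw [Finset.mem_sdiff] at hv
  by_cases hv2 : v ∈ T1
  · exact h'.2 u hu v (Finset.mem_sdiff.mpr ⟨hv2, hv.2⟩)
  · exact h.2 u (h'.1 hu) v (Finset.mem_sdiff.mpr ⟨hv.1, hv2⟩)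

theorem Cl.compl {a : V → V → ℝ} {T T1 : Finset V} (h : Cl a T T1) : Cl a T (T \ T1) := by
  refine ⟨Finset.sdiff_subset, ?_⟩
  intro u hu v hv
  rw [Finset.mem_sdiff, Finset.mem_sdiff] at hv
  have hv1 : v ∈ T1 := by
    by_contra hcon
    exact hv.2 ⟨hv.1, hcon⟩
  have := h.2 v hv1 u hu
  exact ⟨this.2, this.1⟩

variable [Fintype V]

/-- the linear functional of one vertex -/
def lin (a : V → V → ℝ) (w : V) (σ : ℝ) (v : V) (x : ℝ) : ℝ :=
  σ * (a w v - a v w) + (σ * (a w v + a v w) + (∑ u, a v u - ∑ u, a u v)) * x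

theorem sum_split_out {a : V → V → ℝ} {R H : Finset V} (hH : Cl a R H) {v : V} (hv : v ∈ H) :
    ∑ u, a v u = ∑ u ∈ H, a v u + ∑ u ∈ Rᶜ, a v u := by
  rw [← Finset.sum_add_sum_compl R (fun u => a v u)]
  congr 1
  rw [← Finset.sum_sdiff hH.1]
  rw [Finset.sum_eq_zero (fun u hu => (hH.2 v hv u hu).1), zero_add]

theorem sum_split_in {a : V → V → ℝ} {R H : Finset V} (hH : Cl a R H) {v : V} (hv : v ∈ H) :
    ∑ u, a u v = ∑ u ∈ H, a u v + ∑ u ∈ Rᶜ, a u v := by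
  rw [← Finset.sum_add_sum_compl R (fun u => a u v)]
  congr 1
  rw [← Finset.sum_sdiff hH.1]
  rw [Finset.sum_eq_zero (fun u hu => (hH.2 v hv u hu).2), zero_add]

theorem comp_one {a : V → V → ℝ} {R : Finset V} {κ τ ρ : ℝ} (w : V) (σ : ℝ)
    (hσ : σ = 1 ∨ σ = -1) (k : ℕ) (hk : 1 ≤ k)
    (h : Ctx a (fun v => ∑ u, a v u - ∑ u, a u v) (fun v => ∑ u, a v u + ∑ u, a u v) R κ τ ρ)
    (hout : ∀ v, (k : ℝ) ≤ ∑ u, a v u) (hρ : 4 * (2 * (k : ℝ) - 1) * ρ ≤ τ)
    (H : Finset V) (hH : Cl a R H) (hc : Conn a H) :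
    ∃ (m : V → ℝ) (G : ℝ), Has a (fun v => ∑ u, a v u - ∑ u, a u v) H m G
        (τ * ∑ v ∈ H, (∑ u, a v u + ∑ u, a u v)) ∧
      ∑ v ∈ H, lin a w σ v (m v) - G ≤
        (∑ v ∈ H, (∑ u, a v u + ∑ c ∈ Rᶜ, a c v)) / (2 * (k : ℝ) - 1) +
          κ * ∑ v ∈ H, (∑ u, a v u + ∑ u, a u v) ∧
      - ∑ v ∈ H, (∑ u, a v u - ∑ u, a u v) * m v ≤
        (∑ v ∈ H, ∑ c ∈ Rᶜ, a v c) / (2 * (k : ℝ) - 1) := by
  have hk1 : (1 : ℝ) ≤ k := by exact_mod_cast hk
  have hN1 : (1 : ℝ) ≤ 2 * (k : ℝ) - 1 := by linarith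
  have hN0 : (0 : ℝ) < 2 * (k : ℝ) - 1 := by linarith
  have hHR : H ⊆ R := hH.1
  set N : ℝ := 2 * (k : ℝ) - 1 with hN
  set EH : ℝ := ∑ u ∈ H, ∑ v ∈ H, a u v with hEH
  set ov : ℝ := ∑ v ∈ H, a w v with hov
  set iv : ℝ := ∑ v ∈ H, a v w with hiv
  set OH : ℝ := ∑ v ∈ H, ∑ c ∈ Rᶜ, a c v with hOH
  set WH : ℝ := ∑ v ∈ H, ∑ c ∈ Rᶜ, a v c with hWH
  set dH : ℝ := ∑ v ∈ H, ∑ u, a v u with hdH
  set IH : ℝ := ∑ v ∈ H, ∑ u, a u v with hIH
  have a0 := h.a0
  have a1 : ∀ u v, a u v ≤ 1 := by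
    intro u v; rcases h.a01 u v with h | h <;> rw [h] <;> norm_num
  have hdE : dH = EH + WH := by
    rw [hdH, hEH, hWH, ← Finset.sum_add_distrib]
    exact Finset.sum_congr rfl (fun v hv => sum_split_out hH hv)
  have hIE : IH = EH + OH := by
    have e : EH = ∑ v ∈ H, ∑ u ∈ H, a u v := by rw [hEH, Finset.sum_comm]
    rw [hIH, e, hOH, ← Finset.sum_add_distrib]
    exact Finset.sum_congr rfl (fun v hv => sum_split_in hH hv)
  have hdk : (k : ℝ) * H.card ≤ dH := by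
    have : ∑ v ∈ H, (k : ℝ) ≤ dH := Finset.sum_le_sum (fun v _ => hout v)
    rw [Finset.sum_const, nsmul_eq_mul] at this
    linarith
  have hov0 : 0 ≤ ov := Finset.sum_nonneg (fun v _ => a0 w v)
  have hiv0 : 0 ≤ iv := Finset.sum_nonneg (fun v _ => a0 v w)
  have hov1 : ov ≤ H.card := by
    calc ov ≤ ∑ v ∈ H, (1 : ℝ) := Finset.sum_le_sum (fun v _ => a1 w v)
      _ = _ := by simp
  have hiv1 : iv ≤ H.card := by
    calc iv ≤ ∑ v ∈ H, (1 : ℝ) := Finset.sum_le_sum (fun v _ => a1 v w)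
      _ = _ := by simp
  have hOH0 : 0 ≤ OH := Finset.sum_nonneg (fun v _ => Finset.sum_nonneg (fun c _ => a0 c v))
  have hWH0 : 0 ≤ WH := Finset.sum_nonneg (fun v _ => Finset.sum_nonneg (fun c _ => a0 v c))
  have hEH0 : 0 ≤ EH := Finset.sum_nonneg (fun v _ => Finset.sum_nonneg (fun c _ => a0 v c))
  have hDeg0 := h.dsum0 H hHR
  have hlin : ∀ x : ℝ, ∑ v ∈ H, lin a w σ v x =
      σ * (ov - iv) + (σ * (ov + iv) + (dH - IH)) * x := by
    intro x
    unfold lin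
    rw [Finset.sum_add_distrib, ← Finset.mul_sum, ← Finset.sum_mul, Finset.sum_add_distrib,
      ← Finset.mul_sum, Finset.sum_sub_distrib, Finset.sum_add_distrib, Finset.sum_sub_distrib]
  have hbx : ∀ x : ℝ, ∑ v ∈ H, (∑ u, a v u - ∑ u, a u v) * x = (dH - IH) * x := by
    intro x
    rw [← Finset.sum_mul, Finset.sum_sub_distrib]
  have hR1 : ∑ v ∈ H, (∑ u, a v u + ∑ c ∈ Rᶜ, a c v) = dH + OH := by
    rw [Finset.sum_add_distrib]
  have hκD := mul_nonneg h.κ0 hDeg0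
  rcases Nat.lt_or_ge (2 * k - 1) H.card with hbig | hsmall
  · -- large component
    refine ⟨fun _ => 0, _, h.large H hHR hc, ?_, ?_⟩
    · rw [hlin 0, hR1, mul_zero, add_zero]
      have hh : N ≤ (H.card : ℝ) := by
        have : ((2 * k - 1 : ℕ) : ℝ) ≤ H.card := by exact_mod_cast hbig.le
        rw [Nat.cast_sub (by omega)] at this
        push_cast at this
        rw [hN]; exact this
      have h1 : σ * (ov - iv) ≤ H.card := by
        rcases hσ with h | h <;> rw [h] <;> linarith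
      have h2 : (H.card : ℝ) - ((H.card : ℝ) - 1) / 2 ≤ (dH + OH) / N := by
        rw [le_div_iff₀ hN0]
        nlinarith
      linarith
    · rw [hbx 0, mul_zero, neg_zero]
      positivity
  · -- small component
    have hD : ∑ v ∈ H, |∑ u, a v u - ∑ u, a u v| ≤ ∑ v ∈ H, (∑ u, a v u + ∑ u, a u v) :=
      Finset.sum_le_sum (fun v hv => h.bd v (hHR hv))
    have hs := Has.slots a (fun v => ∑ u, a v u - ∑ u, a u v) H k hk hsmall h.loop _ hD
    refine ⟨fun _ => -1 / (2 * (k : ℝ) - 1), _, hs.mono le_rfl ?_, ?_, ?_⟩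
    · have hDle : ∑ v ∈ H, (∑ u, a v u + ∑ u, a u v) ≤ (2 * (k : ℝ) - 1) * ρ := by
        have h1 : ∑ v ∈ H, (∑ u, a v u + ∑ u, a u v) ≤ ∑ v ∈ H, ρ :=
          Finset.sum_le_sum (fun v hv => h.dρ v (hHR hv))
        rw [Finset.sum_const, nsmul_eq_mul] at h1
        have h2 : (H.card : ℝ) ≤ 2 * (k : ℝ) - 1 := by
          have : (H.card : ℝ) ≤ ((2 * k - 1 : ℕ) : ℝ) := by exact_mod_cast hsmall
          rw [Nat.cast_sub (by omega)] at this
          push_cast at this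
          exact this
        have hρ0 : 0 ≤ ρ := by
          obtain ⟨v, hv⟩ := hc.1
          exact (h.d0 v (hHR hv)).trans (h.dρ v (hHR hv))
        exact h1.trans (mul_le_mul_of_nonneg_right h2 hρ0)
      have h4 : 4 * ∑ v ∈ H, (∑ u, a v u + ∑ u, a u v) ≤ τ := by linarith
      nlinarith
    · rw [hlin, hR1, ← hN]
      have h2 : σ * ((N - 1) * ov - (N + 1) * iv) ≤ 2 * dH := by
        have e1 : N - 1 = 2 * ((k : ℝ) - 1) := by rw [hN]; ring
        have e2 : N + 1 = 2 * (k : ℝ) := by rw [hN]; ring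
        rw [e1, e2]
        have hc0 : (0 : ℝ) ≤ H.card := by positivity
        have t1 : ((k : ℝ) - 1) * ov ≤ dH := by nlinarith
        have t2 : (k : ℝ) * iv ≤ dH := by nlinarith
        have t3 : 0 ≤ (k : ℝ) * iv := by positivity
        have t4 : 0 ≤ ((k : ℝ) - 1) * ov := mul_nonneg (by linarith) hov0
        rcases hσ with h | h <;> rw [h] <;> linarith
      have h3 : σ * (ov - iv) + (σ * (ov + iv) + (dH - IH)) * (-1 / N) - EH / N =
          (σ * ((N - 1) * ov - (N + 1) * iv) - dH + OH) / N := by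
        rw [hIE]; field_simp; ring
      rw [h3]
      have h5 : (σ * ((N - 1) * ov - (N + 1) * iv) - dH + OH) / N ≤ (dH + OH) / N := by
        apply div_le_div_of_nonneg_right _ hN0.le
        linarith
      linarith
    · rw [hbx, ← hN, hIE, hdE]
      have h3 : -((EH + WH - (EH + OH)) * (-1 / N)) = (WH - OH) / N := by
        field_simp
        ring
      rw [h3]
      apply div_le_div_of_nonneg_right _ hN0.le
      linarith

theorem comp_all {a : V → V → ℝ} {R : Finset V} {κ τ ρ : ℝ} (w : V) (σ : ℝ)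
    (hσ : σ = 1 ∨ σ = -1) (k : ℕ) (hk : 1 ≤ k)
    (h : Ctx a (fun v => ∑ u, a v u - ∑ u, a u v) (fun v => ∑ u, a v u + ∑ u, a u v) R κ τ ρ)
    (hout : ∀ v, (k : ℝ) ≤ ∑ u, a v u) (hρ : 4 * (2 * (k : ℝ) - 1) * ρ ≤ τ) :
    ∀ (n : ℕ) (P : Finset V), P.card = n → Cl a R P →
    ∃ (m : V → ℝ) (G : ℝ), Has a (fun v => ∑ u, a v u - ∑ u, a u v) P m G
        (τ * ∑ v ∈ P, (∑ u, a v u + ∑ u, a u v)) ∧
      ∑ v ∈ P, lin a w σ v (m v) - G ≤
        (∑ v ∈ P, (∑ u, a v u + ∑ c ∈ Rᶜ, a c v)) / (2 * (k : ℝ) - 1) +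
          κ * ∑ v ∈ P, (∑ u, a v u + ∑ u, a u v) ∧
      - ∑ v ∈ P, (∑ u, a v u - ∑ u, a u v) * m v ≤
        (∑ v ∈ P, ∑ c ∈ Rᶜ, a v c) / (2 * (k : ℝ) - 1) := by
  intro n
  induction n using Nat.strong_induction_on with
  | _ n ih =>
    intro P hPn hP
    rcases P.eq_empty_or_nonempty with hE | hE
    · subst hE
      refine ⟨fun _ => 0, 0, ?_, ?_, ?_⟩
      · simpa using Has.empty a (fun v => ∑ u, a v u - ∑ u, a u v) (fun _ => 0)
      · simp
      · simp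
    · obtain ⟨T1, h1, h2⟩ := exists_conn a n P hPn hE
      have hT1pos : 0 < T1.card := Finset.card_pos.mpr h2.1
      have hT1le : T1.card ≤ P.card := Finset.card_le_card h1.1
      have hcard : (P \ T1).card = P.card - T1.card := Finset.card_sdiff_of_subset h1.1
      obtain ⟨m1, G1, p1, p2, p3⟩ := comp_one w σ hσ k hk h hout hρ T1 (hP.trans h1) h2
      obtain ⟨m2, G2, q1, q2, q3⟩ := ih (P \ T1).card (by omega) (P \ T1) rfl
        (hP.trans h1.compl)
      have hdis : Disjoint T1 (P \ T1) := Finset.disjoint_sdiff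
      have hun : T1 ∪ (P \ T1) = P := Finset.union_sdiff_of_subset h1.1
      set m : V → ℝ := fun v => if v ∈ T1 then m1 v else m2 v with hm
      have hm1 : ∀ v ∈ T1, m1 v = m v := by intro v hv; simp [hm, hv]
      have hm2 : ∀ v ∈ P \ T1, m2 v = m v := by
        intro v hv; simp [hm, (Finset.mem_sdiff.mp hv).2]
      have hh := Has.union hdis (p1.congr hm1) (q1.congr hm2) (by
        intro u hu v hv
        have := h1.2 u hu v hv
        rw [this.1, this.2]; ring)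
      rw [hun] at hh
      have hs : ∀ f : V → ℝ, ∑ v ∈ P, f v = ∑ v ∈ T1, f v + ∑ v ∈ P \ T1, f v := by
        intro f
        rw [← Finset.sum_union hdis, hun]
      refine ⟨m, G1 + G2, ?_, ?_, ?_⟩
      · refine hh.mono le_rfl ?_
        rw [hs (fun v => (∑ u, a v u + ∑ u, a u v))]
        linarith
      · rw [hs (fun v => lin a w σ v (m v)), hs (fun v => (∑ u, a v u + ∑ c ∈ Rᶜ, a c v)),
          hs (fun v => (∑ u, a v u + ∑ u, a u v))]
        have e1 : ∑ v ∈ T1, lin a w σ v (m v) = ∑ v ∈ T1, lin a w σ v (m1 v) :=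
          Finset.sum_congr rfl (fun v hv => by rw [hm1 v hv])
        have e2 : ∑ v ∈ P \ T1, lin a w σ v (m v) = ∑ v ∈ P \ T1, lin a w σ v (m2 v) :=
          Finset.sum_congr rfl (fun v hv => by rw [hm2 v hv])
        rw [e1, e2, add_div, mul_add]
        linarith
      · rw [hs (fun v => (∑ u, a v u - ∑ u, a u v) * m v), hs (fun v => ∑ c ∈ Rᶜ, a v c)]
        have e1 : ∑ v ∈ T1, (∑ u, a v u - ∑ u, a u v) * m v =
            ∑ v ∈ T1, (∑ u, a v u - ∑ u, a u v) * m1 v :=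
          Finset.sum_congr rfl (fun v hv => by rw [hm1 v hv])
        have e2 : ∑ v ∈ P \ T1, (∑ u, a v u - ∑ u, a u v) * m v =
            ∑ v ∈ P \ T1, (∑ u, a v u - ∑ u, a u v) * m2 v :=
          Finset.sum_congr rfl (fun v hv => by rw [hm2 v hv])
        rw [e1, e2, add_div]
        linarith

end Pool.Agent.Judicious
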