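import Pool.Agent.Lib_helper68.LlsMain
import Pool.Agent.Lib_helper68.JudiciousUpper

namespace Pool.Agent.Judicious

open Finset

variable {V : Type} [Fintype V] [DecidableEq V]

theorem sign_key (D : Finset (V × V)) (s : V → ℤ) (hs : ∀ v, s v = 1 ∨ s v = -1) :
    (D.card : ℤ) - ∑ p ∈ D, s p.1 * s p.2 - |∑ v, s v * imb D v| ≤ 4 * best D := by
  have h1 := cut_plus D s hs
  have h2 := cut_minus D s hs
  have h3 : (min (cut D (plusSet s) (plusSet s)ᶜ)
      (cut D (plusSet s)ᶜ (plusSet s)) : ℕ) ≤ best D := le_best D _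
  have h4 : ((min (cut D (plusSet s) (plusSet s)ᶜ)
      (cut D (plusSet s)ᶜ (plusSet s)) : ℕ) : ℤ) ≤ (best D : ℤ) := by exact_mod_cast h3
  rcases le_total (cut D (plusSet s) (plusSet s)ᶜ)
      (cut D (plusSet s)ᶜ (plusSet s)) with h | h
  · rw [min_eq_left h] at h4
    linarith [neg_abs_le (∑ v, s v * imb D v)]
  · rw [min_eq_right h] at h4
    linarith [le_abs_self (∑ v, s v * imb D v)]

/-- the 0/1 matrix of a digraph -/
def mat (D : Finset (V × V)) (u v : V) : ℝ := (dd D u v : ℝ)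

omit [Fintype V] in
theorem mat_or (D : Finset (V × V)) (u v : V) : mat D u v = 0 ∨ mat D u v = 1 := by
  unfold mat dd; split_ifs <;> simp

omit [Fintype V] in
theorem mat_loop (D : Finset (V × V)) (hD : ∀ p ∈ D, p.1 ≠ p.2) (v : V) : mat D v v = 0 := by
  unfold mat dd
  rw [if_neg (fun h => hD (v, v) h rfl)]; simp

theorem mat_out (D : Finset (V × V)) (v : V) : ∑ u, mat D v u = (outdeg D v : ℝ) := by
  rw [outdeg_eq_sum]; push_cast; rfl

theorem mat_in (D : Finset (V × V)) (v : V) : ∑ u, mat D u v = (indeg D v : ℝ) := by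
  rw [indeg_eq_sum]; push_cast; rfl

theorem mat_card (D : Finset (V × V)) : ∑ u, ∑ v, mat D u v = (D.card : ℝ) := by
  rw [card_eq_sum_dd]; push_cast; rfl

theorem mat_QF (D : Finset (V × V)) (s : V → ℝ) :
    QF (mat D) Finset.univ s = ∑ p ∈ D, s p.1 * s p.2 := by
  unfold QF mat dd
  rw [← Finset.sum_product' (s := Finset.univ) (t := Finset.univ)
    (f := fun u v => (((if (u, v) ∈ D then 1 else 0 : ℕ) : ℝ)) * (s u * s v))]
  have : D = (Finset.univ ×ˢ Finset.univ : Finset (V × V)).filter (fun p => p ∈ D) := by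
    ext p; simp
  conv_rhs => rw [this, Finset.sum_filter]
  refine Finset.sum_congr rfl (fun p _ => ?_)
  split_ifs <;> simp

theorem lls_bound (D : Finset (V × V)) (hD : ∀ p ∈ D, p.1 ≠ p.2) (k : ℕ) (hk : 1 ≤ k)
    (hout : ∀ v, k ≤ outdeg D v) (η : ℝ) (hη : 0 < η) (hη1 : 4 * (2 * (k : ℝ) - 1) * η ≤ 1) :
    (D.card : ℝ) ≤ 4 * best D + D.card / (2 * (k : ℝ) - 1) + 4 * η * D.card +
      2 * (1 / η ^ 3) ^ 2 := by
  have hk1 : (1 : ℝ) ≤ k := by exact_mod_cast hk
  have hN0 : (0 : ℝ) < 2 * (k : ℝ) - 1 := by linarith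
  have he0 : (0 : ℝ) ≤ D.card := by positivity
  rcases isEmpty_or_nonempty V with hV | hV
  · have : D = ∅ := by
      ext p; exact (hV.false p.1).elim
    rw [this]
    simp only [Finset.card_empty, Nat.cast_zero, zero_div, mul_zero, add_zero]
    positivity
  obtain ⟨w, _, hw⟩ := Finset.exists_max_image (Finset.univ : Finset V)
    (fun v => |((outdeg D v : ℝ)) - indeg D v|) Finset.univ_nonempty
  have hw' : ∀ v, |(outdeg D v : ℝ) - indeg D v| ≤ |(outdeg D w : ℝ) - indeg D w| :=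
    fun v => hw v (Finset.mem_univ v)
  rcases le_or_gt (|(outdeg D w : ℝ) - indeg D w|) ((D.card : ℝ) / (2 * (k : ℝ) - 1)) with h | h
  · have hM : ∀ v, |imb D v| ≤ ((imb D w).natAbs : ℕ) := by
      intro v
      have h1 := hw' v
      have h2 : (|imb D v| : ℝ) ≤ (|imb D w| : ℝ) := by
        unfold imb; push_cast; exact h1
      have h3 : |imb D v| ≤ |imb D w| := by exact_mod_cast h2
      rw [Int.natCast_natAbs]; exact h3
    have h4 := imb_bound D hD _ hM
    have h5 : (D.card : ℝ) ≤ 4 * best D + ((imb D w).natAbs : ℕ) := by exact_mod_cast h4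
    have h6 : (((imb D w).natAbs : ℕ) : ℝ) = |(outdeg D w : ℝ) - indeg D w| := by
      rw [Nat.cast_natAbs]; unfold imb; push_cast; rfl
    have h7 : 0 ≤ 4 * η * (D.card : ℝ) := by positivity
    have h8 : 0 ≤ 2 * (1 / η ^ 3) ^ 2 := by positivity
    rw [h6] at h5
    linarith
  · obtain ⟨s, hs, hs2⟩ := lls_core (mat D) (mat_or D) (mat_loop D hD) k hk (by
      intro v; rw [mat_out]; exact_mod_cast hout v) η hη hη1 w (by
      intro v; rw [mat_out, mat_in, mat_out, mat_in]; exact hw' v) (by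
      rw [mat_card, mat_out, mat_in]; exact h)
    rw [mat_card, mat_QF] at hs2
    set t : V → ℤ := fun v => if s v = 1 then 1 else -1 with ht
    have hts : ∀ v, ((t v : ℤ) : ℝ) = s v := by
      intro v
      rcases hs v with h' | h'
      · simp [ht, h']
      · have : ¬ ((-1 : ℝ) = 1) := by norm_num
        simp [ht, h', this]
    have ht1 : ∀ v, t v = 1 ∨ t v = -1 := by
      intro v
      by_cases h' : s v = 1
      · left; simp [ht, h']
      · right; simp [ht, h']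
    have hkey := sign_key D t ht1
    have hkey' : (D.card : ℝ) - ∑ p ∈ D, (t p.1 : ℝ) * t p.2 -
        |∑ v, (t v : ℝ) * imb D v| ≤ 4 * best D := by exact_mod_cast hkey
    have e1 : ∑ p ∈ D, (t p.1 : ℝ) * t p.2 = ∑ p ∈ D, s p.1 * s p.2 :=
      Finset.sum_congr rfl (fun p _ => by rw [hts, hts])
    have e2 : ∑ v, (t v : ℝ) * imb D v = ∑ v, (∑ u, mat D v u - ∑ u, mat D u v) * s v := by
      refine Finset.sum_congr rfl (fun v _ => ?_)
      rw [hts, mat_out, mat_in]; unfold imb; push_cast; ring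
    rw [e1, e2] at hkey'
    linarith

theorem lls_quant (D : Finset (V × V)) (hD : ∀ p ∈ D, p.1 ≠ p.2) (k : ℕ) (hk : 1 ≤ k)
    (hout : ∀ v, k ≤ outdeg D v) :
    ((k : ℝ) - 1) / (2 * (2 * k - 1)) * D.card - (2 * k + 1) * (D.card : ℝ) ^ (6 / 7 : ℝ) ≤
      best D := by
  have hk1 : (1 : ℝ) ≤ k := by exact_mod_cast hk
  set N : ℝ := 2 * (k : ℝ) - 1 with hN
  have hN1 : (1 : ℝ) ≤ N := by rw [hN]; linarith
  have hN0 : (0 : ℝ) < N := by linarith
  set e : ℝ := (D.card : ℝ) with he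
  have he0 : 0 ≤ e := by positivity
  have hb0 : (0 : ℝ) ≤ best D := by positivity
  have hrew : ((k : ℝ) - 1) / (2 * N) * e = (e - e / N) / 4 := by
    have : (k : ℝ) - 1 = (N - 1) / 2 := by rw [hN]; ring
    rw [this]; field_simp; ring
  rw [hrew]
  rcases he0.eq_or_lt with h0 | hpos
  · rw [← h0]
    have h1 : (0 : ℝ) ^ (6 / 7 : ℝ) = 0 := Real.zero_rpow (by norm_num)
    rw [h1]
    simpa using hb0
  · set x : ℝ := e ^ (1 / 7 : ℝ) with hx
    have hx0 : 0 < x := Real.rpow_pos_of_pos hpos _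
    have hx7 : x ^ 7 = e := by
      rw [hx, ← Real.rpow_natCast, ← Real.rpow_mul he0]
      norm_num
    have hx6 : e ^ (6 / 7 : ℝ) = x ^ 6 := by
      rw [hx, ← Real.rpow_natCast, ← Real.rpow_mul he0]
      norm_num
    rw [hx6]
    have hk2 : 2 * (k : ℝ) + 1 = N + 2 := by rw [hN]; ring
    rw [hk2]
    rcases le_or_gt (4 * N) x with hlarge | hsmall
    · have h1 := lls_bound D hD k hk hout (1 / x) (by positivity) (by
        rw [← hN, mul_one_div, div_le_one hx0]; exact hlarge)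
      rw [← hN, ← he] at h1
      have h2 : 4 * (1 / x) * e = 4 * x ^ 6 := by
        rw [← hx7]; field_simp
      have h3 : 2 * (1 / (1 / x) ^ 3) ^ 2 = 2 * x ^ 6 := by
        field_simp
      rw [h2, h3] at h1
      have h4 : 0 ≤ x ^ 6 := by positivity
      nlinarith
    · have h1 : e ≤ 4 * N * x ^ 6 := by
        calc e = x * x ^ 6 := by rw [← hx7]; ring
          _ ≤ 4 * N * x ^ 6 := mul_le_mul_of_nonneg_right hsmall.le (by positivity)
      have h2 : 0 ≤ e / N := by positivity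
      have h3 : 0 ≤ x ^ 6 := by positivity
      nlinarith

/-- The set of all ratios `max_{bipartitions} min(e(V₁,V₂), e(V₂,V₁)) / e(D)` for finite digraphs
`D` with minimum outdegree at least `k`, at least one edge, and at least `M` edges. -/
def ratiosFrom (k M : ℕ) : Set ℝ :=
  {r | ∃ (V : Type) (_ : Fintype V) (_ : DecidableEq V) (D : Finset (V × V)),
    (∀ p ∈ D, p.1 ≠ p.2) ∧ (∀ v, k ≤ outdeg D v) ∧ 1 ≤ D.card ∧ M ≤ D.card ∧
      r = (best D : ℝ) / D.card}

/-- The variant of the constant of the problem for digraphs with at least `M` edges. -/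
noncomputable def cFrom (k M : ℕ) : ℝ := sInf (ratiosFrom k M)

theorem ratiosFrom_bddBelow (k M : ℕ) : BddBelow (ratiosFrom k M) :=
  ⟨0, by rintro r ⟨V, _, _, D, _, _, _, _, rfl⟩; positivity⟩

theorem mem_ratiosFrom (j q M : ℕ) (hM : M ≤ q) :
    (best (exD j q) : ℝ) / (exD j q).card ∈ ratiosFrom (j + 1) M :=
  ⟨_, inferInstance, inferInstance, exD j q, exD_loopless j q, fun v => (outdeg_exD j q v).ge, by
    rw [card_exD]; exact Nat.succ_le_of_lt (by positivity), by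
    rw [card_exD]
    calc M ≤ q := hM
      _ ≤ (q + 1) * 1 + 1 := by omega
      _ ≤ (q + 1) * (2 * j + 1) + 1 :=
        Nat.add_le_add_right (Nat.mul_le_mul_left _ (by omega)) 1
      _ = 1 * ((q + 1) * (2 * j + 1) + 1) := (one_mul _).symm
      _ ≤ (j + 1) * ((q + 1) * (2 * j + 1) + 1) := Nat.mul_le_mul_right _ (by omega), rfl⟩

theorem cFrom_upper (k M : ℕ) (hk : 1 ≤ k) : cFrom k M ≤ ((k : ℝ) - 1) / (2 * (2 * k - 1)) := by
  obtain ⟨j, rfl⟩ : ∃ j, k = j + 1 := ⟨k - 1, by omega⟩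
  have hc : ∀ q : ℕ, M ≤ q →
      cFrom (j + 1) M * (2 * ((q + 1) * (2 * j + 1) + 1)) ≤ 2 + (q + 1) * j := by
    intro q hq
    have h1 : cFrom (j + 1) M ≤ (best (exD j q) : ℝ) / (exD j q).card :=
      csInf_le (ratiosFrom_bddBelow _ _) (mem_ratiosFrom j q M hq)
    have h2 : (2 * best (exD j q) : ℝ) ≤ 2 * (j + 1) + (q + 1) * ((j + 1) * j) := by
      exact_mod_cast best_exD j q
    have h3 : ((exD j q).card : ℝ) = (j + 1) * ((q + 1) * (2 * j + 1) + 1) := by
      exact_mod_cast card_exD j q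
    rw [h3] at h1
    have hpos : (0 : ℝ) < (j + 1) * ((q + 1) * (2 * j + 1) + 1) := by positivity
    rw [le_div_iff₀ hpos] at h1
    have hj : (0 : ℝ) < j + 1 := by positivity
    have h4 : (j + 1 : ℝ) * (cFrom (j + 1) M * (2 * ((q + 1) * (2 * j + 1) + 1))) ≤
        (j + 1 : ℝ) * (2 + (q + 1) * j) := by nlinarith
    exact le_of_mul_le_mul_left h4 hj
  have hc0 : 0 ≤ cFrom (j + 1) M := Real.sInf_nonneg (by
    rintro r ⟨V, _, _, D, _, _, _, _, rfl⟩; positivity)
  push_cast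
  have hden : (0 : ℝ) < 2 * (2 * ((j : ℝ) + 1) - 1) := by
    have : (0 : ℝ) ≤ j := by positivity
    linarith
  rw [le_div_iff₀ hden]
  by_contra hcon
  push Not at hcon
  set δ := cFrom (j + 1) M * (2 * (2 * ((j : ℝ) + 1) - 1)) - ((j : ℝ) + 1 - 1) with hδ
  have hδpos : 0 < δ := by rw [hδ]; linarith
  obtain ⟨q, hq⟩ := exists_nat_gt (2 / δ)
  rw [div_lt_iff₀ hδpos] at hq
  have h5 := hc (max q M) (le_max_right _ _)
  have h6 : (q : ℝ) ≤ ((max q M : ℕ) : ℝ) := by exact_mod_cast le_max_left q M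
  nlinarith

theorem ratiosFrom_nonempty (k M : ℕ) (hk : 1 ≤ k) : (ratiosFrom k M).Nonempty := by
  obtain ⟨j, rfl⟩ : ∃ j, k = j + 1 := ⟨k - 1, by omega⟩
  exact ⟨_, mem_ratiosFrom j M M le_rfl⟩

theorem cFrom_lower (k M : ℕ) (hk : 1 ≤ k) (hM : 1 ≤ M) :
    ((k : ℝ) - 1) / (2 * (2 * k - 1)) - (2 * k + 1) * (M : ℝ) ^ (-(1 / 7) : ℝ) ≤ cFrom k M := by
  refine le_csInf (ratiosFrom_nonempty k M hk) ?_
  rintro r ⟨V, _, _, D, hD, hout, hcard, hMD, rfl⟩
  have hpos : (0 : ℝ) < D.card := by exact_mod_cast hcard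
  have hMpos : (0 : ℝ) < M := by exact_mod_cast hM
  rw [le_div_iff₀ hpos]
  have h1 := lls_quant D hD k hk hout
  have h2 : (D.card : ℝ) ^ (-(1 / 7) : ℝ) ≤ (M : ℝ) ^ (-(1 / 7) : ℝ) :=
    Real.rpow_le_rpow_of_nonpos hMpos (by exact_mod_cast hMD) (by norm_num)
  have h3 : (D.card : ℝ) ^ (6 / 7 : ℝ) = (D.card : ℝ) ^ (-(1 / 7) : ℝ) * D.card := by
    rw [← Real.rpow_add_one hpos.ne']
    norm_num
  rw [h3] at h1
  have h4 : (2 * (k : ℝ) + 1) * ((D.card : ℝ) ^ (-(1 / 7) : ℝ) * D.card) ≤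
      (2 * (k : ℝ) + 1) * ((M : ℝ) ^ (-(1 / 7) : ℝ) * D.card) := by
    apply mul_le_mul_of_nonneg_left _ (by positivity)
    exact mul_le_mul_of_nonneg_right h2 hpos.le
  linarith

theorem cFrom_tendsto (k : ℕ) (hk : 1 ≤ k) :
    Filter.Tendsto (fun M => cFrom k M) Filter.atTop
      (nhds (((k : ℝ) - 1) / (2 * (2 * k - 1)))) := by
  have h1 : Filter.Tendsto (fun M : ℕ => ((k : ℝ) - 1) / (2 * (2 * k - 1)) -
      (2 * k + 1) * (M : ℝ) ^ (-(1 / 7) : ℝ)) Filter.atTop
      (nhds (((k : ℝ) - 1) / (2 * (2 * k - 1)) - (2 * k + 1) * 0)) := by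
    refine Filter.Tendsto.sub tendsto_const_nhds (Filter.Tendsto.mul tendsto_const_nhds ?_)
    exact (tendsto_rpow_neg_atTop (by norm_num : (0 : ℝ) < 1 / 7)).comp
      tendsto_natCast_atTop_atTop
  rw [mul_zero, sub_zero] at h1
  refine tendsto_of_tendsto_of_tendsto_of_le_of_le' h1 tendsto_const_nhds ?_ ?_
  · filter_upwards [Filter.eventually_ge_atTop 1] with M hM
    exact cFrom_lower k M hk hM
  · exact Filter.Eventually.of_forall (fun M => cFrom_upper k M hk)

end Pool.Agent.Judicious
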