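import Mathlib

namespace Pool.Agent.Judicious

open Finset

variable {V : Type} [DecidableEq V]

/-- quadratic form of a real matrix on a finite set. -/
def QF (a : V → V → ℝ) (P : Finset V) (s : V → ℝ) : ℝ := ∑ u ∈ P, ∑ v ∈ P, a u v * (s u * s v)

/-- existence of a finite family of sign vectors with prescribed means `m` on `P`, average
quadratic form at most `-G` and second moment of `∑ b v (s v - m v)` at most `Q`. -/
def Has (a : V → V → ℝ) (b : V → ℝ) (P : Finset V) (m : V → ℝ) (G Q : ℝ) : Prop :=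
  ∃ (Ω : Type) (_ : Fintype Ω) (_ : Nonempty Ω) (s : Ω → V → ℝ),
    (∀ ω v, s ω v = 1 ∨ s ω v = -1) ∧
    (∀ v ∈ P, ∑ ω, s ω v = Fintype.card Ω * m v) ∧
    (∑ ω, QF a P (s ω) ≤ - (Fintype.card Ω * G)) ∧
    (∑ ω, (∑ v ∈ P, b v * (s ω v - m v)) ^ 2 ≤ Fintype.card Ω * Q)

theorem Has.mono {a : V → V → ℝ} {b : V → ℝ} {P : Finset V} {m : V → ℝ} {G Q G' Q' : ℝ}
    (h : Has a b P m G Q) (hG : G' ≤ G) (hQ : Q ≤ Q') : Has a b P m G' Q' := by
  obtain ⟨Ω, _, _, s, h1, h2, h3, h4⟩ := h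
  refine ⟨Ω, inferInstance, inferInstance, s, h1, h2, h3.trans ?_, h4.trans ?_⟩
  · have : (0 : ℝ) ≤ Fintype.card Ω := by positivity
    nlinarith
  · have : (0 : ℝ) ≤ Fintype.card Ω := by positivity
    nlinarith

theorem Has.congr {a : V → V → ℝ} {b : V → ℝ} {P : Finset V} {m m' : V → ℝ} {G Q : ℝ}
    (h : Has a b P m G Q) (hm : ∀ v ∈ P, m v = m' v) : Has a b P m' G Q := by
  obtain ⟨Ω, _, _, s, h1, h2, h3, h4⟩ := h
  refine ⟨Ω, inferInstance, inferInstance, s, h1, ?_, h3, ?_⟩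
  · intro v hv; rw [h2 v hv, hm v hv]
  · refine le_trans (le_of_eq ?_) h4
    refine Finset.sum_congr rfl (fun ω _ => ?_)
    congr 1
    exact Finset.sum_congr rfl (fun v hv => by rw [hm v hv])

theorem Has.empty (a : V → V → ℝ) (b : V → ℝ) (m : V → ℝ) : Has a b ∅ m 0 0 := by
  refine ⟨Unit, inferInstance, inferInstance, fun _ _ => 1, fun _ _ => Or.inl rfl, ?_, ?_, ?_⟩
  · simp
  · simp [QF]
  · simp

theorem QF_union (a : V → V → ℝ) (P Q : Finset V) (h : Disjoint P Q) (s : V → ℝ) :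
    QF a (P ∪ Q) s = QF a P s + QF a Q s +
      ∑ u ∈ P, ∑ v ∈ Q, (a u v + a v u) * (s u * s v) := by
  unfold QF
  rw [Finset.sum_union h]
  have e1 : ∑ u ∈ P, ∑ v ∈ P ∪ Q, a u v * (s u * s v) =
      ∑ u ∈ P, ∑ v ∈ P, a u v * (s u * s v) + ∑ u ∈ P, ∑ v ∈ Q, a u v * (s u * s v) := by
    rw [← Finset.sum_add_distrib]
    exact Finset.sum_congr rfl (fun u _ => Finset.sum_union h)
  have e2 : ∑ u ∈ Q, ∑ v ∈ P ∪ Q, a u v * (s u * s v) =
      ∑ u ∈ Q, ∑ v ∈ P, a u v * (s u * s v) + ∑ u ∈ Q, ∑ v ∈ Q, a u v * (s u * s v) := by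
    rw [← Finset.sum_add_distrib]
    exact Finset.sum_congr rfl (fun u _ => Finset.sum_union h)
  have e3 : ∑ u ∈ Q, ∑ v ∈ P, a u v * (s u * s v) =
      ∑ u ∈ P, ∑ v ∈ Q, a v u * (s u * s v) := by
    rw [Finset.sum_comm]
    exact Finset.sum_congr rfl (fun u _ => Finset.sum_congr rfl (fun v _ => by ring))
  have e4 : ∑ u ∈ P, ∑ v ∈ Q, (a u v + a v u) * (s u * s v) =
      ∑ u ∈ P, ∑ v ∈ Q, a u v * (s u * s v) + ∑ u ∈ P, ∑ v ∈ Q, a v u * (s u * s v) := by
    rw [← Finset.sum_add_distrib]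
    refine Finset.sum_congr rfl (fun u _ => ?_)
    rw [← Finset.sum_add_distrib]
    exact Finset.sum_congr rfl (fun v _ => by ring)
  rw [e1, e2, e3, e4]; ring

theorem QF_congr (a : V → V → ℝ) (P : Finset V) (s t : V → ℝ) (h : ∀ v ∈ P, s v = t v) :
    QF a P s = QF a P t := by
  unfold QF
  exact Finset.sum_congr rfl (fun u hu => Finset.sum_congr rfl (fun v hv => by
    rw [h u hu, h v hv]))

/-- independent combination. -/
theorem Has.union {a : V → V → ℝ} {b : V → ℝ} {P Q : Finset V} {m : V → ℝ} {G1 Q1 G2 Q2 : ℝ}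
    (hPQ : Disjoint P Q) (h1 : Has a b P m G1 Q1) (h2 : Has a b Q m G2 Q2)
    (hc : ∀ u ∈ P, ∀ v ∈ Q, (a u v + a v u) * (m u * m v) = 0) :
    Has a b (P ∪ Q) m (G1 + G2) (Q1 + Q2) := by
  obtain ⟨Ω₁, _, _, s1, p1, p2, p3, p4⟩ := h1
  obtain ⟨Ω₂, _, _, s2, q1, q2, q3, q4⟩ := h2
  set c1 : ℝ := (Fintype.card Ω₁ : ℝ) with hc1
  set c2 : ℝ := (Fintype.card Ω₂ : ℝ) with hc2
  have hc1' : 0 ≤ c1 := by positivity
  have hc2' : 0 ≤ c2 := by positivity
  set s : Ω₁ × Ω₂ → V → ℝ := fun ω v => if v ∈ P then s1 ω.1 v else s2 ω.2 v with hs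
  have hsP : ∀ ω : Ω₁ × Ω₂, ∀ v ∈ P, s ω v = s1 ω.1 v := by
    intro ω v hv; simp [hs, hv]
  have hsQ : ∀ ω : Ω₁ × Ω₂, ∀ v ∈ Q, s ω v = s2 ω.2 v := by
    intro ω v hv
    have : v ∉ P := fun h => (Finset.disjoint_left.mp hPQ) h hv
    simp [hs, this]
  have hcard : (Fintype.card (Ω₁ × Ω₂) : ℝ) = c1 * c2 := by
    rw [Fintype.card_prod]; push_cast; rfl
  refine ⟨Ω₁ × Ω₂, inferInstance, inferInstance, s, ?_, ?_, ?_, ?_⟩
  · intro ω v
    by_cases hv : v ∈ P
    · simp only [hs, hv, if_true]; exact p1 _ _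
    · simp only [hs, hv, if_false]; exact q1 _ _
  · intro v hv
    rw [hcard]
    rcases Finset.mem_union.mp hv with h | h
    · rw [Finset.sum_congr rfl (fun ω _ => hsP ω v h), Fintype.sum_prod_type]
      simp only [Finset.sum_const, Finset.card_univ, nsmul_eq_mul]
      rw [← Finset.mul_sum, p2 v h]; ring
    · rw [Finset.sum_congr rfl (fun ω _ => hsQ ω v h), Fintype.sum_prod_type]
      simp only [Finset.sum_const, Finset.card_univ, nsmul_eq_mul]
      rw [q2 v h]; ring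
  · rw [hcard]
    have e1 : ∀ ω : Ω₁ × Ω₂, QF a (P ∪ Q) (s ω) = QF a P (s1 ω.1) + QF a Q (s2 ω.2) +
        ∑ u ∈ P, ∑ v ∈ Q, (a u v + a v u) * (s1 ω.1 u * s2 ω.2 v) := by
      intro ω
      rw [QF_union a P Q hPQ, QF_congr a P _ _ (hsP ω), QF_congr a Q _ _ (hsQ ω)]
      congr 1
      exact Finset.sum_congr rfl (fun u hu => Finset.sum_congr rfl (fun v hv => by
        rw [hsP ω u hu, hsQ ω v hv]))
    rw [Finset.sum_congr rfl (fun ω _ => e1 ω), Finset.sum_add_distrib, Finset.sum_add_distrib]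
    have e2 : ∑ ω : Ω₁ × Ω₂, QF a P (s1 ω.1) = c2 * ∑ ω, QF a P (s1 ω) := by
      rw [Fintype.sum_prod_type]
      simp only [Finset.sum_const, Finset.card_univ, nsmul_eq_mul]
      rw [← Finset.mul_sum]
    have e3 : ∑ ω : Ω₁ × Ω₂, QF a Q (s2 ω.2) = c1 * ∑ ω, QF a Q (s2 ω) := by
      rw [Fintype.sum_prod_type]
      simp only [Finset.sum_const, Finset.card_univ, nsmul_eq_mul]
      rfl
    have e4 : ∑ ω : Ω₁ × Ω₂, ∑ u ∈ P, ∑ v ∈ Q, (a u v + a v u) * (s1 ω.1 u * s2 ω.2 v) = 0 := by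
      rw [Finset.sum_comm]
      refine Finset.sum_eq_zero (fun u hu => ?_)
      rw [Finset.sum_comm]
      refine Finset.sum_eq_zero (fun v hv => ?_)
      rw [← Finset.mul_sum, Fintype.sum_prod_type]
      simp only []
      have : ∑ x, ∑ y, s1 x u * s2 y v = (∑ x, s1 x u) * ∑ y, s2 y v := by
        rw [Finset.sum_mul_sum]
      rw [this, p2 u hu, q2 v hv]
      have := hc u hu v hv
      calc (a u v + a v u) * (c1 * m u * (c2 * m v)) =
          c1 * c2 * ((a u v + a v u) * (m u * m v)) := by ring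
        _ = 0 := by rw [this, mul_zero]
    rw [e2, e3, e4, add_zero]
    nlinarith [mul_le_mul_of_nonneg_left p3 hc2', mul_le_mul_of_nonneg_left q3 hc1']
  · rw [hcard]
    set X1 : Ω₁ → ℝ := fun ω => ∑ v ∈ P, b v * (s1 ω v - m v) with hX1
    set X2 : Ω₂ → ℝ := fun ω => ∑ v ∈ Q, b v * (s2 ω v - m v) with hX2
    have e1 : ∀ ω : Ω₁ × Ω₂, (∑ v ∈ P ∪ Q, b v * (s ω v - m v)) = X1 ω.1 + X2 ω.2 := by
      intro ω
      rw [Finset.sum_union hPQ]
      congr 1
      · exact Finset.sum_congr rfl (fun v hv => by rw [hsP ω v hv])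
      · exact Finset.sum_congr rfl (fun v hv => by rw [hsQ ω v hv])
    have z1 : ∑ ω, X1 ω = 0 := by
      simp only [hX1]
      rw [Finset.sum_comm]
      refine Finset.sum_eq_zero (fun v hv => ?_)
      rw [← Finset.mul_sum, Finset.sum_sub_distrib, p2 v hv]
      simp only [Finset.sum_const, Finset.card_univ, nsmul_eq_mul]
      ring
    rw [Finset.sum_congr rfl (fun ω _ => by rw [e1 ω]), Fintype.sum_prod_type]
    have e2 : ∀ x : Ω₁, ∑ y : Ω₂, (X1 x + X2 y) ^ 2 =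
        c2 * X1 x ^ 2 + 2 * X1 x * ∑ y, X2 y + ∑ y, X2 y ^ 2 := by
      intro x
      have : ∀ y : Ω₂, (X1 x + X2 y) ^ 2 = X1 x ^ 2 + 2 * X1 x * X2 y + X2 y ^ 2 := by
        intro y; ring
      rw [Finset.sum_congr rfl (fun y _ => this y), Finset.sum_add_distrib,
        Finset.sum_add_distrib, ← Finset.mul_sum, Finset.sum_const, Finset.card_univ,
        nsmul_eq_mul]
    rw [Finset.sum_congr rfl (fun x _ => e2 x), Finset.sum_add_distrib, Finset.sum_add_distrib,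
      ← Finset.mul_sum, ← Finset.sum_mul, ← Finset.mul_sum, z1, Finset.sum_const,
      Finset.card_univ, nsmul_eq_mul]
    nlinarith [mul_le_mul_of_nonneg_left p4 hc2', mul_le_mul_of_nonneg_left q4 hc1']

/-- a pattern and its negative. -/
theorem Has.pattern (a : V → V → ℝ) (b : V → ℝ) (P : Finset V) (τ : V → ℝ)
    (hτ : ∀ v, τ v = 1 ∨ τ v = -1) :
    Has a b P (fun _ => 0) (- QF a P τ) ((∑ v ∈ P, b v * τ v) ^ 2) := by
  refine ⟨Bool, inferInstance, inferInstance, fun ω v => if ω then τ v else - τ v, ?_, ?_, ?_, ?_⟩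
  · intro ω v
    rcases hτ v with h | h <;> cases ω <;> simp [h]
  · intro v _
    simp
  · have : QF a P (fun v => - τ v) = QF a P τ := by
      unfold QF
      exact Finset.sum_congr rfl (fun u _ => Finset.sum_congr rfl (fun v _ => by ring))
    simp only [Fintype.sum_bool, if_true, Fintype.card_bool]
    have e : (fun v => if (false : Bool) = true then τ v else - τ v) = fun v => - τ v := by
      funext v; simp
    rw [e, this]
    push_cast
    linarith
  · simp only [Fintype.sum_bool, if_true, Fintype.card_bool, sub_zero]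
    have e : (∑ v ∈ P, b v * (if (false : Bool) = true then τ v else - τ v)) =
        - ∑ v ∈ P, b v * τ v := by
      rw [← Finset.sum_neg_distrib]
      exact Finset.sum_congr rfl (fun v _ => by simp)
    rw [e]
    push_cast
    nlinarith

end Pool.Agent.Judicious
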