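import Pool.Agent.Lib_helper68.LlsComp

namespace Pool.Agent.Judicious

open Finset

variable {V : Type} [DecidableEq V]

theorem greedy (b : V → ℝ) (B : ℝ) (hB : 0 ≤ B) (C : Finset V) :
    (∀ v ∈ C, |b v| ≤ B) → ∃ s : V → ℝ, (∀ v, s v = 1 ∨ s v = -1) ∧
      |∑ v ∈ C, b v * s v| ≤ B := by
  induction C using Finset.induction_on with
  | empty => intro _; exact ⟨fun _ => 1, fun _ => Or.inl rfl, by simpa using hB⟩
  | insert v C hv ih =>
    intro hC
    obtain ⟨s, hs, hs1⟩ := ih (fun u hu => hC u (Finset.mem_insert_of_mem hu))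
    have hbv := abs_le.mp (hC v (Finset.mem_insert_self _ _))
    have hS := abs_le.mp hs1
    have key : ∃ ε : ℝ, (ε = 1 ∨ ε = -1) ∧ |b v * ε + ∑ u ∈ C, b u * s u| ≤ B := by
      rcases le_total 0 (b v) with h1 | h1 <;>
        rcases le_total 0 (∑ u ∈ C, b u * s u) with h2 | h2
      · exact ⟨-1, Or.inr rfl, by rw [abs_le]; constructor <;> linarith [hbv.1, hbv.2, hS.1, hS.2]⟩
      · exact ⟨1, Or.inl rfl, by rw [abs_le]; constructor <;> linarith [hbv.1, hbv.2, hS.1, hS.2]⟩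
      · exact ⟨1, Or.inl rfl, by rw [abs_le]; constructor <;> linarith [hbv.1, hbv.2, hS.1, hS.2]⟩
      · exact ⟨-1, Or.inr rfl, by rw [abs_le]; constructor <;> linarith [hbv.1, hbv.2, hS.1, hS.2]⟩
    obtain ⟨ε, hε, hε1⟩ := key
    refine ⟨fun u => if u = v then ε else s u, ?_, ?_⟩
    · intro u
      by_cases huv : u = v
      · simpa [huv] using hε
      · simpa [huv] using hs u
    · rw [Finset.sum_insert hv]
      have e : ∑ u ∈ C, b u * (if u = v then ε else s u) = ∑ u ∈ C, b u * s u := by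
        refine Finset.sum_congr rfl (fun u hu => ?_)
        have : u ≠ v := fun h => hv (h ▸ hu)
        rw [if_neg this]
      have e' : b v * (fun u => if u = v then ε else s u) v = b v * ε := by simp
      rw [e', e]
      exact hε1

variable [Fintype V]

theorem pick {a : V → V → ℝ} {b : V → ℝ} {R : Finset V} {m : V → ℝ} {G Q : ℝ}
    (h : Has a b R m G Q) (hub : V → ℝ) (hhub : ∀ v, hub v = 1 ∨ hub v = -1) (T : ℝ) (hT : 0 < T)
    (hE : 0 ≤ ∑ v ∈ Rᶜ, b v * hub v + ∑ v ∈ R, b v * m v) :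
    ∃ s : V → ℝ, (∀ v, s v = 1 ∨ s v = -1) ∧
      QF a Finset.univ s + |∑ v, b v * s v| ≤
        QF a Rᶜ hub - G + ∑ u ∈ Rᶜ, ∑ v ∈ R, (a u v + a v u) * (hub u * m v) +
          (∑ v ∈ Rᶜ, b v * hub v + ∑ v ∈ R, b v * m v) + (Q / (2 * T) + T / 2) := by
  obtain ⟨Ω, _, _, s1, p1, p2, p3, p4⟩ := h
  set c : ℝ := (Fintype.card Ω : ℝ) with hc
  have hc0 : 0 < c := by
    rw [hc]; exact_mod_cast Fintype.card_pos
  set E : ℝ := ∑ v ∈ Rᶜ, b v * hub v + ∑ v ∈ R, b v * m v with hEdef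
  set s : Ω → V → ℝ := fun ω v => if v ∈ R then s1 ω v else hub v with hs
  have hsR : ∀ ω, ∀ v ∈ R, s ω v = s1 ω v := by intro ω v hv; simp [hs, hv]
  have hsC : ∀ ω, ∀ v ∈ Rᶜ, s ω v = hub v := by
    intro ω v hv; simp [hs, Finset.mem_compl.mp hv]
  have hdis : Disjoint Rᶜ R := disjoint_compl_left
  have hun : Rᶜ ∪ R = Finset.univ := by
    rw [Finset.union_comm]; exact Finset.union_compl R
  have hcross0 : ∀ ω, QF a Finset.univ (s ω) = QF a Rᶜ hub + QF a R (s1 ω) +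
      ∑ u ∈ Rᶜ, ∑ v ∈ R, (a u v + a v u) * (hub u * s1 ω v) := by
    intro ω
    rw [← hun, QF_union a Rᶜ R hdis, QF_congr a Rᶜ _ _ (hsC ω), QF_congr a R _ _ (hsR ω)]
    congr 1
    exact Finset.sum_congr rfl (fun u hu => Finset.sum_congr rfl (fun v hv => by
      rw [hsC ω u hu, hsR ω v hv]))
  set U : Ω → ℝ := fun ω => ∑ v ∈ R, b v * (s1 ω v - m v) with hU
  have hlin : ∀ ω, ∑ v, b v * s ω v = E + U ω := by
    intro ω
    rw [← hun, Finset.sum_union hdis, hEdef, hU]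
    simp only
    have e1 : ∑ v ∈ Rᶜ, b v * s ω v = ∑ v ∈ Rᶜ, b v * hub v :=
      Finset.sum_congr rfl (fun v hv => by rw [hsC ω v hv])
    have e2 : ∑ v ∈ R, b v * s ω v = ∑ v ∈ R, b v * m v + ∑ v ∈ R, b v * (s1 ω v - m v) := by
      rw [← Finset.sum_add_distrib]
      exact Finset.sum_congr rfl (fun v hv => by rw [hsR ω v hv]; ring)
    rw [e1, e2]; ring
  have habs : ∀ ω, |∑ v, b v * s ω v| ≤ E + (U ω ^ 2 / (2 * T) + T / 2) := by
    intro ω
    rw [hlin ω]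
    have h1 : |U ω| ≤ U ω ^ 2 / (2 * T) + T / 2 := by
      have h2 : U ω ^ 2 / (2 * T) + T / 2 - |U ω| = (|U ω| - T) ^ 2 / (2 * T) := by
        rw [← sq_abs (U ω)]
        field_simp
        ring
      have h3 : 0 ≤ (|U ω| - T) ^ 2 / (2 * T) := by positivity
      linarith
    calc |E + U ω| ≤ |E| + |U ω| := abs_add_le _ _
      _ = E + |U ω| := by rw [abs_of_nonneg hE]
      _ ≤ _ := by linarith
  -- sum over ω
  have hcross : ∑ ω, ∑ u ∈ Rᶜ, ∑ v ∈ R, (a u v + a v u) * (hub u * s1 ω v) =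
      c * ∑ u ∈ Rᶜ, ∑ v ∈ R, (a u v + a v u) * (hub u * m v) := by
    rw [Finset.sum_comm, Finset.mul_sum]
    refine Finset.sum_congr rfl (fun u _ => ?_)
    rw [Finset.sum_comm, Finset.mul_sum]
    refine Finset.sum_congr rfl (fun v hv => ?_)
    rw [← Finset.mul_sum, ← Finset.mul_sum, p2 v hv]
    ring
  have htot : ∑ ω, (QF a Finset.univ (s ω) + |∑ v, b v * s ω v|) ≤
      ∑ _ω : Ω, (QF a Rᶜ hub - G + ∑ u ∈ Rᶜ, ∑ v ∈ R, (a u v + a v u) * (hub u * m v) +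
          E + (Q / (2 * T) + T / 2)) := by
    calc ∑ ω, (QF a Finset.univ (s ω) + |∑ v, b v * s ω v|)
        ≤ ∑ ω, ((QF a Rᶜ hub + QF a R (s1 ω) +
            ∑ u ∈ Rᶜ, ∑ v ∈ R, (a u v + a v u) * (hub u * s1 ω v)) +
            (E + (U ω ^ 2 / (2 * T) + T / 2))) := by
          refine Finset.sum_le_sum (fun ω _ => ?_)
          rw [hcross0 ω]
          linarith [habs ω]
      _ = c * QF a Rᶜ hub + ∑ ω, QF a R (s1 ω) +
            c * (∑ u ∈ Rᶜ, ∑ v ∈ R, (a u v + a v u) * (hub u * m v)) +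
            (c * E + ((∑ ω, U ω ^ 2) / (2 * T) + c * (T / 2))) := by
          have q1 : ∑ _ω : Ω, QF a Rᶜ hub = c * QF a Rᶜ hub := by
            rw [Finset.sum_const, Finset.card_univ, nsmul_eq_mul]
          have q2 : ∑ _ω : Ω, E = c * E := by
            rw [Finset.sum_const, Finset.card_univ, nsmul_eq_mul]
          have q3 : ∑ _ω : Ω, T / 2 = c * (T / 2) := by
            rw [Finset.sum_const, Finset.card_univ, nsmul_eq_mul]
          have q4 : ∑ ω, (E + (U ω ^ 2 / (2 * T) + T / 2)) =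
              c * E + ((∑ ω, U ω ^ 2) / (2 * T) + c * (T / 2)) := by
            rw [Finset.sum_add_distrib, q2, Finset.sum_add_distrib, q3, ← Finset.sum_div]
          rw [Finset.sum_add_distrib, Finset.sum_add_distrib, Finset.sum_add_distrib, hcross,
            q1, q4]
      _ ≤ c * QF a Rᶜ hub + - (c * G) +
            c * (∑ u ∈ Rᶜ, ∑ v ∈ R, (a u v + a v u) * (hub u * m v)) +
            (c * E + ((c * Q) / (2 * T) + c * (T / 2))) := by
          have h5 : (∑ ω, U ω ^ 2) / (2 * T) ≤ (c * Q) / (2 * T) :=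
            div_le_div_of_nonneg_right p4 (by linarith)
          linarith
      _ = _ := by
          simp only [Finset.sum_const, Finset.card_univ, nsmul_eq_mul]
          rw [← hc]
          ring
  obtain ⟨ω, _, hω⟩ := Finset.exists_le_of_sum_le (Finset.univ_nonempty) htot
  refine ⟨s ω, ?_, hω⟩
  intro v
  by_cases hv : v ∈ R
  · simp only [hs, hv, if_true]; exact p1 ω v
  · simp only [hs, hv, if_false]; exact hhub v

theorem lls_core (a : V → V → ℝ) (a01 : ∀ u v, a u v = 0 ∨ a u v = 1) (loop : ∀ v, a v v = 0)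
    (k : ℕ) (hk : 1 ≤ k) (hout : ∀ v, (k : ℝ) ≤ ∑ u, a v u) (η : ℝ) (hη : 0 < η)
    (hη1 : 4 * (2 * (k : ℝ) - 1) * η ≤ 1) (w : V)
    (hw : ∀ v, |∑ u, a v u - ∑ u, a u v| ≤ |∑ u, a w u - ∑ u, a u w|)
    (hbig : (∑ u, ∑ v, a u v) / (2 * (k : ℝ) - 1) < |∑ u, a w u - ∑ u, a u w|) :
    ∃ s : V → ℝ, (∀ v, s v = 1 ∨ s v = -1) ∧
      QF a Finset.univ s + |∑ v, (∑ u, a v u - ∑ u, a u v) * s v| ≤
        (∑ u, ∑ v, a u v) / (2 * (k : ℝ) - 1) + 4 * η * (∑ u, ∑ v, a u v) +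
          2 * (1 / η ^ 3) ^ 2 := by
  have hk1 : (1 : ℝ) ≤ k := by exact_mod_cast hk
  set N : ℝ := 2 * (k : ℝ) - 1 with hN
  have hN1 : (1 : ℝ) ≤ N := by rw [hN]; linarith
  have hN0 : (0 : ℝ) < N := by linarith
  set e : ℝ := ∑ u, ∑ v, a u v with he
  set b : V → ℝ := fun v => ∑ u, a v u - ∑ u, a u v with hb
  set d : V → ℝ := fun v => ∑ u, a v u + ∑ u, a u v with hd
  have hbv : ∀ v, b v = ∑ u, a v u - ∑ u, a u v := fun v => rfl
  have hdv : ∀ v, d v = ∑ u, a v u + ∑ u, a u v := fun v => rfl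
  have a0 : ∀ u v, 0 ≤ a u v := by
    intro u v; rcases a01 u v with h | h <;> rw [h] <;> norm_num
  have a1 : ∀ u v, a u v ≤ 1 := by
    intro u v; rcases a01 u v with h | h <;> rw [h] <;> norm_num
  have ho0 : ∀ v, 0 ≤ ∑ u, a v u := fun v => Finset.sum_nonneg (fun u _ => a0 v u)
  have hi0 : ∀ v, 0 ≤ ∑ u, a u v := fun v => Finset.sum_nonneg (fun u _ => a0 u v)
  have hbd : ∀ v, |b v| ≤ d v := by
    intro v
    rw [hbv, hdv, abs_le]
    constructor <;> linarith [ho0 v, hi0 v]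
  have hd0 : ∀ v, 0 ≤ d v := fun v => (abs_nonneg _).trans (hbd v)
  have he0 : 0 ≤ e := Finset.sum_nonneg (fun u _ => ho0 u)
  have hsumo : ∑ v, ∑ u, a v u = e := rfl
  have hsumi : ∑ v, ∑ u, a u v = e := by rw [he, Finset.sum_comm]
  have hsumd : ∑ v, d v = 2 * e := by
    simp only [hd]
    rw [Finset.sum_add_distrib, hsumo, hsumi]; ring
  have how : ∀ v, ∑ u, a v u ≤ e :=
    fun v => Finset.single_le_sum (f := fun v => ∑ u, a v u) (fun u _ => ho0 u)
      (Finset.mem_univ v)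
  have hiw : ∀ v, ∑ u, a u v ≤ e := by
    intro v
    rw [← hsumi]
    exact Finset.single_le_sum (f := fun v => ∑ u, a u v) (fun u _ => hi0 u)
      (Finset.mem_univ v)
  have hepos : 0 < e := by
    have h1 : |b w| ≤ d w := hbd w
    have h2 : 0 ≤ e / N := by positivity
    have h3 : d w ≤ 2 * e := by rw [hdv]; linarith [how w, hiw w]
    have h4 : e / N < |b w| := hbig
    linarith
  have hη2 : η ≤ 1 := by nlinarith
  set τ : ℝ := 2 * η ^ 2 * e with hτ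
  set ρ : ℝ := 2 * η ^ 3 * e with hρ
  have hρκ : ρ ≤ η * τ := le_of_eq (by rw [hρ, hτ]; ring)
  have hτ0 : 0 < τ := by positivity
  have hρ0 : 0 < ρ := by positivity
  have hρτ : ρ ≤ τ := by
    calc ρ ≤ η * τ := hρκ
      _ ≤ 1 * τ := mul_le_mul_of_nonneg_right hη2 hτ0.le
      _ = τ := one_mul _
  have hρN : 4 * N * ρ ≤ τ := by
    have : 4 * N * ρ = (4 * N * η) * τ := by rw [hρ, hτ]; ring
    rw [this]
    calc (4 * N * η) * τ ≤ 1 * τ := mul_le_mul_of_nonneg_right hη1 hτ0.le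
      _ = τ := one_mul _
  set R : Finset V := Finset.univ.filter (fun v => d v ≤ ρ) with hR
  have hRm : ∀ v, v ∈ R ↔ d v ≤ ρ := by intro v; simp [hR]
  have hctx : Ctx a b d R η τ ρ := by
    refine ⟨a01, loop, fun v _ => hbd v, fun v hv => (hRm v).mp hv, ?_, hρκ, hρτ, hη.le⟩
    intro r _ L _
    rw [hdv, ← Finset.sum_add_distrib]
    exact Finset.sum_le_sum_of_subset_of_nonneg (Finset.subset_univ L)
      (fun v _ _ => add_nonneg (a0 _ _) (a0 _ _))
  -- the hub set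
  set M : ℝ := 1 / η ^ 3 with hM
  have hM1 : 1 ≤ M := by
    rw [hM, le_div_iff₀ (by positivity), one_mul]
    exact pow_le_one₀ hη.le hη2
  have hWcard : ((Rᶜ).card : ℝ) ≤ M := by
    have h1 : ((Rᶜ).card : ℝ) * ρ ≤ 2 * e := by
      rw [← hsumd]
      calc ((Rᶜ).card : ℝ) * ρ = ∑ v ∈ Rᶜ, ρ := by rw [Finset.sum_const, nsmul_eq_mul]
        _ ≤ ∑ v ∈ Rᶜ, d v := by
          refine Finset.sum_le_sum (fun v hv => ?_)
          have : ¬ d v ≤ ρ := fun h => (Finset.mem_compl.mp hv) ((hRm v).mpr h)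
          linarith
        _ ≤ ∑ v, d v := Finset.sum_le_sum_of_subset_of_nonneg (Finset.subset_univ _)
            (fun v _ _ => hd0 v)
    rw [hM, le_div_iff₀ (by positivity)]
    have h2 : ((Rᶜ).card : ℝ) * η ^ 3 * (2 * e) ≤ 1 * (2 * e) := by
      calc ((Rᶜ).card : ℝ) * η ^ 3 * (2 * e) = ((Rᶜ).card : ℝ) * ρ := by rw [hρ]; ring
        _ ≤ 1 * (2 * e) := by linarith
    exact le_of_mul_le_mul_right h2 (by linarith)
  have hwW : w ∈ Rᶜ := by
    rw [Finset.mem_compl, hRm]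
    intro hcon
    have h1 : e / N < |b w| := hbig
    have h2 := hbd w
    have h3 : ρ ≤ e / N := by
      rw [le_div_iff₀ hN0, hρ]
      have h4 : η ^ 3 ≤ η := by nlinarith
      have h5 : 2 * η ^ 3 * e * N ≤ 2 * η * e * N := by
        have : η ^ 3 * (e * N) ≤ η * (e * N) :=
          mul_le_mul_of_nonneg_right h4 (by positivity)
        nlinarith
      nlinarith
    linarith
  -- signs on the hub set
  set B : ℝ := |b w| with hB
  have hB0 : 0 ≤ B := abs_nonneg _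
  obtain ⟨σ, hσ, hσb⟩ : ∃ σ : ℝ, (σ = 1 ∨ σ = -1) ∧ σ * b w = B := by
    rcases le_total 0 (b w) with h | h
    · exact ⟨1, Or.inl rfl, by rw [hB, abs_of_nonneg h]; ring⟩
    · exact ⟨-1, Or.inr rfl, by rw [hB, abs_of_nonpos h]; ring⟩
  obtain ⟨s0, hs0, hs1⟩ := greedy b B hB0 (Rᶜ.erase w) (fun v _ => hw v)
  set t : ℝ := ∑ v ∈ Rᶜ.erase w, b v * s0 v with ht
  set hub : ℝ → V → ℝ := fun ε v => if v = w then σ else ε * s0 v with hhub
  have hhubs : ∀ ε : ℝ, (ε = 1 ∨ ε = -1) → ∀ v, hub ε v = 1 ∨ hub ε v = -1 := by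
    intro ε hε v
    by_cases hv : v = w
    · simpa [hhub, hv] using hσ
    · simp only [hhub, hv, if_false]
      rcases hε with h | h <;> rcases hs0 v with h' | h' <;> rw [h, h'] <;> norm_num
  have hhubb : ∀ ε : ℝ, ∑ v ∈ Rᶜ, b v * hub ε v = B + ε * t := by
    intro ε
    rw [← Finset.insert_erase hwW, Finset.sum_insert (Finset.notMem_erase w _)]
    have e1 : b w * hub ε w = B := by simp only [hhub, if_true]; linarith
    have e2 : ∑ v ∈ Rᶜ.erase w, b v * hub ε v = ε * t := by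
      rw [ht, Finset.mul_sum]
      refine Finset.sum_congr rfl (fun v hv => ?_)
      simp only [hhub, (Finset.mem_erase.mp hv).1, if_false]; ring
    rw [e1, e2]
  -- quadratic form on the hub set
  have hQF : ∀ ε : ℝ, (ε = 1 ∨ ε = -1) → QF a Rᶜ (hub ε) ≤ M ^ 2 := by
    intro ε hε
    have h1 : QF a Rᶜ (hub ε) ≤ ∑ u ∈ Rᶜ, ∑ v ∈ Rᶜ, (1 : ℝ) := by
      unfold QF
      refine Finset.sum_le_sum (fun u _ => Finset.sum_le_sum (fun v _ => ?_))
      have h2 : hub ε u * hub ε v ≤ 1 := by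
        rcases hhubs ε hε u with h | h <;> rcases hhubs ε hε v with h' | h' <;>
          rw [h, h'] <;> norm_num
      calc a u v * (hub ε u * hub ε v) ≤ a u v * 1 := mul_le_mul_of_nonneg_left h2 (a0 u v)
        _ ≤ 1 := by linarith [a1 u v]
    have h3 : ∑ u ∈ Rᶜ, ∑ v ∈ Rᶜ, (1 : ℝ) = ((Rᶜ).card : ℝ) ^ 2 := by
      simp only [Finset.sum_const, nsmul_eq_mul, mul_one]; ring
    have h4 : (0 : ℝ) ≤ (Rᶜ).card := by positivity
    rw [h3] at h1
    exact h1.trans (pow_le_pow_left₀ h4 hWcard 2)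
  -- the components
  obtain ⟨m, G, hH, hi, hiii⟩ := comp_all w σ hσ k hk hctx hout hρN R.card R rfl
    ⟨Finset.Subset.refl _, by simp⟩
  set DR : ℝ := ∑ v ∈ R, d v with hDR
  have hDR1 : DR ≤ 2 * e := by
    rw [← hsumd]
    exact Finset.sum_le_sum_of_subset_of_nonneg (Finset.subset_univ _) (fun v _ _ => hd0 v)
  have hDR0 : 0 ≤ DR := Finset.sum_nonneg (fun v _ => hd0 v)
  set T : ℝ := 2 * η * e with hT
  have hTpos : 0 < T := by positivity
  have herr : τ * DR / (2 * T) + T / 2 ≤ 2 * η * e := by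
    have h1 : τ * DR / (2 * T) ≤ η * e := by
      rw [div_le_iff₀ (by positivity), hτ, hT]
      have : 2 * η ^ 2 * e * DR ≤ 2 * η ^ 2 * e * (2 * e) :=
        mul_le_mul_of_nonneg_left hDR1 (by positivity)
      calc 2 * η ^ 2 * e * DR ≤ 2 * η ^ 2 * e * (2 * e) := this
        _ = η * e * (2 * (2 * η * e)) := by ring
    have h2 : T / 2 = η * e := by rw [hT]; ring
    linarith
  have hsR : ∑ v ∈ R, (∑ u, a v u + ∑ c ∈ Rᶜ, a c v) ≤ e := by
    rw [Finset.sum_add_distrib, Finset.sum_comm (s := R) (t := Rᶜ)]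
    have h1 : ∑ c ∈ Rᶜ, ∑ v ∈ R, a c v ≤ ∑ c ∈ Rᶜ, ∑ v, a c v :=
      Finset.sum_le_sum (fun c _ => Finset.sum_le_sum_of_subset_of_nonneg
        (Finset.subset_univ _) (fun v _ _ => a0 c v))
    have h2 : ∑ v ∈ R, ∑ u, a v u + ∑ c ∈ Rᶜ, ∑ v, a c v = e :=
      Finset.sum_add_sum_compl R (fun v => ∑ u, a v u)
    linarith
  have hsW : ∑ v ∈ R, ∑ c ∈ Rᶜ, a v c ≤ e := by
    calc ∑ v ∈ R, ∑ c ∈ Rᶜ, a v c ≤ ∑ v ∈ R, ∑ c, a v c :=
          Finset.sum_le_sum (fun c _ => Finset.sum_le_sum_of_subset_of_nonneg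
            (Finset.subset_univ _) (fun v _ _ => a0 c v))
      _ ≤ ∑ v, ∑ c, a v c := Finset.sum_le_sum_of_subset_of_nonneg
            (Finset.subset_univ _) (fun v _ _ => ho0 v)
      _ = e := rfl
  -- the two hub choices
  set X : ℝ → ℝ := fun ε => QF a Rᶜ (hub ε) - G +
      ∑ u ∈ Rᶜ, ∑ v ∈ R, (a u v + a v u) * (hub ε u * m v) +
      (∑ v ∈ Rᶜ, b v * hub ε v + ∑ v ∈ R, b v * m v) with hX
  have hcrossSum : ∑ u ∈ Rᶜ, ∑ v ∈ R, (a u v + a v u) * (hub 1 u * m v) +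
      ∑ u ∈ Rᶜ, ∑ v ∈ R, (a u v + a v u) * (hub (-1) u * m v) =
      2 * ∑ v ∈ R, σ * (a w v + a v w) * m v := by
    rw [← Finset.sum_add_distrib]
    have h1 : ∀ u ∈ Rᶜ, (∑ v ∈ R, (a u v + a v u) * (hub 1 u * m v) +
        ∑ v ∈ R, (a u v + a v u) * (hub (-1) u * m v)) =
        if u = w then 2 * ∑ v ∈ R, σ * (a w v + a v w) * m v else 0 := by
      intro u _
      rw [← Finset.sum_add_distrib]
      by_cases hu : u = w
      · subst hu
        rw [if_pos rfl, Finset.mul_sum]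
        refine Finset.sum_congr rfl (fun v _ => ?_)
        simp only [hhub, if_true]; ring
      · rw [if_neg hu]
        refine Finset.sum_eq_zero (fun v _ => ?_)
        simp only [hhub, hu, if_false]; ring
    rw [Finset.sum_congr rfl h1, Finset.sum_ite_eq' Rᶜ w, if_pos hwW]
  have hBsplit : B ≤ ∑ v ∈ R, σ * (a w v - a v w) + M := by
    have h1 : B = ∑ v ∈ R, σ * (a w v - a v w) + ∑ v ∈ Rᶜ, σ * (a w v - a v w) := by
      rw [Finset.sum_add_sum_compl R (fun v => σ * (a w v - a v w)), ← hσb, hbv,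
        ← Finset.mul_sum, Finset.sum_sub_distrib]
    have h2 : ∑ v ∈ Rᶜ, σ * (a w v - a v w) ≤ ∑ v ∈ Rᶜ, (1 : ℝ) := by
      refine Finset.sum_le_sum (fun v _ => ?_)
      rcases hσ with h | h <;> rw [h] <;> linarith [a0 w v, a1 w v, a0 v w, a1 v w]
    have h3 : ∑ v ∈ Rᶜ, (1 : ℝ) = (Rᶜ).card := by simp
    linarith
  have hlinsum : ∑ v ∈ R, lin a w σ v (m v) = ∑ v ∈ R, σ * (a w v - a v w) +
      ∑ v ∈ R, σ * (a w v + a v w) * m v + ∑ v ∈ R, b v * m v := by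
    rw [← Finset.sum_add_distrib, ← Finset.sum_add_distrib]
    refine Finset.sum_congr rfl (fun v _ => ?_)
    simp only [lin, hbv]; ring
  have hX2 : X 1 + X (-1) ≤ 2 * (M ^ 2 + M + e / N + 2 * η * e) := by
    have h1 := hQF 1 (Or.inl rfl)
    have h2 := hQF (-1) (Or.inr rfl)
    have h3 : (∑ v ∈ R, (∑ u, a v u + ∑ c ∈ Rᶜ, a c v)) / N ≤ e / N :=
      div_le_div_of_nonneg_right hsR hN0.le
    have h4 : η * DR ≤ η * (2 * e) := mul_le_mul_of_nonneg_left hDR1 hη.le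
    rw [hlinsum] at hi
    simp only [hX]
    rw [hhubb, hhubb]
    linarith
  have hchoose : ∃ ε : ℝ, (ε = 1 ∨ ε = -1) ∧ X ε ≤ M ^ 2 + M + e / N + 2 * η * e := by
    rcases le_or_gt (X 1) (M ^ 2 + M + e / N + 2 * η * e) with h | h
    · exact ⟨1, Or.inl rfl, h⟩
    · exact ⟨-1, Or.inr rfl, by linarith⟩
  obtain ⟨ε, hε, hXε⟩ := hchoose
  have hMM : M ≤ M ^ 2 := by nlinarith
  have hηe : 0 ≤ η * e := by positivity
  have hbt : 0 ≤ B + ε * t := by
    have := abs_le.mp hs1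
    rcases hε with h | h <;> rw [h] <;> linarith [this.1, this.2]
  rcases le_or_gt 0 (∑ v ∈ Rᶜ, b v * hub ε v + ∑ v ∈ R, b v * m v) with hE | hE
  · obtain ⟨s, hs, hs2⟩ := pick hH (hub ε) (hhubs ε hε) T hTpos hE
    have hs3 : QF a Finset.univ s + |∑ v, (∑ u, a v u - ∑ u, a u v) * s v| ≤
        X ε + (τ * DR / (2 * T) + T / 2) := hs2
    exact ⟨s, hs, by linarith⟩
  · have h0 : 0 ≤ ∑ v ∈ Rᶜ, b v * hub ε v + ∑ v ∈ R, b v * (fun _ : V => (0 : ℝ)) v := by
      simp only [mul_zero, Finset.sum_const_zero, add_zero]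
      rw [hhubb]; exact hbt
    obtain ⟨s, hs, hs2⟩ := pick (hctx.singles R (Finset.Subset.refl _)) (hub ε) (hhubs ε hε) T
      hTpos h0
    refine ⟨s, hs, hs2.trans ?_⟩
    have h1 : ∑ u ∈ Rᶜ, ∑ v ∈ R, (a u v + a v u) * (hub ε u * (0 : ℝ)) = 0 := by simp
    have h2 : ∑ v ∈ R, b v * (0 : ℝ) = 0 := by simp
    have h3 : ∑ v ∈ R, d v = DR := rfl
    simp only [h1, h2, h3]
    have h4 := hQF ε hε
    have h5 : (∑ v ∈ R, ∑ c ∈ Rᶜ, a v c) / N ≤ e / N :=
      div_le_div_of_nonneg_right hsW hN0.le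
    have h6 : - ∑ v ∈ R, b v * m v ≤ e / N := hiii.trans h5
    linarith

end Pool.Agent.Judicious
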