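import Pool.Agent.Lib_helper68.LlsHas

namespace Pool.Agent.Judicious

open Finset

variable {V : Type} [DecidableEq V]

/-- standing hypotheses for the light vertices `R` -/
structure Ctx (a : V → V → ℝ) (b d : V → ℝ) (R : Finset V) (κ τ ρ : ℝ) : Prop where
  a01 : ∀ u v, a u v = 0 ∨ a u v = 1
  loop : ∀ v, a v v = 0
  bd : ∀ v ∈ R, |b v| ≤ d v
  dρ : ∀ v ∈ R, d v ≤ ρ
  star : ∀ r ∈ R, ∀ L ⊆ R, ∑ v ∈ L, (a r v + a v r) ≤ d r
  ρκ : ρ ≤ κ * τ
  ρτ : ρ ≤ τ
  κ0 : 0 ≤ κ

theorem Has.singleton (a : V → V → ℝ) (b : V → ℝ) (v : V) (hv : a v v = 0) :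
    Has a b {v} (fun _ => 0) 0 ((b v) ^ 2) := by
  have h := Has.pattern a b {v} (fun _ => 1) (fun _ => Or.inl rfl)
  refine h.mono ?_ ?_
  · simp [QF, hv]
  · simp

theorem Has.singles (a : V → V → ℝ) (b : V → ℝ) (ha : ∀ v, a v v = 0) (P : Finset V) :
    Has a b P (fun _ => 0) 0 (∑ v ∈ P, (b v) ^ 2) := by
  induction P using Finset.induction_on with
  | empty => simpa using Has.empty a b (fun _ => 0)
  | insert v P hv ih =>
    have h := Has.union (P := {v}) (Q := P) (by simpa using hv) (Has.singleton a b v (ha v)) ih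
      (by intro u _ w _; simp)
    rw [Finset.insert_eq]
    rw [Finset.sum_union (by simpa using hv)]
    simpa using h

section
variable {a : V → V → ℝ} {b d : V → ℝ} {R : Finset V} {κ τ ρ : ℝ}

theorem Ctx.d0 (h : Ctx a b d R κ τ ρ) : ∀ v ∈ R, 0 ≤ d v :=
  fun v hv => (abs_nonneg _).trans (h.bd v hv)

theorem Ctx.sq_le (h : Ctx a b d R κ τ ρ) (P : Finset V) (hP : P ⊆ R) :
    ∑ v ∈ P, (b v) ^ 2 ≤ τ * ∑ v ∈ P, d v := by
  rw [Finset.mul_sum]
  refine Finset.sum_le_sum (fun v hv => ?_)
  have h1 := h.bd v (hP hv)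
  have h2 := h.dρ v (hP hv)
  have h3 := h.d0 v (hP hv)
  have h4 := h.ρτ
  rw [← sq_abs]
  have h5 := abs_nonneg (b v)
  nlinarith

theorem Ctx.singles (h : Ctx a b d R κ τ ρ) (P : Finset V) (hP : P ⊆ R) :
    Has a b P (fun _ => 0) 0 (τ * ∑ v ∈ P, d v) :=
  (Has.singles a b h.loop P).mono le_rfl (h.sq_le P hP)

theorem Ctx.a0 (h : Ctx a b d R κ τ ρ) (u v : V) : 0 ≤ a u v := by
  rcases h.a01 u v with h | h <;> simp [h]

theorem Ctx.dsum0 (h : Ctx a b d R κ τ ρ) (P : Finset V) (hP : P ⊆ R) :
    0 ≤ ∑ v ∈ P, d v :=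
  Finset.sum_nonneg (fun v hv => h.d0 v (hP hv))

/-- the star lemma -/
theorem Ctx.starLemma (h : Ctx a b d R κ τ ρ) (r : V) (L : Finset V) (hrL : r ∉ L)
    (hr : r ∈ R) (hL : L ⊆ R) (hind : ∀ u ∈ L, ∀ v ∈ L, a u v = 0)
    (hadj : ∀ v ∈ L, 1 ≤ a r v + a v r) :
    Has a b ({r} ∪ L) (fun _ => 0) (L.card - κ * ∑ v ∈ {r} ∪ L, d v)
      (τ * ∑ v ∈ {r} ∪ L, d v) := by
  have hsub : {r} ∪ L ⊆ R := by
    intro x hx
    rcases Finset.mem_union.mp hx with hx | hx
    · rw [Finset.mem_singleton.mp hx]; exact hr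
    · exact hL hx
  have hdis : Disjoint {r} L := by simpa using hrL
  have hcount : (L.card : ℝ) ≤ ∑ v ∈ L, (a r v + a v r) := by
    calc (L.card : ℝ) = ∑ v ∈ L, (1 : ℝ) := by simp
      _ ≤ _ := Finset.sum_le_sum hadj
  have hd0 := h.dsum0 _ hsub
  rcases le_or_gt (∑ v ∈ {r} ∪ L, d v) τ with hle | hgt
  · -- pattern
    have hp := Has.pattern a b ({r} ∪ L) (fun v => if v = r then 1 else -1) (by
      intro v; split_ifs <;> simp)
    refine hp.mono ?_ ?_
    · rw [QF_union a {r} L hdis]
      have e1 : QF a {r} (fun v => if v = r then 1 else -1) = 0 := by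
        simp [QF, h.loop]
      have e2 : QF a L (fun v => if v = r then 1 else -1) = 0 := by
        unfold QF
        refine Finset.sum_eq_zero (fun u hu => Finset.sum_eq_zero (fun v hv => ?_))
        rw [hind u hu v hv, zero_mul]
      have e3 : ∑ u ∈ ({r} : Finset V), ∑ v ∈ L, (a u v + a v u) *
          ((if u = r then (1 : ℝ) else -1) * (if v = r then (1 : ℝ) else -1)) =
          - ∑ v ∈ L, (a r v + a v r) := by
        rw [Finset.sum_singleton, ← Finset.sum_neg_distrib]
        refine Finset.sum_congr rfl (fun v hv => ?_)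
        have : v ≠ r := fun h => hrL (h ▸ hv)
        simp [this]
      rw [e1, e2, e3]
      have := mul_nonneg h.κ0 hd0
      linarith
    · have h1 : |∑ v ∈ {r} ∪ L, b v * (if v = r then (1 : ℝ) else -1)| ≤
          ∑ v ∈ {r} ∪ L, d v := by
        refine (Finset.abs_sum_le_sum_abs _ _).trans ?_
        refine Finset.sum_le_sum (fun v hv => ?_)
        have : |b v * (if v = r then (1 : ℝ) else -1)| = |b v| := by
          split_ifs <;> simp
        rw [this]; exact h.bd v (hsub hv)
      rw [← sq_abs]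
      have h2 := abs_nonneg (∑ v ∈ {r} ∪ L, b v * (if v = r then (1 : ℝ) else -1))
      nlinarith
  · refine (h.singles _ hsub).mono ?_ le_rfl
    have h1 := h.star r hr L hL
    have h2 := h.dρ r hr
    have h3 := h.ρκ
    have h4 : κ * τ ≤ κ * ∑ v ∈ {r} ∪ L, d v := mul_le_mul_of_nonneg_left hgt.le h.κ0
    linarith

/-- `T₁` is closed in `T`: no arcs between `T₁` and `T \ T₁`. -/
def Cl (a : V → V → ℝ) (T T1 : Finset V) : Prop :=
  T1 ⊆ T ∧ ∀ u ∈ T1, ∀ v ∈ T \ T1, a u v = 0 ∧ a v u = 0

/-- connectedness -/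
def Conn (a : V → V → ℝ) (S : Finset V) : Prop :=
  S.Nonempty ∧ ∀ T1, Cl a S T1 → T1 = ∅ ∨ T1 = S

theorem exists_conn (a : V → V → ℝ) : ∀ (n : ℕ) (T : Finset V), T.card = n → T.Nonempty →
    ∃ T1, Cl a T T1 ∧ Conn a T1 := by
  intro n
  induction n using Nat.strong_induction_on with
  | _ n ih =>
    intro T hT hne
    by_cases hc : Conn a T
    · exact ⟨T, ⟨Finset.Subset.refl _, by simp⟩, hc⟩
    · unfold Conn at hc
      push Not at hc
      obtain ⟨T2, hT2, hne2, hneT⟩ := hc hne
      have hlt : T2.card < n := by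
        rw [← hT]
        exact Finset.card_lt_card (Finset.ssubset_iff_subset_ne.mpr ⟨hT2.1, hneT⟩)
      obtain ⟨T1, h1, h2⟩ := ih T2.card hlt T2 rfl hne2
      refine ⟨T1, ⟨h1.1.trans hT2.1, ?_⟩, h2⟩
      intro u hu v hv
      rw [Finset.mem_sdiff] at hv
      by_cases hv2 : v ∈ T2
      · exact h1.2 u hu v (Finset.mem_sdiff.mpr ⟨hv2, hv.2⟩)
      · exact hT2.2 u (h1.1 hu) v (Finset.mem_sdiff.mpr ⟨hv.1, hv2⟩)

/-- the full alternative -/
def Full (a : V → V → ℝ) (b d : V → ℝ) (κ τ : ℝ) (S : Finset V) : Prop :=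
  Has a b S (fun _ => 0) ((S.card : ℝ) / 2 - κ * ∑ v ∈ S, d v) (τ * ∑ v ∈ S, d v)

/-- the partial alternative -/
def Part (a : V → V → ℝ) (b d : V → ℝ) (κ τ : ℝ) (S : Finset V) (r : V) : Prop :=
  Has a b (S.erase r) (fun _ => 0) (((S.card : ℝ) - 1) / 2 - κ * ∑ v ∈ S.erase r, d v)
    (τ * ∑ v ∈ S.erase r, d v)

theorem Ctx.aux (h : Ctx a b d R κ τ ρ) (m : ℕ)
    (hM : ∀ S r, S.card ≤ m → S ⊆ R → Conn a S → r ∈ S →
      Full a b d κ τ S ∨ Part a b d κ τ S r) :
    ∀ (n : ℕ) (T : Finset V) (r : V), T.card = n → n ≤ m → T ⊆ R →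
      (∀ T1, Cl a T T1 → T1.Nonempty → ∃ v ∈ T1, 1 ≤ a r v + a v r) →
      ∃ L ⊆ T, (∀ u ∈ L, ∀ v ∈ L, a u v = 0) ∧ (∀ v ∈ L, 1 ≤ a r v + a v r) ∧
        Has a b (T \ L) (fun _ => 0)
          (((T.card : ℝ) - L.card) / 2 - κ * ∑ v ∈ T \ L, d v) (τ * ∑ v ∈ T \ L, d v) := by
  intro n
  induction n using Nat.strong_induction_on with
  | _ n ih =>
    intro T r hTn hnm hTR hcl
    rcases T.eq_empty_or_nonempty with hT | hT
    · subst hT
      refine ⟨∅, Finset.Subset.refl _, by simp, by simp, ?_⟩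
      simpa using Has.empty a b (fun _ => 0)
    · obtain ⟨T1, h1, h2⟩ := exists_conn a n T hTn hT
      obtain ⟨r1, hr1, hadj⟩ := hcl T1 h1 h2.1
      have hT1pos : 0 < T1.card := Finset.card_pos.mpr h2.1
      have hT1le : T1.card ≤ T.card := Finset.card_le_card h1.1
      have hcard : (T \ T1).card = T.card - T1.card := Finset.card_sdiff_of_subset h1.1
      obtain ⟨L, hLT, hLi, hLa, hLH⟩ := ih (T \ T1).card (by omega) (T \ T1) r rfl (by omega)
        (Finset.sdiff_subset.trans hTR) (by
          intro T2 hT2 hne2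
          refine hcl T2 ⟨hT2.1.trans Finset.sdiff_subset, ?_⟩ hne2
          intro u hu v hv
          rw [Finset.mem_sdiff] at hv
          by_cases hv1 : v ∈ T1
          · have := h1.2 v hv1 u (hT2.1 hu)
            exact ⟨this.2, this.1⟩
          · exact hT2.2 u hu v (Finset.mem_sdiff.mpr ⟨Finset.mem_sdiff.mpr ⟨hv.1, hv1⟩, hv.2⟩))
      have hcardr : ((T \ T1).card : ℝ) = T.card - T1.card := by
        rw [hcard, Nat.cast_sub hT1le]
      rcases hM T1 r1 (by omega) (h1.1.trans hTR) h2 hr1 with hF | hP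
      · -- Full
        refine ⟨L, hLT.trans Finset.sdiff_subset, hLi, hLa, ?_⟩
        have hdis : Disjoint T1 ((T \ T1) \ L) :=
          Finset.disjoint_left.mpr (fun x hx hx' => by
            rw [Finset.mem_sdiff, Finset.mem_sdiff] at hx'
            exact hx'.1.2 hx)
        have hun : T1 ∪ ((T \ T1) \ L) = T \ L := by
          ext x
          simp only [Finset.mem_union, Finset.mem_sdiff]
          constructor
          · rintro (hx | hx)
            · exact ⟨h1.1 hx, fun hxL => (Finset.mem_sdiff.mp (hLT hxL)).2 hx⟩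
            · exact ⟨hx.1.1, hx.2⟩
          · rintro ⟨hx, hxL⟩
            by_cases hx1 : x ∈ T1
            · exact Or.inl hx1
            · exact Or.inr ⟨⟨hx, hx1⟩, hxL⟩
        have hh := Has.union hdis hF hLH (by intro u _ v _; simp)
        rw [← hun, Finset.sum_union hdis]
        refine hh.mono ?_ ?_
        · rw [hcardr]; linarith
        · linarith
      · -- Part
        refine ⟨insert r1 L, ?_, ?_, ?_, ?_⟩
        · intro x hx
          rcases Finset.mem_insert.mp hx with hx | hx
          · rw [hx]; exact h1.1 hr1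
          · exact Finset.sdiff_subset (hLT hx)
        · intro u hu v hv
          rcases Finset.mem_insert.mp hu with hu | hu <;>
            rcases Finset.mem_insert.mp hv with hv | hv
          · rw [hu, hv]; exact h.loop r1
          · rw [hu]; exact (h1.2 r1 hr1 v (hLT hv)).1
          · rw [hv]; exact (h1.2 r1 hr1 u (hLT hu)).2
          · exact hLi u hu v hv
        · intro v hv
          rcases Finset.mem_insert.mp hv with hv | hv
          · rw [hv]; exact hadj
          · exact hLa v hv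
        · have hr1L : r1 ∉ L := fun hx => (Finset.mem_sdiff.mp (hLT hx)).2 hr1
          have hdis : Disjoint (T1.erase r1) ((T \ T1) \ L) :=
            Finset.disjoint_left.mpr (fun x hx hx' => by
              rw [Finset.mem_sdiff, Finset.mem_sdiff] at hx'
              exact hx'.1.2 (Finset.mem_of_mem_erase hx))
          have hun : T1.erase r1 ∪ ((T \ T1) \ L) = T \ (insert r1 L) := by
            ext x
            simp only [Finset.mem_union, Finset.mem_sdiff, Finset.mem_erase, Finset.mem_insert,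
              not_or]
            constructor
            · rintro (hx | hx)
              · exact ⟨h1.1 hx.2, hx.1, fun hxL => (Finset.mem_sdiff.mp (hLT hxL)).2 hx.2⟩
              · exact ⟨hx.1.1, fun hxr => hx.1.2 (hxr ▸ hr1), hx.2⟩
            · rintro ⟨hx, hxr, hxL⟩
              by_cases hx1 : x ∈ T1
              · exact Or.inl ⟨hxr, hx1⟩
              · exact Or.inr ⟨⟨hx, hx1⟩, hxL⟩
          have hh := Has.union hdis hP hLH (by intro u _ v _; simp)
          rw [← hun, Finset.sum_union hdis, Finset.card_insert_of_notMem hr1L]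
          push_cast
          refine hh.mono ?_ ?_
          · rw [hcardr]; linarith
          · linarith

theorem Ctx.mainStar (h : Ctx a b d R κ τ ρ) :
    ∀ (m : ℕ) (S : Finset V) (r : V), S.card = m → S ⊆ R → Conn a S → r ∈ S →
      Full a b d κ τ S ∨ Part a b d κ τ S r := by
  intro m
  induction m using Nat.strong_induction_on with
  | _ m ih =>
    intro S r hSm hSR hconn hr
    have hmpos : 0 < m := by rw [← hSm]; exact Finset.card_pos.mpr ⟨r, hr⟩
    have hTc : (S.erase r).card = m - 1 := by rw [Finset.card_erase_of_mem hr, hSm]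
    have hTcr : ((S.erase r).card : ℝ) = S.card - 1 := by
      rw [hTc, hSm, Nat.cast_sub (by omega)]; push_cast; ring
    obtain ⟨L, hLT, hLi, hLa, hLH⟩ := h.aux (m - 1) (by
        intro S' r' hS' hS'R hc' hr'
        exact ih S'.card (by omega) S' r' rfl hS'R hc' hr') (m - 1) (S.erase r) r hTc le_rfl
      ((Finset.erase_subset _ _).trans hSR) (by
        intro T1 hT1 hne1
        by_contra hcon
        push Not at hcon
        have hz : ∀ v ∈ T1, a v r = 0 ∧ a r v = 0 := by
          intro v hv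
          have := hcon v hv
          rcases h.a01 v r with h1 | h1 <;> rcases h.a01 r v with h2 | h2
          · exact ⟨h1, h2⟩
          · rw [h1, h2] at this; norm_num at this
          · rw [h1, h2] at this; norm_num at this
          · rw [h1, h2] at this; norm_num at this
        have hcl : Cl a S T1 := by
          refine ⟨hT1.1.trans (Finset.erase_subset _ _), ?_⟩
          intro u hu v hv
          rw [Finset.mem_sdiff] at hv
          by_cases hvr : v = r
          · rw [hvr]; exact hz u hu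
          · exact hT1.2 u hu v (Finset.mem_sdiff.mpr ⟨Finset.mem_erase.mpr ⟨hvr, hv.1⟩, hv.2⟩)
        rcases hconn.2 T1 hcl with h1 | h1
        · rw [h1] at hne1; exact Finset.not_nonempty_empty hne1
        · have : r ∈ T1 := h1 ▸ hr
          exact (Finset.mem_erase.mp (hT1.1 this)).1 rfl)
    rcases L.eq_empty_or_nonempty with hL | hL
    · right
      subst hL
      unfold Part
      rw [Finset.sdiff_empty, hTcr] at hLH
      simpa using hLH
    · left
      have hrL : r ∉ L := fun hx => (Finset.mem_erase.mp (hLT hx)).1 rfl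
      have hLR : L ⊆ R := hLT.trans ((Finset.erase_subset _ _).trans hSR)
      have hst := h.starLemma r L hrL (hSR hr) hLR hLi hLa
      have hdis : Disjoint ({r} ∪ L) (S.erase r \ L) :=
        Finset.disjoint_left.mpr (fun x hx hx' => by
          rw [Finset.mem_sdiff, Finset.mem_erase] at hx'
          rcases Finset.mem_union.mp hx with hx | hx
          · exact hx'.1.1 (Finset.mem_singleton.mp hx)
          · exact hx'.2 hx)
      have hun : ({r} ∪ L) ∪ (S.erase r \ L) = S := by
        ext x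
        simp only [Finset.mem_union, Finset.mem_sdiff, Finset.mem_erase, Finset.mem_singleton]
        constructor
        · rintro ((hx | hx) | hx)
          · rw [hx]; exact hr
          · exact (Finset.mem_erase.mp (hLT hx)).2
          · exact hx.1.2
        · intro hx
          by_cases hxr : x = r
          · exact Or.inl (Or.inl hxr)
          · by_cases hxL : x ∈ L
            · exact Or.inl (Or.inr hxL)
            · exact Or.inr ⟨⟨hxr, hx⟩, hxL⟩
      have hh := Has.union hdis hst hLH (by intro u _ v _; simp)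
      have hsum : ∑ v ∈ S, d v = ∑ v ∈ {r} ∪ L, d v + ∑ v ∈ S.erase r \ L, d v := by
        rw [← Finset.sum_union hdis, hun]
      rw [hun] at hh
      unfold Full
      rw [hsum]
      refine hh.mono ?_ ?_
      · have hL1 : (1 : ℝ) ≤ L.card := by exact_mod_cast (Finset.card_pos.mpr hL)
        rw [hTcr]
        linarith
      · linarith

/-- large components -/
theorem Ctx.large (h : Ctx a b d R κ τ ρ) (S : Finset V) (hSR : S ⊆ R) (hc : Conn a S) :
    Has a b S (fun _ => 0) (((S.card : ℝ) - 1) / 2 - κ * ∑ v ∈ S, d v)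
      (τ * ∑ v ∈ S, d v) := by
  obtain ⟨r, hr⟩ := hc.1
  rcases h.mainStar S.card S r rfl hSR hc hr with hF | hP
  · exact hF.mono (by linarith) le_rfl
  · have hs := h.singles {r} (by simpa using hSR hr)
    have hdis : Disjoint {r} (S.erase r) := by simp
    have hun : {r} ∪ S.erase r = S := by
      rw [← Finset.insert_eq, Finset.insert_erase hr]
    have hh := Has.union hdis hs hP (by intro u _ v _; simp)
    have hsum : ∑ v ∈ S, d v = ∑ v ∈ {r}, d v + ∑ v ∈ S.erase r, d v := by
      rw [← Finset.sum_union hdis, hun]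
    rw [hun] at hh
    rw [hsum]
    refine hh.mono ?_ ?_
    · have h1 : 0 ≤ ∑ v ∈ {r}, d v := h.dsum0 _ (by simpa using hSR hr)
      have := mul_nonneg h.κ0 h1
      linarith
    · linarith

end

end Pool.Agent.Judicious
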